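import Pool.Agent.Helper36x.PN.Emp
import Pool.Agent.H35J.GS.Main

/-!
# All moments of bounded order over the good primes of an interval, for almost all forms of a box, uniformly in the degree
-/

set_option autoImplicit false
set_option linter.unusedSectionVars false

namespace H36PN

open Finset
open Q282.CL
open H35GS (card_GF one_le_sqrt eta mmt lln IV kbox kbox_card mn mn_eq)
open Pool.Agent.Y722.HS (Mon mev mkMon mkMon_apply form eval_form IsSmooth)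

theorem emp_all (m : ℕ) (hm : 1 ≤ m) (r n : ℕ) (ε : ℝ) (hε : 0 < ε) (hε1 : ε ≤ 1) :
    ∃ κ C : ℝ, 0 < κ ∧ 0 ≤ C ∧ ∀ D : ℕ, 1 ≤ D → 2 * (r * r * n) ≤ D + 1 →
      ∀ (S : Set ℕ) (N : Mon (m + 1) D → ℤ) (L : Mon (m + 1) D → ℕ) (T : ℝ), 0 < T → (∀ i, T * (Fintype.card (Mon (m + 1) D) + 1) ≤ L i) →
      ∀ X₀ : ℕ, 1 ≤ X₀ → ∃ E : Finset (Mon (m + 1) D → ℤ), E ⊆ kbox N L ∧
        (E.card : ℝ) ≤ C * Real.sqrt (BD m D) * (X₀ : ℝ) ^ (-(ε / 2)) * ∏ i, (L i : ℝ) ∧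
      ∀ t ∈ kbox N L, t ∉ E → ∀ Y Y' : ℕ, Y ≤ Y' → X₀ ≤ Y' → (Y' : ℝ) ≤ T ^ κ →
        (Y' : ℝ) ^ (1 / 2 + ε) ≤ (GP m D S Y Y' t).card → ∀ k : Fin r → ℕ, (∀ j, k j ≤ n) →
        |(∑ p ∈ GP m D S Y Y' t, ∏ j : Fin r, sv m D j p (fun ν => (t ν : ZMod p)) ^ k j) / (GP m D S Y Y' t).card - ∏ j : Fin r, mmt j (k j)| ≤ 1 / (n + 1) := by
  classical
  obtain ⟨Ks, hKs⟩ : ∃ Ks : Finset (Fin r → ℕ), Ks = Fintype.piFinset fun _ : Fin r => range (n + 1) := ⟨_, rfl⟩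
  have hKsm : ∀ k : Fin r → ℕ, k ∈ Ks ↔ ∀ j, k j ≤ n := by
    intro k
    rw [hKs, Fintype.mem_piFinset]
    simp only [mem_range, Nat.lt_succ_iff]
  have hKne : Ks.Nonempty := ⟨fun _ => 0, (hKsm _).2 fun _ => Nat.zero_le _⟩
  choose κf hκf Cf hCf hemp using fun k : Fin r → ℕ => emp_mom m hm k ε hε hε1
  obtain ⟨k₀, hk₀, hk₀min⟩ := exists_min_image Ks κf hKne
  obtain ⟨κ, hκ⟩ : ∃ κ : ℝ, κ = κf k₀ := ⟨_, rfl⟩
  have hκ0 : 0 < κ := by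
    rw [hκ]
    exact hκf k₀
  obtain ⟨M, hM⟩ : ∃ M : ℝ, M = ∑ k ∈ Ks, Cf k := ⟨_, rfl⟩
  have hMle : ∀ k ∈ Ks, Cf k ≤ M := by
    intro k hk
    rw [hM]
    exact single_le_sum (f := Cf) (fun k _ => by linarith [hCf k]) hk
  have hM1 : 1 ≤ M := (hCf k₀).trans (hMle k₀ hk₀)
  obtain ⟨C, hC⟩ : ∃ C : ℝ, C = (n + 1) * M := ⟨_, rfl⟩
  refine ⟨κ, C, hκ0, by rw [hC]; positivity, fun D hD1 hDr S N L T hT hL X₀ hX₀ => ?_⟩
  have hX₀R : (1 : ℝ) ≤ X₀ := by exact_mod_cast hX₀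
  have hLpos : (0 : ℝ) ≤ ∏ i, (L i : ℝ) := prod_nonneg fun i _ => Nat.cast_nonneg _
  have hXp : (0 : ℝ) < (X₀ : ℝ) ^ (-(ε / 2)) := Real.rpow_pos_of_pos (by linarith) _
  obtain ⟨b, hb⟩ : ∃ b : ℝ, b = Real.sqrt (BD m D) := ⟨_, rfl⟩
  have hb1 : 1 ≤ b := by
    rw [hb]
    exact Real.one_le_sqrt.2 (one_le_BD m D hD1)
  have hb0 : 0 < b := by linarith
  rw [← hb]
  by_cases hsmall : M * b * (X₀ : ℝ) ^ (-(ε / 2)) ≤ 1 / (n + 1)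
  swap
  · -- the trivial case
    refine ⟨kbox N L, subset_rfl, ?_, fun t ht htE => absurd ht htE⟩
    rw [not_le, div_lt_iff₀ (by positivity)] at hsmall
    have h1 : ((kbox N L).card : ℝ) = ∏ i, (L i : ℝ) := kbox_card N L
    rw [h1, hC]
    have h2 : 1 ≤ (n + 1) * M * b * (X₀ : ℝ) ^ (-(ε / 2)) := by linarith
    exact le_mul_of_one_le_left hLpos h2
  have hw : ∀ k ∈ Ks, 2 * ∑ j : Fin r, ((j : ℕ) + 1) * k j ≤ D + 1 := by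
    intro k hk
    rw [hKsm] at hk
    have h1 : ∑ j : Fin r, ((j : ℕ) + 1) * k j ≤ ∑ j : Fin r, r * n := sum_le_sum fun j _ => Nat.mul_le_mul j.2 (hk j)
    rw [sum_const, card_univ, Fintype.card_fin, smul_eq_mul, ← mul_assoc] at h1
    omega
  choose E hE1 hE2 hE3 using fun (k : Fin r → ℕ) (hk : 2 * ∑ j : Fin r, ((j : ℕ) + 1) * k j ≤ D + 1) => hemp k D hD1 hk S N L T hT hL X₀ hX₀
  refine ⟨Ks.attach.biUnion fun k => E k.1 (hw k.1 k.2), ?_, ?_, ?_⟩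
  · intro t ht
    rw [mem_biUnion] at ht
    obtain ⟨k, _, hk⟩ := ht
    exact hE1 _ _ hk
  · refine (Nat.cast_le.2 card_biUnion_le).trans ?_
    push_cast
    refine (sum_le_sum fun k _ => hE2 k.1 (hw k.1 k.2)).trans ?_
    rw [← sum_mul, ← sum_mul, sum_attach Ks (fun k => Cf k), ← hM]
    refine mul_le_mul_of_nonneg_right (mul_le_mul_of_nonneg_right ?_ hXp.le) hLpos
    rw [hC]
    have : (0 : ℝ) ≤ n := Nat.cast_nonneg _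
    have h1 : M ≤ (n + 1) * M := by nlinarith
    nlinarith
  intro t ht htE Y Y' hYY hY hYT hcard k hk
  have hY1 : (1 : ℝ) ≤ Y' := by
    have : 1 ≤ Y' := hX₀.trans hY
    exact_mod_cast this
  have hT1 : 1 ≤ T := by
    by_contra hlt
    push Not at hlt
    have := Real.rpow_lt_one hT.le hlt hκ0
    linarith
  obtain ⟨G, hG⟩ : ∃ G : Finset ℕ, G = GP m D S Y Y' t := ⟨_, rfl⟩
  rw [← hG] at hcard ⊢
  have hYp : (1 : ℝ) ≤ (Y' : ℝ) ^ (1 / 2 + ε) := Real.one_le_rpow hY1 (by positivity)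
  have hG1 : (1 : ℝ) ≤ G.card := hYp.trans hcard
  have hG0 : (0 : ℝ) < G.card := by linarith
  have hkK : k ∈ Ks := (hKsm k).2 hk
  have h1 := hE3 k (hw k hkK) t ht (fun h => htE (mem_biUnion.2 ⟨⟨k, hkK⟩, mem_attach _ _, h⟩)) Y Y' hYY hY (by
    refine hYT.trans (Real.rpow_le_rpow_of_exponent_le hT1 ?_)
    rw [hκ]
    exact hk₀min k hkK)
  rw [← hG, sum_sub_distrib, sum_const, nsmul_eq_mul, ← hb] at h1
  have h2 : (∑ p ∈ G, ∏ j : Fin r, sv m D j p (fun ν => (t ν : ZMod p)) ^ k j) / G.card - ∏ j : Fin r, mmt j (k j) =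
      (∑ p ∈ G, ∏ j : Fin r, sv m D j p (fun ν => (t ν : ZMod p)) ^ k j - G.card * ∏ j : Fin r, mmt j (k j)) / G.card := by
    field_simp
  rw [h2, abs_div, abs_of_pos hG0, div_le_iff₀ hG0]
  refine h1.trans ?_
  have h3 : (Y' : ℝ) ^ (1 / 2 + ε / 2) = (Y' : ℝ) ^ (-(ε / 2)) * (Y' : ℝ) ^ (1 / 2 + ε) := by
    rw [← Real.rpow_add (by linarith)]
    congr 1
    ring
  have h4 : (Y' : ℝ) ^ (-(ε / 2)) ≤ (X₀ : ℝ) ^ (-(ε / 2)) :=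
    Real.rpow_le_rpow_of_nonpos (by linarith) (by exact_mod_cast hY) (by linarith)
  rw [h3]
  calc Cf k * b * ((Y' : ℝ) ^ (-(ε / 2)) * (Y' : ℝ) ^ (1 / 2 + ε)) = (Cf k * b * (Y' : ℝ) ^ (-(ε / 2))) * (Y' : ℝ) ^ (1 / 2 + ε) := by ring
    _ ≤ (M * b * (X₀ : ℝ) ^ (-(ε / 2))) * (G.card : ℝ) := by
      refine mul_le_mul (mul_le_mul (mul_le_mul_of_nonneg_right (hMle k hkK) hb0.le) h4 (Real.rpow_nonneg (by linarith) _) (by positivity)) hcard (by linarith) (by positivity)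
    _ ≤ 1 / (n + 1) * (G.card : ℝ) := mul_le_mul_of_nonneg_right hsmall hG0.le

end H36PN
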