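import Pool.Agent.Helper36x.PN.Sm
import Pool.Agent.H35J.GS.Lln

/-!
# The moments over the good primes of an interval, for almost all forms of a box, uniformly in the degree
-/

set_option autoImplicit false
set_option linter.unusedSectionVars false

namespace H36PN

open Finset
open Q282.CL
open Q282MM (gm)
open H35GS (card_GF one_le_sqrt eta mmt lln IV kbox mn mn_eq)
open Pool.Agent.Y722.HS (Mon mev mkMon mkMon_apply form eval_form IsSmooth)

/-- the normalised power sums of the hypersurface of dimension `m` modulo `p` -/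
noncomputable def sv0 (m D j p : ℕ) [hp : Fact p.Prime] (c : Mon (m + 1) D → ZMod p) : ℝ :=
  -(∑ v : NV (GaloisField p (j + 1)) (m + 1), iz (∑ ν, algebraMap (ZMod p) (GaloisField p (j + 1)) (c ν) * mev v.1 ν) -
      ∑ i ∈ range (m + 1), ((p : ℝ) ^ (j + 1)) ^ i) / Real.sqrt p ^ (m * (j + 1))

/-- the same for all `p` -/
noncomputable def sv (m D j p : ℕ) (c : Mon (m + 1) D → ZMod p) : ℝ :=
  if h : p.Prime then haveI : Fact p.Prime := ⟨h⟩; sv0 m D j p c else 0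

lemma sv_eq (m D j p : ℕ) [hp : Fact p.Prime] (c : Mon (m + 1) D → ZMod p) :
    sv m D j p c = -(∑ v : NV (GaloisField p (j + 1)) (m + 1), iz (∑ ν, algebraMap (ZMod p) (GaloisField p (j + 1)) (c ν) * mev v.1 ν) -
      ∑ i ∈ range (m + 1), ((p : ℝ) ^ (j + 1)) ^ i) / Real.sqrt p ^ (m * (j + 1)) := by
  unfold sv
  rw [dif_pos hp.out]
  rfl

lemma sv_SS (m D p : ℕ) [hp : Fact p.Prime] {r : ℕ} (j : Fin r) (c : Mon (m + 1) D → ZMod p) :
    sv m D j p c = SS (r := r) j (fun P => vl c P) := by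
  rw [sv_eq]
  unfold SS
  rw [ZZ_vl (j : ℕ) j.2]

lemma sv_abs (m D j p : ℕ) (hp : p.Prime) (c : Mon (m + 1) D → ZMod p) : |sv m D j p c| ≤ 2 * (p : ℝ) ^ ((j + 1) * (m + 1)) := by
  classical
  have : Fact p.Prime := ⟨hp⟩
  have hs : (1 : ℝ) ≤ Real.sqrt p ^ (m * (j + 1)) := one_le_pow₀ one_le_sqrt
  rw [sv_eq, abs_div, abs_neg, abs_of_pos (by linarith : (0 : ℝ) < Real.sqrt p ^ (m * (j + 1)))]
  refine (div_le_self (abs_nonneg _) hs).trans ?_
  have h0 : ∀ v : NV (GaloisField p (j + 1)) (m + 1), 0 ≤ iz (∑ ν, algebraMap (ZMod p) (GaloisField p (j + 1)) (c ν) * mev v.1 ν) := by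
    intro v
    unfold iz
    split_ifs <;> norm_num
  have h1 : ∑ v : NV (GaloisField p (j + 1)) (m + 1), iz (∑ ν, algebraMap (ZMod p) (GaloisField p (j + 1)) (c ν) * mev v.1 ν) ≤ 2 * (p : ℝ) ^ ((j + 1) * (m + 1)) := by
    calc ∑ v : NV (GaloisField p (j + 1)) (m + 1), iz (∑ ν, algebraMap (ZMod p) (GaloisField p (j + 1)) (c ν) * mev v.1 ν)
        ≤ ∑ v : NV (GaloisField p (j + 1)) (m + 1), (1 : ℝ) := by
          refine sum_le_sum fun v _ => ?_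
          unfold iz
          split_ifs <;> norm_num
      _ = ∑ i ∈ range (m + 1 + 1), ((p : ℝ) ^ (j + 1)) ^ i := by
          rw [sum_const, card_univ, card_NV, GaloisField.card p (j + 1) (Nat.succ_ne_zero j), nsmul_eq_mul, mul_one]
          push_cast
          rfl
      _ ≤ 2 * ((p : ℝ) ^ (j + 1)) ^ (m + 1) := by
          rw [sum_range_succ]
          have := geo_le ((p : ℝ) ^ (j + 1)) (pow_two_le _ (Nat.succ_ne_zero j)) (m + 1)
          linarith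
      _ = _ := by rw [← pow_mul]
  have h2 : ∑ i ∈ range (m + 1), ((p : ℝ) ^ (j + 1)) ^ i ≤ (p : ℝ) ^ ((j + 1) * (m + 1)) := by
    rw [pow_mul]
    exact geo_le ((p : ℝ) ^ (j + 1)) (pow_two_le _ (Nat.succ_ne_zero j)) (m + 1)
  have h3 : 0 ≤ ∑ i ∈ range (m + 1), ((p : ℝ) ^ (j + 1)) ^ i := sum_nonneg fun _ _ => by positivity
  have h4 := sum_nonneg fun (v : NV (GaloisField p (j + 1)) (m + 1)) (_ : v ∈ univ) => h0 v
  have h5 : (0 : ℝ) ≤ (p : ℝ) ^ ((j + 1) * (m + 1)) := by positivity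
  rw [abs_le]
  constructor <;> linarith

/-- the product of the power sums -/
noncomputable def FF {r : ℕ} (k : Fin r → ℕ) (m D p : ℕ) (c : Mon (m + 1) D → ZMod p) : ℝ := ∏ j : Fin r, sv m D j p c ^ k j

/-- the limit -/
noncomputable def mu {r : ℕ} (k : Fin r → ℕ) : ℝ := ∏ j : Fin r, mmt j (k j)

lemma FF_abs {r : ℕ} (k : Fin r → ℕ) (m D p : ℕ) (hp : p.Prime) (c : Mon (m + 1) D → ZMod p) :
    |FF k m D p c| ≤ (∏ j : Fin r, 2 ^ k j) * (p : ℝ) ^ (∑ j : Fin r, (((j : ℕ) + 1) * (m + 1)) * k j) := by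
  unfold FF
  rw [abs_prod, ← prod_pow_eq_pow_sum, ← prod_mul_distrib]
  refine prod_le_prod (fun j _ => abs_nonneg _) fun j _ => ?_
  rw [abs_pow, pow_mul, ← mul_pow]
  exact pow_le_pow_left₀ (abs_nonneg _) (sv_abs m D j p hp c) _

open Classical in
/-- the part of the singular forms, scaled -/
noncomputable def Gb {r : ℕ} (k : Fin r → ℕ) (m D p : ℕ) (c : Mon (m + 1) D → ZMod p) : ℝ :=
  if Sm p c then 0 else (FF k m D p c - mu k) / Real.sqrt (BD m D)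

lemma one_le_BD (m D : ℕ) (hD : 1 ≤ D) : (1 : ℝ) ≤ BD m D := by exact_mod_cast hD.trans (BD_pos m D)

lemma F_mean (m : ℕ) (hm : 1 ≤ m) {r : ℕ} (k : Fin r → ℕ) : ∃ K : ℝ, 1 ≤ K ∧ ∀ D : ℕ, 2 * ∑ j : Fin r, ((j : ℕ) + 1) * k j ≤ D + 1 → ∀ p : ℕ, p.Prime →
    |mn (FF k m D) p - mu k| ≤ K / Real.sqrt p ∧ mn (fun p c => FF k m D p c ^ 2) p ≤ K := by
  classical
  obtain ⟨K₁, hK₁, h₁⟩ := loc m hm k
  obtain ⟨K₂, hK₂, h₂⟩ := loc m hm fun j => 2 * k j
  obtain ⟨μ₂, hμ₂⟩ : ∃ μ₂ : ℝ, μ₂ = ∏ j : Fin r, mmt j (2 * k j) := ⟨_, rfl⟩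
  refine ⟨K₁ + (|μ₂| + K₂) + 1, by have := abs_nonneg μ₂; linarith, fun D hD p hpr => ?_⟩
  have hp : Fact p.Prime := ⟨hpr⟩
  have hs1 : 1 ≤ Real.sqrt p := one_le_sqrt
  have hs0 : 0 < Real.sqrt p := by linarith
  constructor
  · rw [mn_eq]
    have h3 := h₁ p D (by omega)
    have e1 : FF k m D p = fun c : Mon (m + 1) D → ZMod p => ∏ j : Fin r, SS (r := r) j (fun P => vl c P) ^ k j := by
      funext c
      unfold FF
      exact prod_congr rfl fun j _ => by rw [sv_SS m D p]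
    rw [e1]
    refine h3.trans (div_le_div_of_nonneg_right ?_ hs0.le)
    have := abs_nonneg μ₂
    linarith
  · rw [mn_eq (fun p c => FF k m D p c ^ 2)]
    have h3 := h₂ p D (by
      refine le_trans (le_of_eq ?_) hD
      rw [mul_sum]
      exact sum_congr rfl fun j _ => by ring)
    have e1 : (fun c => FF k m D p c ^ 2) = fun c : Mon (m + 1) D → ZMod p => ∏ j : Fin r, SS (r := r) j (fun P => vl c P) ^ (2 * k j) := by
      funext c
      unfold FF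
      rw [← prod_pow]
      refine prod_congr rfl fun j _ => ?_
      rw [sv_SS m D p, ← pow_mul, mul_comm (k j) 2]
    rw [e1]
    have h4 := (abs_le.1 h3).2
    rw [← hμ₂] at h4
    have h5 : K₂ / Real.sqrt p ≤ K₂ := div_le_self hK₂ hs1
    have h6 := le_abs_self μ₂
    linarith

lemma Gb_mean (m : ℕ) (hm : 1 ≤ m) {r : ℕ} (k : Fin r → ℕ) : ∃ K : ℝ, 1 ≤ K ∧ ∀ D : ℕ, 1 ≤ D → 2 * ∑ j : Fin r, ((j : ℕ) + 1) * k j ≤ D + 1 → ∀ p : ℕ, p.Prime →
    |mn (Gb k m D) p - 0| ≤ K / Real.sqrt p ∧ mn (fun p c => Gb k m D p c ^ 2) p ≤ K := by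
  classical
  obtain ⟨K, hK, h⟩ := F_mean m hm k
  obtain ⟨M, hM⟩ : ∃ M : ℝ, M = 2 * K + 2 * mu k ^ 2 := ⟨_, rfl⟩
  have hM0 : 0 ≤ M := by
    rw [hM]
    positivity
  refine ⟨M + 1, by linarith, fun D hD1 hD p hpr => ?_⟩
  have hp : Fact p.Prime := ⟨hpr⟩
  have hp0 : (0 : ℝ) < p := by exact_mod_cast hpr.pos
  have hs1 : 1 ≤ Real.sqrt p := one_le_sqrt
  have hs0 : 0 < Real.sqrt p := by linarith
  have hss : Real.sqrt p * Real.sqrt p = p := Real.mul_self_sqrt hp0.le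
  obtain ⟨b, hb⟩ : ∃ b : ℝ, b = Real.sqrt (BD m D) := ⟨_, rfl⟩
  have hb1 : 1 ≤ b := by
    rw [hb]
    exact Real.one_le_sqrt.2 (one_le_BD m D hD1)
  have hb0 : 0 < b := by linarith
  have hbb : b * b = BD m D := by
    rw [hb]
    exact Real.mul_self_sqrt (Nat.cast_nonneg _)
  obtain ⟨f, hf⟩ : ∃ f : (Mon (m + 1) D → ZMod p) → ℝ, f = fun c => FF k m D p c - mu k := ⟨_, rfl⟩
  have hf2 : av (fun c => f c ^ 2) ≤ M := by
    have h3 : ∀ c, f c ^ 2 ≤ 2 * FF k m D p c ^ 2 + 2 * mu k ^ 2 := by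
      intro c
      rw [hf]
      nlinarith [sq_nonneg (FF k m D p c + mu k)]
    refine (av_mono h3).trans ?_
    rw [av_add, av_mul, av_const, hM]
    have h4 := (h D hD p hpr).2
    rw [mn_eq (fun p c => FF k m D p c ^ 2)] at h4
    linarith
  have hG : ∀ c, Gb k m D p c = if Sm p c then 0 else f c / b := by
    intro c
    unfold Gb
    rw [hf, hb]
  constructor
  · rw [sub_zero, mn_eq]
    have h3 : ∀ c : Mon (m + 1) D → ZMod p, |Gb k m D p c| ≤ (1 / (2 * Real.sqrt p)) * f c ^ 2 + (Real.sqrt p / (2 * (b * b))) * (if Sm p c then 0 else 1) := by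
      intro c
      rw [hG]
      split_ifs with hc
      · rw [abs_zero, mul_zero, add_zero]
        positivity
      · rw [mul_one, abs_div, abs_of_pos hb0]
        have h4 : 0 ≤ (1 / (2 * Real.sqrt p)) * (|f c| - Real.sqrt p / b) ^ 2 := by positivity
        have h5 : (1 / (2 * Real.sqrt p)) * (|f c| - Real.sqrt p / b) ^ 2 = (1 / (2 * Real.sqrt p)) * f c ^ 2 - |f c| / b + Real.sqrt p / (2 * (b * b)) := by
          rw [sub_sq, sq_abs]
          field_simp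
        linarith
    refine (abs_av_le _).trans ?_
    refine (av_mono h3).trans ?_
    rw [av_add, av_mul, av_mul]
    have h4 := av_sing m D p hD1
    have h6 : (1 / (2 * Real.sqrt p)) * av (fun c => f c ^ 2) ≤ (1 / (2 * Real.sqrt p)) * M := mul_le_mul_of_nonneg_left hf2 (by positivity)
    have h7 : (Real.sqrt p / (2 * (b * b))) * av (fun c : Mon (m + 1) D → ZMod p => (if Sm p c then (0 : ℝ) else 1)) ≤ (Real.sqrt p / (2 * (b * b))) * (b * b / p) := by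
      rw [hbb]
      refine mul_le_mul_of_nonneg_left h4 (by positivity)
    have h8 : (Real.sqrt p / (2 * (b * b))) * (b * b / p) = 1 / (2 * Real.sqrt p) := by
      conv_lhs => rw [← hss]
      rw [Real.sqrt_mul_self hs0.le]
      field_simp
    rw [h8] at h7
    have h9 : (M + 1) / Real.sqrt p = 2 * ((1 / (2 * Real.sqrt p)) * M + 1 / (2 * Real.sqrt p)) := by
      field_simp
    rw [h9]
    have : 0 ≤ (1 / (2 * Real.sqrt p)) * M + 1 / (2 * Real.sqrt p) := by positivity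
    linarith
  · rw [mn_eq (fun p c => Gb k m D p c ^ 2)]
    have h3 : av (fun c => Gb k m D p c ^ 2) ≤ M := by
      refine le_trans (av_mono fun c => ?_) hf2
      rw [hG]
      split_ifs
      · rw [zero_pow two_ne_zero]
        exact sq_nonneg _
      · rw [div_pow]
        exact div_le_self (sq_nonneg _) (one_le_pow₀ hb1)
    linarith

open Classical in
/-- the good primes of `S` in the interval -/
noncomputable def GP (m D : ℕ) (S : Set ℕ) (Y Y' : ℕ) (t : Mon (m + 1) D → ℤ) : Finset ℕ :=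
  (IV Y Y').filter fun p => p ∈ S ∧ Sm p fun ν => (t ν : ZMod p)

/-- **the empirical moments** -/
theorem emp_mom (m : ℕ) (hm : 1 ≤ m) {r : ℕ} (k : Fin r → ℕ) (ε : ℝ) (hε : 0 < ε) (hε1 : ε ≤ 1) :
    ∃ κ₀ : ℝ, 0 < κ₀ ∧ ∃ C : ℝ, 1 ≤ C ∧ ∀ D : ℕ, 1 ≤ D → 2 * ∑ j : Fin r, ((j : ℕ) + 1) * k j ≤ D + 1 →
      ∀ (S : Set ℕ) (N : Mon (m + 1) D → ℤ) (L : Mon (m + 1) D → ℕ) (T : ℝ), 0 < T → (∀ i, T * (Fintype.card (Mon (m + 1) D) + 1) ≤ L i) →
      ∀ X₀ : ℕ, 1 ≤ X₀ → ∃ E : Finset (Mon (m + 1) D → ℤ), E ⊆ kbox N L ∧ (E.card : ℝ) ≤ C * (X₀ : ℝ) ^ (-(ε / 2)) * ∏ i, (L i : ℝ) ∧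
      ∀ t ∈ kbox N L, t ∉ E → ∀ Y Y' : ℕ, Y ≤ Y' → X₀ ≤ Y' → (Y' : ℝ) ≤ T ^ κ₀ →
        |∑ p ∈ GP m D S Y Y' t, (∏ j : Fin r, sv m D j p (fun ν => (t ν : ZMod p)) ^ k j - ∏ j : Fin r, mmt j (k j))| ≤
          C * Real.sqrt (BD m D) * (Y' : ℝ) ^ (1 / 2 + ε / 2) := by
  classical
  obtain ⟨K₁, hK₁, h1⟩ := F_mean m hm k
  obtain ⟨K₂, hK₂, h2⟩ := Gb_mean m hm k
  obtain ⟨A, hA⟩ : ∃ A : ℝ, A = ∏ j : Fin r, 2 ^ k j + |mu k| := ⟨_, rfl⟩
  have hA0 : 0 ≤ A := by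
    rw [hA]
    have : (0 : ℝ) ≤ ∏ j : Fin r, 2 ^ k j := prod_nonneg fun j _ => by positivity
    positivity
  obtain ⟨κ₁, hκ₁, C₁, hC₁, h3⟩ := lln (∑ j : Fin r, (((j : ℕ) + 1) * (m + 1)) * k j) 0 (K₁ + K₂ + A) (mu k) (by linarith) ε hε hε1
  obtain ⟨κ₂, hκ₂, C₂, hC₂, h4⟩ := lln (∑ j : Fin r, (((j : ℕ) + 1) * (m + 1)) * k j) 0 (K₁ + K₂ + A) 0 (by linarith) ε hε hε1
  refine ⟨min κ₁ κ₂, lt_min hκ₁ hκ₂, C₁ + C₂, by linarith, fun D hD1 hD S N L T hT hL X₀ hX₀ => ?_⟩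
  obtain ⟨b, hb⟩ : ∃ b : ℝ, b = Real.sqrt (BD m D) := ⟨_, rfl⟩
  have hb1 : 1 ≤ b := by
    rw [hb]
    exact Real.one_le_sqrt.2 (one_le_BD m D hD1)
  have hb0 : 0 < b := by linarith
  have hpW : ∀ p : ℕ, p.Prime → (1 : ℝ) ≤ (p : ℝ) ^ (∑ j : Fin r, (((j : ℕ) + 1) * (m + 1)) * k j) := fun p hp => one_le_pow₀ (by exact_mod_cast hp.one_lt.le)
  obtain ⟨E₁, hE₁1, hE₁2, hE₁3⟩ := h3 (Mon (m + 1) D) (FF k m D) (fun p hp u => by
      refine (FF_abs k m D p hp u).trans (mul_le_mul_of_nonneg_right ?_ (by positivity))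
      have := abs_nonneg (mu k)
      linarith)
    (fun p hp _ => ((h1 D hD p hp).1).trans (div_le_div_of_nonneg_right (by linarith) (Real.sqrt_nonneg _)))
    (fun p hp _ => ((h1 D hD p hp).2).trans (by linarith)) (fun p => if p ∈ S then 1 else 0)
    (fun p => by split_ifs <;> simp) N L T hT hL X₀ hX₀
  obtain ⟨E₂, hE₂1, hE₂2, hE₂3⟩ := h4 (Mon (m + 1) D) (Gb k m D) (fun p hp u => by
      unfold Gb
      split_ifs
      · rw [abs_zero]
        have := hpW p hp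
        have : 0 ≤ K₁ + K₂ + A := by linarith
        positivity
      · rw [abs_div, ← hb, abs_of_pos hb0]
        refine (div_le_self (abs_nonneg _) hb1).trans ((abs_sub _ _).trans ?_)
        have h5 := FF_abs k m D p hp u
        have h6 := hpW p hp
        have h7 := abs_nonneg (mu k)
        have h8 : (0 : ℝ) ≤ ∏ j : Fin r, 2 ^ k j := prod_nonneg fun j _ => by positivity
        rw [hA]
        nlinarith)
    (fun p hp _ => ((h2 D hD1 hD p hp).1).trans (div_le_div_of_nonneg_right (by linarith) (Real.sqrt_nonneg _)))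
    (fun p hp _ => ((h2 D hD1 hD p hp).2).trans (by linarith)) (fun p => if p ∈ S then 1 else 0)
    (fun p => by split_ifs <;> simp) N L T hT hL X₀ hX₀
  refine ⟨E₁ ∪ E₂, union_subset hE₁1 hE₂1, ?_, fun t ht htE Y Y' hY hX hT' => ?_⟩
  · have h5 : ((E₁ ∪ E₂).card : ℝ) ≤ E₁.card + E₂.card := by exact_mod_cast card_union_le E₁ E₂
    rw [add_mul, add_mul]
    linarith
  rw [notMem_union] at htE
  have hYp : 1 ≤ Y' := hX₀.trans hX
  have hT1 : 1 ≤ T := by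
    by_contra hlt
    push Not at hlt
    have h5 := Real.rpow_lt_one hT.le hlt (lt_min hκ₁ hκ₂)
    have : (1 : ℝ) ≤ Y' := by exact_mod_cast hYp
    linarith
  have h5 := hE₁3 t ht htE.1 Y Y' hY hX (hT'.trans (Real.rpow_le_rpow_of_exponent_le hT1 (min_le_left _ _)))
  have h6 := hE₂3 t ht htE.2 Y Y' hY hX (hT'.trans (Real.rpow_le_rpow_of_exponent_le hT1 (min_le_right _ _)))
  have e1 : ∑ p ∈ GP m D S Y Y' t, (∏ j : Fin r, sv m D j p (fun ν => (t ν : ZMod p)) ^ k j - ∏ j : Fin r, mmt j (k j)) =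
      ∑ p ∈ IV Y Y', (if p ∈ S then (1 : ℝ) else 0) * (FF k m D p (fun i => (t i : ZMod p)) - mu k) -
        b * ∑ p ∈ IV Y Y', (if p ∈ S then (1 : ℝ) else 0) * (Gb k m D p (fun i => (t i : ZMod p)) - 0) := by
    unfold GP
    rw [sum_filter, mul_sum, ← sum_sub_distrib]
    refine sum_congr rfl fun p _ => ?_
    unfold Gb
    by_cases h7 : p ∈ S
    · by_cases h8 : Sm p fun ν => (t ν : ZMod p)
      · rw [if_pos ⟨h7, h8⟩, if_pos h7, if_pos h8]
        unfold FF mu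
        ring
      · rw [if_neg fun h9 => h8 h9.2, if_pos h7, if_neg h8, ← hb]
        field_simp
        ring
    · rw [if_neg fun h9 => h7 h9.1, if_neg h7]
      ring
  rw [e1, ← hb]
  have hYY : (0 : ℝ) ≤ (Y' : ℝ) ^ (1 / 2 + ε / 2) := Real.rpow_nonneg (Nat.cast_nonneg _) _
  refine (abs_sub _ _).trans ?_
  rw [abs_mul, abs_of_pos hb0]
  have h7 : C₁ * (Y' : ℝ) ^ (1 / 2 + ε / 2) ≤ C₁ * b * (Y' : ℝ) ^ (1 / 2 + ε / 2) := by
    refine mul_le_mul_of_nonneg_right ?_ hYY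
    exact le_mul_of_one_le_right (by linarith) hb1
  have h8 : b * |∑ p ∈ IV Y Y', (if p ∈ S then (1 : ℝ) else 0) * (Gb k m D p (fun i => (t i : ZMod p)) - 0)| ≤ b * (C₂ * (Y' : ℝ) ^ (1 / 2 + ε / 2)) :=
    mul_le_mul_of_nonneg_left h6 hb0.le
  calc _ ≤ C₁ * b * (Y' : ℝ) ^ (1 / 2 + ε / 2) + b * (C₂ * (Y' : ℝ) ^ (1 / 2 + ε / 2)) := add_le_add (h5.trans h7) h8
    _ = _ := by ring

end H36PN
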