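import Pool.Agent.Helper36x.PN.Pt

/-!
# The values of random forms of degree `D` at closed points of total degree at most `D + 1` are independent
-/

set_option autoImplicit false
set_option linter.unusedSectionVars false

namespace H36PN

open Finset
open Q282.CL
open H35GS (card_GF card_algHom av_hom)
open Pool.Agent.Y722.HS (Mon mev mkMon mkMon_apply form eval_form)

section

variable {p : ℕ} [hp : Fact p.Prime] {n : ℕ}

variable (p n) in
/-- the closed points of degree at most `r` -/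
abbrev Pt (r : ℕ) := Σ e : Fin r, CQ p n (e + 1)

/-- the residue field -/
abbrev BB {r : ℕ} (P : Pt p n r) := GaloisField p (P.1 + 1)

/-- the value of a form -/
noncomputable def vl {r D : ℕ} (c : Mon n D → ZMod p) (P : Pt p n r) : BB P := ∑ ν, algebraMap (ZMod p) (BB P) (c ν) * mev (rt P.2) ν

/-- the values -/
noncomputable def lin (r D : ℕ) (S : Finset (Pt p n r)) : (Mon n D → ZMod p) →ₗ[ZMod p] (∀ P : S, BB P.1) where
  toFun c P := vl c P.1
  map_add' c c' := by
    funext P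
    simp only [vl, Pi.add_apply, map_add, add_mul, sum_add_distrib]
  map_smul' a c := by
    funext P
    simp only [vl, Pi.smul_apply, smul_eq_mul, map_mul, RingHom.id_apply]
    rw [Algebra.smul_def, mul_sum]
    exact sum_congr rfl fun ν _ => by ring

lemma lin_apply (r D : ℕ) (S : Finset (Pt p n r)) (c : Mon n D → ZMod p) (P : S) : lin r D S c P = vl c P.1 := rfl

lemma map_mev {L : Type} [Field L] {F : Type} [Field F] (φ : F →+* L) {D : ℕ} (v : Fin (n + 1) → F) (ν : Mon n D) :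
    φ (mev v ν) = mev (fun i => φ (v i)) ν := by
  unfold mev
  rw [map_prod]
  simp only [map_pow]

lemma vl_single {r D : ℕ} (ν : Mon n D) (P : Pt p n r) [DecidableEq (Mon n D)] : vl (Pi.single ν 1) P = mev (rt P.2) ν := by
  unfold vl
  rw [sum_eq_single ν]
  · rw [Pi.single_eq_same, map_one, one_mul]
  · intro μ _ hμ
    rw [Pi.single_eq_of_ne hμ, map_zero, zero_mul]
  · intro h
    exact absurd (mem_univ _) h

lemma lin_surj (r D : ℕ) (S : Finset (Pt p n r)) (hS : ∑ P ∈ S, ((P.1 : ℕ) + 1) ≤ D + 1) : Function.Surjective (lin r D S) := by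
  classical
  obtain ⟨I, hI⟩ : ∃ I, I = LinearMap.range (lin r D S) := ⟨_, rfl⟩
  -- the geometric points
  let Ω := AlgebraicClosure (ZMod p)
  let J := Σ P : S, (BB P.1 →ₐ[ZMod p] Ω)
  have hJ : Fintype.card J = ∑ P ∈ S, ((P.1 : ℕ) + 1) := by
    rw [Fintype.card_sigma]
    rw [← Finset.sum_coe_sort S fun P => ((P.1 : ℕ) + 1)]
    refine sum_congr rfl fun P _ => ?_
    rw [AlgHom.card, GaloisField.finrank p (Nat.succ_ne_zero _)]
  have hdim : Module.finrank (ZMod p) (∀ P : S, BB P.1) = Fintype.card J := by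
    rw [hJ, Module.finrank_pi_fintype, ← Finset.sum_coe_sort S fun P => ((P.1 : ℕ) + 1)]
    exact sum_congr rfl fun P _ => GaloisField.finrank p (Nat.succ_ne_zero _)
  obtain ⟨w, hw⟩ : ∃ w : J → (Fin (n + 1) → Ω), ∀ x i, w x i = x.2 (rt x.1.1.2 i) := ⟨fun x i => x.2 (rt x.1.1.2 i), fun _ _ => rfl⟩
  have hwn : ∀ x, Nrm (w x) := by
    intro x
    have h1 := (nrm_map (x.2 : BB x.1.1 →+* Ω) _).2 (rt_prm x.1.1.2).1
    have h2 : w x = fun i => (x.2 : BB x.1.1 →+* Ω) (rt x.1.1.2 i) := funext fun i => hw x i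
    rw [h2]
    exact h1
  have hwi : Function.Injective w := by
    rintro ⟨⟨⟨e, P⟩, hP⟩, φ⟩ ⟨⟨⟨e', P'⟩, hP'⟩, φ'⟩ h
    have h1 := pts_inj (L := Ω) ⟨⟨(e : ℕ) + 1, Nat.succ_ne_zero _⟩, P, φ⟩ ⟨⟨(e' : ℕ) + 1, Nat.succ_ne_zero _⟩, P', φ'⟩ (by
      funext i
      have h4 := congrFun h i
      rw [hw, hw] at h4
      exact h4)
    rw [Sigma.mk.injEq] at h1
    obtain ⟨h2, h3⟩ := h1
    have h2 : e = e' := by
      have := congrArg Subtype.val h2
      exact Fin.ext (Nat.succ_injective this)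
    subst h2
    have h4 := eq_of_heq h3
    rw [Prod.mk.injEq] at h4
    obtain ⟨h5, h6⟩ := h4
    subst h5
    subst h6
    rfl
  obtain ⟨u, hu⟩ : ∃ u : J → (I →ₗ[ZMod p] Ω), ∀ x (y : I), u x y = x.2 (y.1 x.1) :=
    ⟨fun x => (x.2.toLinearMap.comp (LinearMap.proj x.1)).comp I.subtype, fun _ _ => rfl⟩
  have hli : LinearIndependent Ω u := by
    rw [Fintype.linearIndependent_iff]
    intro a ha x₀
    -- the relation
    have h1 : ∀ ν : Mon n D, ∑ x, a x * mev (w x) ν = 0 := by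
      intro ν
      have hmem : lin r D S (Pi.single ν 1) ∈ I := by
        rw [hI]
        exact ⟨_, rfl⟩
      have h2 := LinearMap.congr_fun ha ⟨_, hmem⟩
      rw [LinearMap.sum_apply, LinearMap.zero_apply] at h2
      rw [← h2]
      refine sum_congr rfl fun x _ => ?_
      rw [LinearMap.smul_apply, smul_eq_mul, hu]
      congr 1
      show _ = x.2 (vl (Pi.single ν 1) x.1.1)
      rw [vl_single]
      have h3 := map_mev (x.2 : BB x.1.1 →+* Ω) (rt x.1.1.2) ν
      have h4 : w x = fun i => (x.2 : BB x.1.1 →+* Ω) (rt x.1.1.2 i) := funext fun i => hw x i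
      rw [h4]
      exact h3.symm
    obtain ⟨c, hc1, hc2⟩ := exists_form (D := D) (w x₀) (hwn x₀) ((univ.erase x₀).image w)
      (fun t ht => by
        rw [mem_image] at ht
        obtain ⟨x, _, rfl⟩ := ht
        exact hwn x)
      (by
        refine card_image_le.trans ?_
        rw [card_erase_of_mem (mem_univ _), card_univ, hJ]
        omega)
      (by
        rw [mem_image]
        rintro ⟨x, hx, hxx⟩
        exact (ne_of_mem_erase hx) (hwi hxx))
    have h2 : ∑ ν, c ν * ∑ x, a x * mev (w x) ν = 0 := sum_eq_zero fun ν _ => by rw [h1 ν, mul_zero]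
    have h3 : ∑ ν, c ν * ∑ x, a x * mev (w x) ν = ∑ x, a x * ∑ ν, c ν * mev (w x) ν := by
      have e1 : ∀ ν : Mon n D, c ν * ∑ x, a x * mev (w x) ν = ∑ x, a x * (c ν * mev (w x) ν) := by
        intro ν
        rw [Finset.mul_sum]
        exact sum_congr rfl fun x _ => by ring
      rw [sum_congr rfl fun ν _ => e1 ν, sum_comm]
      exact sum_congr rfl fun x _ => by rw [Finset.mul_sum]
    rw [h3, sum_eq_single x₀ (fun x _ hx => by
      rw [hc2 (w x) (mem_image_of_mem w (mem_erase.2 ⟨hx, mem_univ _⟩)), mul_zero]) (fun h => absurd (mem_univ _) h)] at h2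
    exact (mul_eq_zero.1 h2).resolve_right hc1
  have hcard := hli.fintype_card_le_finrank
  rw [Module.finrank_linearMap_self, ← hdim] at hcard
  have htop : I = ⊤ := Submodule.eq_top_of_finrank_eq (le_antisymm (Submodule.finrank_le I) hcard)
  rw [hI] at htop
  exact LinearMap.range_eq_top.1 htop

/-- the values at closed points of small total degree are independent -/
theorem av_points (r D : ℕ) (S : Finset (Pt p n r)) (hS : ∑ P ∈ S, ((P.1 : ℕ) + 1) ≤ D + 1) (f : ∀ P : Pt p n r, BB P → ℝ) :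
    av (fun c : Mon n D → ZMod p => ∏ P ∈ S, f P (vl c P)) = ∏ P ∈ S, av (f P) := by
  classical
  have h1 : (fun c : Mon n D → ZMod p => ∏ P ∈ S, f P (vl c P)) =
      fun c => (fun z : ∀ P : S, BB P.1 => ∏ P : S, f P.1 (z P)) ((lin r D S).toAddMonoidHom c) := by
    funext c
    rw [← Finset.prod_coe_sort S fun P => f P (vl c P)]
    rfl
  rw [h1, av_hom (lin r D S).toAddMonoidHom (lin_surj r D S hS) (fun z : ∀ P : S, BB P.1 => ∏ P : S, f P.1 (z P)),
    av_pi (fun (P : S) z => f P.1 z), ← Finset.prod_coe_sort S fun P => av (f P)]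

lemma av_omega {r : ℕ} (S : Finset (Pt p n r)) (f : ∀ P : Pt p n r, BB P → ℝ) :
    av (fun ω : ∀ P : Pt p n r, BB P => ∏ P ∈ S, f P (ω P)) = ∏ P ∈ S, av (f P) := by
  classical
  have h1 : (fun ω : ∀ P : Pt p n r, BB P => ∏ P ∈ S, f P (ω P)) = fun ω => ∏ P, (fun (P : Pt p n r) (z : BB P) => if P ∈ S then f P z else 1) P (ω P) := by
    funext ω
    show _ = ∏ P, if P ∈ S then f P (ω P) else 1
    rw [prod_ite_mem, univ_inter]
  rw [h1, av_pi (fun (P : Pt p n r) (z : BB P) => if P ∈ S then f P z else (1 : ℝ)), ← prod_subset (subset_univ S)]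
  · refine prod_congr rfl fun P hP => congrArg av ?_
    funext z
    rw [if_pos hP]
  · intro P _ hP
    have : (fun z : BB P => if P ∈ S then f P z else (1 : ℝ)) = fun _ => 1 := by
      funext z
      rw [if_neg hP]
    rw [this, av_const]

/-- products of sums of functions of the values, total degree at most `D + 1` -/
theorem transfer {ι : Type} [Fintype ι] [DecidableEq ι] (r D : ℕ) (Q : ι → Finset (Pt p n r)) (d : ι → ℕ)
    (hd : ∀ i, ∀ P ∈ Q i, (P.1 : ℕ) + 1 ≤ d i) (hD : ∑ i, d i ≤ D + 1) (g : ι → ∀ P : Pt p n r, BB P → ℝ) :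
    av (fun c : Mon n D → ZMod p => ∏ i, ∑ P ∈ Q i, g i P (vl c P)) = av (fun ω : ∀ P : Pt p n r, BB P => ∏ i, ∑ P ∈ Q i, g i P (ω P)) := by
  classical
  simp only [prod_univ_sum]
  rw [av_sum, av_sum]
  refine sum_congr rfl fun b hb => ?_
  rw [Fintype.mem_piFinset] at hb
  obtain ⟨S, hS⟩ : ∃ S : Finset (Pt p n r), S = univ.image b := ⟨_, rfl⟩
  have hfib : ∀ v : ∀ P : Pt p n r, BB P, ∏ i, g i (b i) (v (b i)) = ∏ P ∈ S, (fun (P : Pt p n r) (z : BB P) => ∏ i ∈ univ.filter (fun i => b i = P), g i P z) P (v P) := by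
    intro v
    have h1 : ∀ i ∈ (univ : Finset ι), b i ∈ S := fun i _ => by
      rw [hS]
      exact mem_image_of_mem b (mem_univ i)
    rw [← prod_fiberwise_of_maps_to h1]
    refine prod_congr rfl fun P _ => prod_congr rfl fun i hi => ?_
    have h2 : b i = P := (mem_filter.1 hi).2
    subst h2
    rfl
  have hsum : ∑ P ∈ S, ((P.1 : ℕ) + 1) ≤ D + 1 := by
    refine le_trans ?_ hD
    have h1 : ∀ P ∈ S, ∃ i, b i = P := fun P hP => by
      rw [hS, mem_image] at hP
      obtain ⟨i, _, hi⟩ := hP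
      exact ⟨i, hi⟩
    calc ∑ P ∈ S, ((P.1 : ℕ) + 1) ≤ ∑ P ∈ S, ∑ i ∈ univ.filter (fun i => b i = P), d i := by
          refine sum_le_sum fun P hP => ?_
          obtain ⟨i, hi⟩ := h1 P hP
          refine le_trans ?_ (single_le_sum (f := d) (fun _ _ => Nat.zero_le _) (mem_filter.2 ⟨mem_univ i, hi⟩))
          rw [← hi]
          exact hd i (b i) (hb i)
      _ = ∑ i, d i := sum_fiberwise_of_maps_to (fun i _ => by rw [hS]; exact mem_image_of_mem b (mem_univ i)) d
  have e1 : (fun c : Mon n D → ZMod p => ∏ i, g i (b i) (vl c (b i))) =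
      fun c => ∏ P ∈ S, (fun (P : Pt p n r) (z : BB P) => ∏ i ∈ univ.filter (fun i => b i = P), g i P z) P (vl c P) := by
    funext c
    exact hfib fun P => vl c P
  have e2 : (fun ω : ∀ P : Pt p n r, BB P => ∏ i, g i (b i) (ω (b i))) =
      fun ω => ∏ P ∈ S, (fun (P : Pt p n r) (z : BB P) => ∏ i ∈ univ.filter (fun i => b i = P), g i P z) P (ω P) := by
    funext ω
    exact hfib ω
  rw [e1, e2, av_points r D S hsum (fun (P : Pt p n r) (z : BB P) => ∏ i ∈ univ.filter (fun i => b i = P), g i P z),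
    av_omega S (fun (P : Pt p n r) (z : BB P) => ∏ i ∈ univ.filter (fun i => b i = P), g i P z)]

/-- the same with constants -/
theorem transfer_const {ι : Type} [Fintype ι] [DecidableEq ι] (r D : ℕ) (Q : ι → Finset (Pt p n r)) (d : ι → ℕ)
    (hd : ∀ i, ∀ P ∈ Q i, (P.1 : ℕ) + 1 ≤ d i) (hD : ∑ i, d i ≤ D + 1) (g : ι → ∀ P : Pt p n r, BB P → ℝ) (κ : ι → ℝ) :
    av (fun c : Mon n D → ZMod p => ∏ i, (∑ P ∈ Q i, g i P (vl c P) + κ i)) =
      av (fun ω : ∀ P : Pt p n r, BB P => ∏ i, (∑ P ∈ Q i, g i P (ω P) + κ i)) := by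
  classical
  simp only [Finset.prod_add]
  rw [av_sum, av_sum]
  refine sum_congr rfl fun A _ => ?_
  have e1 : (fun c : Mon n D → ZMod p => (∏ i ∈ A, ∑ P ∈ Q i, g i P (vl c P)) * ∏ i ∈ univ \ A, κ i) =
      fun c => (∏ i ∈ univ \ A, κ i) * ∏ i : A, ∑ P ∈ Q i, g i P (vl c P) := by
    funext c
    rw [mul_comm, Finset.prod_coe_sort A fun i => ∑ P ∈ Q i, g i P (vl c P)]
  have e2 : (fun ω : ∀ P : Pt p n r, BB P => (∏ i ∈ A, ∑ P ∈ Q i, g i P (ω P)) * ∏ i ∈ univ \ A, κ i) =
      fun ω => (∏ i ∈ univ \ A, κ i) * ∏ i : A, ∑ P ∈ Q i, g i P (ω P) := by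
    funext ω
    rw [mul_comm, Finset.prod_coe_sort A fun i => ∑ P ∈ Q i, g i P (ω P)]
  rw [e1, e2, av_mul, av_mul]
  congr 1
  refine transfer r D (fun i : A => Q i) (fun i => d i) (fun i => hd i) ?_ fun i => g i
  refine le_trans ?_ hD
  rw [Finset.sum_coe_sort A d]
  exact sum_le_sum_of_subset (subset_univ A)

end

end H36PN
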