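import Pool.Agent.H35J.GS.Loop6

/-!
# Loop equations for the Haar measure of the orthogonal group
-/

set_option autoImplicit false
set_option linter.unusedSectionVars false

namespace H36PN.OO

open Matrix MeasureTheory Topology
open H35GS (ad)

/-- the real matrices -/
abbrev RM (N : ℕ) := Matrix (Fin N) (Fin N) ℝ

variable {N : ℕ}

/-- the orthogonal group -/
structure Og (U : RM N) : Prop where
  un : Uᵀ * U = 1

lemma Og.un' {U : RM N} (h : Og U) : U * Uᵀ = 1 := mul_eq_one_comm.1 h.un

lemma Og.entry {U : RM N} (h : Og U) (i j : Fin N) : |U i j| ≤ 1 := by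
  have h1 := congrFun (congrFun h.un j) j
  rw [Matrix.mul_apply, Matrix.one_apply_eq] at h1
  have h2 : U i j ^ 2 ≤ 1 := by
    rw [← h1]
    have h3 := Finset.single_le_sum (f := fun k => Uᵀ j k * U k j) (fun k _ => by
      rw [Matrix.transpose_apply]
      exact mul_self_nonneg _) (Finset.mem_univ i)
    refine le_trans (le_of_eq ?_) h3
    rw [Matrix.transpose_apply]
    ring
  exact (sq_le_one_iff_abs_le_one _).1 h2

lemma Og.mul {U V : RM N} (hU : Og U) (hV : Og V) : Og (U * V) where
  un := by
    rw [transpose_mul, Matrix.mul_assoc, ← Matrix.mul_assoc Uᵀ, hU.un, Matrix.one_mul, hV.un]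

lemma Og.pow {U : RM N} (h : Og U) (m : ℕ) : Og (U ^ m) := by
  induction m with
  | zero => exact ⟨by simp⟩
  | succ m ih => rw [pow_succ]; exact ih.mul h

lemma tr_star (U : RM N) (m : ℕ) : ((Uᵀ) ^ m).trace = (U ^ m).trace := by
  rw [← transpose_pow, trace_transpose]

lemma Og.star_mul_pow {U : RM N} (h : Og U) (b c : ℕ) : (Uᵀ) ^ b * U ^ (b + c) = U ^ c := by
  induction b with
  | zero => simp
  | succ b ih =>
    rw [pow_succ, show b + 1 + c = (b + c) + 1 by ring, pow_succ', Matrix.mul_assoc, ← Matrix.mul_assoc Uᵀ, h.un, Matrix.one_mul, ih]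

lemma Og.star_pow_mul {U : RM N} (h : Og U) (b c : ℕ) : (Uᵀ) ^ (b + c) * U ^ b = (Uᵀ) ^ c := by
  induction b with
  | zero => simp
  | succ b ih =>
    rw [show b + 1 + c = (b + c) + 1 by ring, pow_succ, pow_succ' U, Matrix.mul_assoc, ← Matrix.mul_assoc Uᵀ, h.un, Matrix.one_mul, ih]

lemma Og.tr_ad {U : RM N} (h : Og U) (a b : ℕ) : ((Uᵀ) ^ b * U ^ a).trace = (U ^ (ad a b)).trace := by
  unfold ad
  rcases le_total a b with hab | hab
  · obtain ⟨c, rfl⟩ := Nat.exists_eq_add_of_le hab
    rw [h.star_pow_mul, tr_star]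
    congr 2
    omega
  · obtain ⟨c, rfl⟩ := Nat.exists_eq_add_of_le hab
    rw [h.star_mul_pow]
    congr 2
    omega

/-- the generators -/
def XX (i j : Fin N) : RM N := Matrix.single i j 1 - Matrix.single j i 1

lemma XX_anti (i j : Fin N) : (XX i j)ᵀ = -XX i j := by
  unfold XX
  rw [transpose_sub, transpose_single, transpose_single]
  abel

lemma single_entry (A B : RM N) (a b i j : Fin N) : (A * Matrix.single a b (1 : ℝ) * B) i j = A i a * B b j := by
  rw [Matrix.mul_apply]
  rw [Finset.sum_eq_single b]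
  · rw [Matrix.mul_single_apply_same, mul_one]
  · intro c _ hc
    rw [Matrix.mul_single_apply_of_ne _ _ _ _ _ hc, zero_mul]
  · intro h
    exact absurd (Finset.mem_univ _) h

lemma trace_tr (A B : RM N) : (Aᵀ * B).trace = ∑ i, ∑ j, A i j * B i j := by
  unfold Matrix.trace
  simp only [Matrix.diag_apply, Matrix.mul_apply, Matrix.transpose_apply]
  rw [Finset.sum_comm]

/-- the first contraction -/
lemma contract_one (A B : RM N) : ∑ i, ∑ j, (A * XX i j * B : RM N) i j = A.trace * B.trace - (Aᵀ * B).trace := by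
  have h1 : ∀ i j : Fin N, (A * XX i j * B : RM N) i j = A i i * B j j - A i j * B i j := by
    intro i j
    unfold XX
    rw [Matrix.mul_sub, Matrix.sub_mul, Matrix.sub_apply, single_entry, single_entry]
  simp only [h1, Finset.sum_sub_distrib]
  rw [trace_tr]
  congr 1
  unfold Matrix.trace
  rw [Finset.sum_mul_sum]
  rfl

/-- the second contraction -/
lemma contract_two (A B : RM N) : ∑ i, ∑ j, A i j * (XX i j * B).trace = (A * B).trace - (Aᵀ * B).trace := by
  have h2 : ∀ (a b : Fin N) (C : RM N), (Matrix.single a b (1 : ℝ) * C).trace = C b a := by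
    intro a b C
    unfold Matrix.trace
    rw [Finset.sum_eq_single a]
    · rw [Matrix.diag_apply, Matrix.single_mul_apply_same, one_mul]
    · intro c _ hc
      rw [Matrix.diag_apply, Matrix.single_mul_apply_of_ne _ _ _ _ _ hc]
    · intro h
      exact absurd (Finset.mem_univ _) h
  have h1 : ∀ i j : Fin N, (XX i j * B).trace = B j i - B i j := by
    intro i j
    unfold XX
    rw [Matrix.sub_mul, trace_sub, h2, h2]
  simp only [h1, mul_sub, Finset.sum_sub_distrib]
  rw [trace_tr]
  congr 1

/-- minus the trace of the power -/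
def ps (m : ℕ) (U : RM N) : ℝ := -(U ^ m).trace

/-- the product of the traces of powers -/
noncomputable def TP (L : List ℕ) (U : RM N) : ℝ := (L.map fun m => ps m U).prod

lemma TP_nil (U : RM N) : TP [] U = 1 := by
  unfold TP
  simp

lemma TP_cons (m : ℕ) (L : List ℕ) (U : RM N) : TP (m :: L) U = ps m U * TP L U := by
  unfold TP
  simp

/-- its derivative in the direction `X U` -/
noncomputable def dP (X U : RM N) : List ℕ → ℝ
  | [] => 0
  | m :: L => -(m * (X * U ^ m).trace) * TP L U + ps m U * dP X U L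

/-- the derivative of the entries of the powers -/
noncomputable def dW (X U : RM N) (k : ℕ) : RM N := ∑ l ∈ Finset.range k, U ^ l * X * U ^ (k - l)

/-- the derivative -/
noncomputable def QQ (k : ℕ) (L : List ℕ) (i j : Fin N) (X U : RM N) : ℝ :=
  dW X U k i j * TP L U + (U ^ k) i j * dP X U L

/-- the contracted derivative of the product -/
noncomputable def TDD (k : ℕ) (U : RM N) : List ℕ → ℝ
  | [] => 0
  | m :: L => m * (ps (k + m) U - ps (ad m k) U) * TP L U + ps m U * TDD k U L

lemma sum_dW {U : RM N} (h : Og U) (k : ℕ) : ∑ i, ∑ j, dW (XX i j) U k i j = ∑ l ∈ Finset.range k, (ps l U * ps (k - l) U + ps (ad (k - l) l) U) := by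
  unfold dW
  simp only [Matrix.sum_apply]
  have h1 : ∑ i, ∑ j, ∑ l ∈ Finset.range k, (U ^ l * XX i j * U ^ (k - l) : RM N) i j = ∑ l ∈ Finset.range k, ∑ i, ∑ j, (U ^ l * XX i j * U ^ (k - l) : RM N) i j := by
    have h2 : ∀ i : Fin N, ∑ j, ∑ l ∈ Finset.range k, (U ^ l * XX i j * U ^ (k - l) : RM N) i j = ∑ l ∈ Finset.range k, ∑ j, (U ^ l * XX i j * U ^ (k - l) : RM N) i j :=
      fun i => Finset.sum_comm
    simp only [h2]
    exact Finset.sum_comm
  rw [h1]
  refine Finset.sum_congr rfl fun l _ => ?_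
  rw [contract_one, transpose_pow, h.tr_ad]
  unfold ps
  ring

lemma sum_dP {U : RM N} (h : Og U) (k : ℕ) (L : List ℕ) : ∑ i, ∑ j, (U ^ k) i j * dP (XX i j) U L = TDD k U L := by
  induction L with
  | nil => simp [dP, TDD]
  | cons m L ih =>
    unfold dP TDD
    rw [← ih]
    have h1 := contract_two (U ^ k) (U ^ m)
    rw [transpose_pow, h.tr_ad, ← pow_add] at h1
    have h2 : (m : ℝ) * (ps (k + m) U - ps (ad m k) U) * TP L U = -(m * ((U ^ (k + m)).trace - (U ^ (ad m k)).trace)) * TP L U := by
      unfold ps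
      ring
    rw [h2, ← h1, Finset.mul_sum, ← Finset.sum_neg_distrib, Finset.sum_mul, Finset.mul_sum, ← Finset.sum_add_distrib]
    refine Finset.sum_congr rfl fun i _ => ?_
    rw [Finset.mul_sum, ← Finset.sum_neg_distrib, Finset.sum_mul, Finset.mul_sum, ← Finset.sum_add_distrib]
    refine Finset.sum_congr rfl fun j _ => ?_
    ring

/-! ### integration -/

lemma dW_succ (X U : RM N) (k : ℕ) : dW X U (k + 1) = dW X U k * U + U ^ k * (X * U) := by
  unfold dW
  rw [Finset.sum_range_succ, Finset.sum_mul]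
  congr 1
  · refine Finset.sum_congr rfl fun l hl => ?_
    rw [Finset.mem_range] at hl
    rw [show k + 1 - l = (k - l) + 1 by omega, pow_succ U (k - l)]
    simp only [Matrix.mul_assoc]
  · rw [show k + 1 - k = 1 by omega, pow_one, Matrix.mul_assoc]

lemma trace_dW (X U : RM N) (k : ℕ) : (dW X U k).trace = k * (X * U ^ k).trace := by
  unfold dW
  rw [trace_sum, Finset.sum_congr rfl (g := fun _ => (X * U ^ k).trace), Finset.sum_const, Finset.card_range, nsmul_eq_mul]
  intro l hl
  rw [Finset.mem_range] at hl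
  rw [Matrix.mul_assoc, trace_mul_comm, Matrix.mul_assoc, ← pow_add, show k - l + l = k by omega]

section curve

variable (X : RM N) (V : ℝ → RM N) (hV : ∀ s i j, HasDerivAt (fun s => V s i j) ((X * V s) i j) s)

include hV

lemma deriv_pow (k : ℕ) (s : ℝ) (i j : Fin N) : HasDerivAt (fun s => (V s ^ k) i j) (dW X (V s) k i j) s := by
  induction k generalizing i j with
  | zero =>
    have h1 : dW X (V s) 0 i j = 0 := by simp [dW]
    rw [h1]
    simp only [pow_zero]
    exact hasDerivAt_const _ _
  | succ k ih =>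
    have h1 : (fun s => (V s ^ (k + 1)) i j) = fun s => ∑ a, (V s ^ k) i a * V s a j := by
      funext s
      rw [pow_succ, Matrix.mul_apply]
    have h2 : dW X (V s) (k + 1) i j = ∑ a, (dW X (V s) k i a * V s a j + (V s ^ k) i a * (X * V s) a j) := by
      rw [dW_succ, Matrix.add_apply, Matrix.mul_apply, Matrix.mul_apply, Finset.sum_add_distrib]
    rw [h1, h2]
    exact HasDerivAt.fun_sum fun a _ => (ih i a).mul (hV s a j)

lemma deriv_ps (m : ℕ) (s : ℝ) : HasDerivAt (fun s => ps m (V s)) (-(m * (X * V s ^ m).trace)) s := by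
  rw [← trace_dW]
  exact (HasDerivAt.fun_sum fun a _ => deriv_pow X V hV m s a a).neg

lemma deriv_TP (L : List ℕ) (s : ℝ) : HasDerivAt (fun s => TP L (V s)) (dP X (V s) L) s := by
  induction L with
  | nil =>
    simp only [TP_nil]
    exact hasDerivAt_const _ _
  | cons m L ih =>
    simp only [TP_cons]
    exact (deriv_ps X V hV m s).mul ih

lemma deriv_QQ (k : ℕ) (L : List ℕ) (i j : Fin N) (s : ℝ) :
    HasDerivAt (fun s => (V s ^ k) i j * TP L (V s)) (QQ k L i j X (V s)) s :=
  (deriv_pow X V hV k s i j).mul (deriv_TP X V hV L s)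

end curve

lemma exp_curve (X U : RM N) (s : ℝ) (i j : Fin N) :
    HasDerivAt (fun s : ℝ => (NormedSpace.exp (s • X) * U) i j) ((X * (NormedSpace.exp (s • X) * U)) i j) s := by
  let _ : NormedRing (RM N) := Matrix.linftyOpNormedRing
  let _ : NormedAlgebra ℝ (RM N) := Matrix.linftyOpNormedAlgebra
  have h := hasDerivAt_exp_smul_const' (𝕂 := ℝ) X s
  obtain ⟨φ, hφ⟩ : ∃ φ : RM N →ₗ[ℝ] ℝ, ∀ M, φ M = (M * U) i j := ⟨{
    toFun := fun M => (M * U) i j
    map_add' := fun M N => by rw [Matrix.add_mul, Matrix.add_apply]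
    map_smul' := fun c M => by rw [Matrix.smul_mul, Matrix.smul_apply]; rfl }, fun M => rfl⟩
  have h2 := (LinearMap.toContinuousLinearMap φ).hasFDerivAt.comp_hasDerivAt s h
  have e2 : (LinearMap.toContinuousLinearMap φ) (X * NormedSpace.exp (s • X)) = (X * (NormedSpace.exp (s • X) * U)) i j := by
    rw [← Matrix.mul_assoc]
    exact hφ _
  exact (h2.congr_deriv e2).congr_of_eventuallyEq (Filter.Eventually.of_forall fun u => (hφ _).symm)

/-- the one-parameter groups -/
lemma exp_Og (X : RM N) (hX : Xᵀ = -X) (s : ℝ) : Og (NormedSpace.exp (s • X)) := by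
  obtain ⟨A, hA⟩ : ∃ A : RM N, A = s • X := ⟨_, rfl⟩
  have hA1 : Aᵀ = -A := by
    rw [hA, transpose_smul, hX, smul_neg]
  rw [← hA]
  have hinv : NormedSpace.exp (-A) * NormedSpace.exp A = 1 := by
    rw [← Matrix.exp_add_of_commute _ _ (Commute.neg_left (Commute.refl A)), neg_add_cancel, NormedSpace.exp_zero]
  refine ⟨?_⟩
  rw [← Matrix.exp_transpose, hA1]
  exact hinv

lemma cont_ps (m : ℕ) : Continuous fun U : RM N => ps m U := by
  unfold ps
  have : Continuous fun U : RM N => (U ^ m).trace := by fun_prop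
  exact this.neg

lemma cont_TP (L : List ℕ) : Continuous fun U : RM N => TP L U := by
  induction L with
  | nil =>
    simp only [TP_nil]
    exact continuous_const
  | cons m L ih =>
    simp only [TP_cons]
    exact (cont_ps m).mul ih

lemma cont_dP (X : RM N) (L : List ℕ) : Continuous fun U : RM N => dP X U L := by
  induction L with
  | nil =>
    simp only [dP]
    exact continuous_const
  | cons m L ih =>
    simp only [dP]
    have h1 := cont_TP (N := N) L
    have h2 := cont_ps (N := N) m
    have h3 : Continuous fun U : RM N => (X * U ^ m).trace := by fun_prop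
    exact ((continuous_const.mul h3).neg.mul h1).add (h2.mul ih)

lemma cont_QQ (k : ℕ) (L : List ℕ) (i j : Fin N) (X : RM N) : Continuous fun U : RM N => QQ k L i j X U := by
  unfold QQ dW
  have h1 := cont_TP (N := N) L
  have h2 := cont_dP (N := N) X L
  have h3 : Continuous fun U : RM N => (∑ l ∈ Finset.range k, U ^ l * X * U ^ (k - l)) i j := by
    have : Continuous fun U : RM N => (∑ l ∈ Finset.range k, U ^ l * X * U ^ (k - l)) := by fun_prop
    exact this.matrix_elem i j
  have h4 : Continuous fun U : RM N => (U ^ k) i j := by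
    have : Continuous fun U : RM N => U ^ k := by fun_prop
    exact this.matrix_elem i j
  exact (h3.mul h1).add (h4.mul h2)

lemma bdd_Og (F : RM N → ℝ) (hF : Continuous F) : ∃ B : ℝ, ∀ U, Og U → ‖F U‖ ≤ B := by
  have hK : IsCompact (Set.pi Set.univ fun _ : Fin N => Set.pi Set.univ fun _ : Fin N => Metric.closedBall (0 : ℝ) 1) :=
    isCompact_univ_pi fun _ => isCompact_univ_pi fun _ => isCompact_closedBall 0 1
  obtain ⟨B, hB⟩ := hK.exists_bound_of_continuousOn (f := F) hF.continuousOn
  exact ⟨B, fun U hU => hB U (Set.mem_univ_pi.2 fun i => Set.mem_univ_pi.2 fun j => mem_closedBall_zero_iff.2 (by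
    rw [Real.norm_eq_abs]
    exact hU.entry i j))⟩

noncomputable instance instMeasRM : MeasurableSpace (RM N) := borel _

instance instBorelRM : BorelSpace (RM N) := ⟨rfl⟩

/-- the Haar probability measure of the orthogonal group -/
structure Haar (ν : Measure (RM N)) : Prop where
  prob : IsProbabilityMeasure ν
  supp : ∀ᵐ U ∂ν, Og U
  inv : ∀ V, Og V → ν.map (fun U => V * U) = ν

variable {ν : Measure (RM N)}

lemma Haar.integrable (hν : Haar ν) (F : RM N → ℝ) (hF : Continuous F) : Integrable F ν := by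
  have := hν.prob
  obtain ⟨B, hB⟩ := bdd_Og F hF
  refine Integrable.of_bound hF.aestronglyMeasurable B ?_
  filter_upwards [hν.supp] with U hU
  exact hB U hU

lemma Haar.integral_mul (hν : Haar ν) (F : RM N → ℝ) (hF : Continuous F) (V : RM N) (hV : Og V) : ∫ U, F (V * U) ∂ν = ∫ U, F U ∂ν := by
  have h1 : Measurable fun U : RM N => V * U := (Continuous.matrix_mul continuous_const continuous_id).measurable
  conv_rhs => rw [← hν.inv V hV]
  rw [integral_map h1.aemeasurable (hF.aestronglyMeasurable)]

/-- **integration by parts** -/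
theorem int_QQ (hν : Haar ν) (k : ℕ) (L : List ℕ) (i j : Fin N) (X : RM N) (hX : Xᵀ = -X) : ∫ U, QQ k L i j X U ∂ν = 0 := by
  have := hν.prob
  obtain ⟨F, hF⟩ : ∃ F : RM N → ℝ, F = fun U => (U ^ k) i j * TP L U := ⟨_, rfl⟩
  have hFc : Continuous F := by
    rw [hF]
    have h4 : Continuous fun U : RM N => (U ^ k) i j := by
      have : Continuous fun U : RM N => U ^ k := by fun_prop
      exact this.matrix_elem i j
    exact h4.mul (cont_TP L)
  have hmul : ∀ s : ℝ, Continuous fun U : RM N => NormedSpace.exp (s • X) * U := fun s => Continuous.matrix_mul continuous_const continuous_id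
  obtain ⟨B, hB⟩ := bdd_Og (fun U => QQ k L i j X U) (cont_QQ k L i j X)
  have h1 := hasDerivAt_integral_of_dominated_loc_of_deriv_le (μ := ν) (𝕜 := ℝ) (F := fun s U => F (NormedSpace.exp (s • X) * U))
    (F' := fun s U => QQ k L i j X (NormedSpace.exp (s • X) * U)) (x₀ := 0) (s := Set.univ) (bound := fun _ => B) Filter.univ_mem
    (Filter.Eventually.of_forall fun s => (hFc.comp (hmul s)).aestronglyMeasurable)
    (hν.integrable _ (hFc.comp (hmul 0)))
    ((cont_QQ k L i j X).comp (hmul 0)).aestronglyMeasurable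
    (by
      filter_upwards [hν.supp] with U hU s _
      exact hB _ ((exp_Og X hX s).mul hU))
    (integrable_const _)
    (by
      filter_upwards with U s _
      rw [hF]
      exact deriv_QQ X (fun s => NormedSpace.exp (s • X) * U) (fun s i j => exp_curve X U s i j) k L i j s)
  have h2 : (fun s : ℝ => ∫ U, F (NormedSpace.exp (s • X) * U) ∂ν) = fun _ => ∫ U, F U ∂ν := by
    funext s
    exact hν.integral_mul F hFc _ (exp_Og X hX s)
  have h3 := h1.2
  rw [h2] at h3
  have h4 := h3.unique (hasDerivAt_const _ _)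
  simp only [zero_smul, NormedSpace.exp_zero, Matrix.one_mul] at h4
  exact h4

/-- **the loop equations** -/
theorem loop (hν : Haar ν) (k : ℕ) (L : List ℕ) :
    ∫ U, ((∑ l ∈ Finset.range k, (ps l U * ps (k - l) U + ps (ad (k - l) l) U)) * TP L U + TDD k U L) ∂ν = 0 := by
  have h1 : ∫ U, ∑ i, ∑ j, QQ k L i j (XX i j) U ∂ν = 0 := by
    rw [integral_finsetSum _ fun i _ => integrable_finsetSum _ fun j _ => hν.integrable _ (cont_QQ k L i j (XX i j))]
    refine Finset.sum_eq_zero fun i _ => ?_
    rw [integral_finsetSum _ fun j _ => hν.integrable _ (cont_QQ k L i j (XX i j))]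
    exact Finset.sum_eq_zero fun j _ => int_QQ hν k L i j (XX i j) (XX_anti i j)
  rw [← h1]
  refine integral_congr_ae ?_
  filter_upwards [hν.supp] with U hU
  rw [← sum_dW hU k, ← sum_dP hU k L]
  unfold QQ
  simp only [Finset.sum_add_distrib, Finset.sum_mul]

end H36PN.OO
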