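import Pool.Agent.H35J.GS.Loop7
import Pool.Agent.Helper36x.PN.OLoop

/-!
# The joint moments of the traces of powers of a random orthogonal matrix: exact values for small weight
-/

set_option autoImplicit false
set_option linter.unusedSectionVars false

namespace H36PN.OO

open Matrix MeasureTheory Topology Finset
open Q282MM (gm)
open H35GS (ad ad_self ad_pos ad_le Pos Ga EG mmt Lst mem_Lst count_Lst sum_Lst mmt_zero loop_Ga gm_zero)

variable {N : ℕ}

lemma TP_append (M L : List ℕ) (U : RM N) : TP (M ++ L) U = TP M U * TP L U := by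
  unfold TP
  rw [List.map_append, List.prod_append]

lemma ps_zero (U : RM N) : ps 0 U = -(N : ℝ) := by
  unfold ps
  rw [pow_zero, trace_one, Fintype.card_fin]

/-- the joint moments of the traces -/
noncomputable def eo (ν : Measure (RM N)) (L : List ℕ) : ℂ := ((∫ U, TP L U ∂ν : ℝ) : ℂ)

/-- the contracted terms -/
noncomputable def ED (ν : Measure (RM N)) (k : ℕ) (M L : List ℕ) : ℂ := ((∫ U, TP M U * TDD k U L ∂ν : ℝ) : ℂ)

variable {ν : Measure (RM N)}

lemma eo_zero (M L : List ℕ) : eo ν (M ++ 0 :: L) = -(N : ℂ) * eo ν (M ++ L) := by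
  unfold eo
  rw [show -(N : ℂ) = ((-(N : ℝ) : ℝ) : ℂ) by push_cast; ring, ← Complex.ofReal_mul, ← integral_const_mul]
  congr 2
  funext U
  rw [TP_append, TP_cons, ps_zero, TP_append]
  ring

lemma cont_TDD (k : ℕ) (L : List ℕ) : Continuous fun U : RM N => TDD k U L := by
  induction L with
  | nil =>
    simp only [TDD]
    exact continuous_const
  | cons m L ih =>
    simp only [TDD]
    exact ((continuous_const.mul ((cont_ps (k + m)).sub (cont_ps (ad m k)))).mul (cont_TP L)).add ((cont_ps m).mul ih)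

lemma ED_nil (k : ℕ) (M : List ℕ) : ED ν k M [] = 0 := by
  unfold ED
  simp [TDD]

lemma ED_cons (hν : Haar ν) (k : ℕ) (M : List ℕ) (m : ℕ) (L : List ℕ) :
    ED ν k M (m :: L) = m * (eo ν (M ++ (k + m) :: L) - eo ν (M ++ ad m k :: L)) + ED ν k (M ++ [m]) L := by
  have h : ∫ U, TP M U * TDD k U (m :: L) ∂ν =
      m * (∫ U, TP (M ++ (k + m) :: L) U ∂ν - ∫ U, TP (M ++ ad m k :: L) U ∂ν) + ∫ U, TP (M ++ [m]) U * TDD k U L ∂ν := by
    rw [← integral_sub (hν.integrable _ (cont_TP _)) (hν.integrable _ (cont_TP _)), ← integral_const_mul,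
      ← integral_add (hν.integrable (fun U => (m : ℝ) * (TP (M ++ (k + m) :: L) U - TP (M ++ ad m k :: L) U)) (continuous_const.mul ((cont_TP _).sub (cont_TP _))))
        (hν.integrable (fun U => TP (M ++ [m]) U * TDD k U L) ((cont_TP _).mul (cont_TDD k L)))]
    congr 1
    funext U
    simp only [TDD]
    rw [TP_append, TP_append, TP_append, TP_cons, TP_cons, TP_cons, TP_nil]
    ring
  unfold ED eo
  rw [h]
  push_cast
  ring

/-- the loop equations for the moments -/
lemma loop_eo (hν : Haar ν) (k : ℕ) (L : List ℕ) :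
    ∑ l ∈ Finset.range k, (eo ν (l :: (k - l) :: L) + eo ν (ad (k - l) l :: L)) + ED ν k [] L = 0 := by
  have h0 : ∑ l ∈ Finset.range k, (∫ U, TP (l :: (k - l) :: L) U ∂ν + ∫ U, TP (ad (k - l) l :: L) U ∂ν) + ∫ U, TP [] U * TDD k U L ∂ν = 0 := by
    rw [← loop hν k L]
    have h1 : ∀ l ∈ Finset.range k, ∫ U, TP (l :: (k - l) :: L) U ∂ν + ∫ U, TP (ad (k - l) l :: L) U ∂ν =
        ∫ U, (ps l U * ps (k - l) U + ps (ad (k - l) l) U) * TP L U ∂ν := by
      intro l _
      rw [← integral_add (hν.integrable _ (cont_TP _)) (hν.integrable _ (cont_TP _))]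
      congr 1
      funext U
      rw [TP_cons, TP_cons, TP_cons]
      ring
    rw [Finset.sum_congr rfl h1, ← integral_finsetSum, ← integral_add]
    · congr 1
      funext U
      rw [TP_nil, one_mul, Finset.sum_mul]
    · exact hν.integrable (fun U => ∑ l ∈ Finset.range k, (ps l U * ps (k - l) U + ps (ad (k - l) l) U) * TP L U)
        (continuous_finsetSum _ fun l _ => (((cont_ps l).mul (cont_ps (k - l))).add (cont_ps _)).mul (cont_TP L))
    · exact hν.integrable (fun U => TP [] U * TDD k U L) ((cont_TP []).mul (cont_TDD k L))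
    · intro l _
      exact hν.integrable (fun U => (ps l U * ps (k - l) U + ps (ad (k - l) l) U) * TP L U)
        ((((cont_ps l).mul (cont_ps (k - l))).add (cont_ps _)).mul (cont_TP L))
  unfold eo ED
  have h1 := congrArg (fun x : ℝ => (x : ℂ)) h0
  push_cast at h1 ⊢
  exact h1

/-- the loop equation, solved for the leading term -/
lemma loop_lead (hν : Haar ν) (k : ℕ) (hk : 1 ≤ k) (L : List ℕ) :
    (-(N : ℂ) + 1) * eo ν (k :: L) = -∑ l ∈ Finset.Ico 1 k, eo ν (l :: (k - l) :: L) - ∑ l ∈ Finset.Ico 1 k, eo ν (ad (k - l) l :: L) - ED ν k [] L := by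
  have h1 := loop_eo hν k L
  rw [Finset.range_eq_Ico, Finset.sum_eq_sum_Ico_succ_bot (by omega : 0 < k), Finset.sum_add_distrib] at h1
  have h2 : eo ν (0 :: (k - 0) :: L) = -(N : ℂ) * eo ν (k :: L) := eo_zero [] (k :: L)
  have h3 : eo ν (ad (k - 0) 0 :: L) = eo ν (k :: L) := by
    congr 2
    unfold ad
    omega
  rw [h2, h3, zero_add] at h1
  linear_combination h1

lemma diff_ED (hν : Haar ν) {r w : ℕ} {X : ℝ} (hlow : ∀ L : List ℕ, Pos L → L.sum < w → eo ν L = Ga r L)
    (hX : ∀ L : List ℕ, Pos L → L.sum = w → ‖eo ν L - Ga r L‖ ≤ X) (k : ℕ) (hk : 1 ≤ k) (L : List ℕ) :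
    ∀ M : List ℕ, Pos M → Pos L → M.sum + k + L.sum = w → ‖ED ν k M L - EG r (-(N : ℂ)) k M L‖ ≤ L.sum * X := by
  induction L with
  | nil =>
    intro M _ _ _
    rw [ED_nil]
    simp [EG]
  | cons m L ih =>
    intro M hM hL hw
    rw [H35GS.Pos.cons] at hL
    rw [List.sum_cons] at hw
    rw [ED_cons hν, List.sum_cons]
    simp only [EG]
    have h1 := ih (M ++ [m]) (H35GS.Pos.append.2 ⟨hM, by unfold Pos; simpa using hL.1⟩) hL.2 (by rw [List.sum_append, List.sum_singleton]; omega)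
    have h2 := hX (M ++ (k + m) :: L) (H35GS.Pos.append.2 ⟨hM, H35GS.Pos.cons.2 ⟨by omega, hL.2⟩⟩) (by rw [List.sum_append, List.sum_cons]; omega)
    have h3 : eo ν (M ++ ad m k :: L) = if m = k then -(N : ℂ) * Ga r (M ++ L) else Ga r (M ++ ad m k :: L) := by
      split_ifs with h
      · rw [h, ad_self, eo_zero, hlow _ (H35GS.Pos.append.2 ⟨hM, hL.2⟩) (by rw [List.sum_append]; omega)]
      · refine hlow _ (H35GS.Pos.append.2 ⟨hM, H35GS.Pos.cons.2 ⟨ad_pos h, hL.2⟩⟩) ?_
        rw [List.sum_append, List.sum_cons]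
        have := ad_le hL.1 hk
        omega
    rw [h3]
    have e : (m : ℂ) * (eo ν (M ++ (k + m) :: L) - (if m = k then -(N : ℂ) * Ga r (M ++ L) else Ga r (M ++ ad m k :: L))) + ED ν k (M ++ [m]) L -
        ((m : ℂ) * (Ga r (M ++ (k + m) :: L) - (if m = k then -(N : ℂ) * Ga r (M ++ L) else Ga r (M ++ ad m k :: L))) + EG r (-(N : ℂ)) k (M ++ [m]) L) =
        (m : ℂ) * (eo ν (M ++ (k + m) :: L) - Ga r (M ++ (k + m) :: L)) + (ED ν k (M ++ [m]) L - EG r (-(N : ℂ)) k (M ++ [m]) L) := by ring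
    rw [e]
    refine (norm_add_le _ _).trans ?_
    rw [norm_mul, Complex.norm_natCast]
    refine (add_le_add (mul_le_mul_of_nonneg_left h2 (Nat.cast_nonneg _)) h1).trans (le_of_eq ?_)
    push_cast
    ring

/-- **the moments of weight less than `N`** -/
theorem eo_exact (hν : Haar ν) (r w : ℕ) (hw : w + 1 ≤ N) (hwr : w ≤ r) : ∀ L : List ℕ, Pos L → L.sum = w → eo ν L = Ga r L := by
  induction w using Nat.strong_induction_on with
  | _ w ih =>
    have hlow : ∀ L : List ℕ, Pos L → L.sum < w → eo ν L = Ga r L := fun L hL h => ih L.sum h (by omega) (by omega) L hL rfl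
    -- the extremal list
    obtain ⟨c₀, _, hc₀⟩ := exists_max_image (univ : Finset (Composition w)) (fun c => ‖eo ν c.blocks - Ga r c.blocks‖) univ_nonempty
    obtain ⟨X, hXd⟩ : ∃ X : ℝ, X = ‖eo ν c₀.blocks - Ga r c₀.blocks‖ := ⟨_, rfl⟩
    have hX0 : 0 ≤ X := by
      rw [hXd]
      exact norm_nonneg _
    have hX : ∀ L : List ℕ, Pos L → L.sum = w → ‖eo ν L - Ga r L‖ ≤ X := by
      intro L hL hs
      rw [hXd]
      exact hc₀ ⟨L, fun {i} hi => hL i hi, hs⟩ (mem_univ _)
    suffices hz : X = 0 by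
      intro L hL hs
      have h1 := hX L hL hs
      rw [hz] at h1
      exact sub_eq_zero.1 (norm_le_zero_iff.1 h1)
    have hpos : Pos c₀.blocks := fun m hm => c₀.blocks_pos hm
    have hsum := c₀.blocks_sum
    rcases hc : c₀.blocks with _ | ⟨k, L⟩
    · have := hν.prob
      rw [hc] at hXd
      have h1 : eo ν [] = 1 := by
        unfold eo
        simp [TP_nil]
      have h2 : Ga r [] = 1 := by
        unfold Ga mmt
        simp [gm_zero]
      rw [hXd, h1, h2]
      simp
    rw [hc] at hpos hsum hXd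
    rw [H35GS.Pos.cons] at hpos
    rw [List.sum_cons] at hsum
    obtain ⟨hk, hL⟩ := hpos
    have h1 := loop_lead hν k hk L
    have h2 := loop_Ga (r := r) (L := L) hk (by omega) (-(N : ℂ))
    have h3 : ∑ l ∈ Ico 1 k, eo ν (ad (k - l) l :: L) = ∑ l ∈ Ico 1 k, (if ad (k - l) l = 0 then -(N : ℂ) * Ga r L else Ga r (ad (k - l) l :: L)) := by
      refine sum_congr rfl fun l hl => ?_
      rw [mem_Ico] at hl
      split_ifs with h
      · rw [h]
        have h4 : eo ν (0 :: L) = -(N : ℂ) * eo ν L := eo_zero [] L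
        rw [h4, hlow L hL (by omega)]
      · refine hlow _ (H35GS.Pos.cons.2 ⟨Nat.pos_of_ne_zero h, hL⟩) ?_
        rw [List.sum_cons]
        have := ad_le (a := k - l) (b := l) (by omega) hl.1
        omega
    have h4 := diff_ED hν hlow hX k hk L [] (by unfold Pos; simp) hL (by rw [List.sum_nil]; omega)
    have h5 : ‖∑ l ∈ Ico 1 k, (eo ν (l :: (k - l) :: L) - Ga r (l :: (k - l) :: L))‖ ≤ ((k - 1 : ℕ) : ℝ) * X := by
      refine (norm_sum_le _ _).trans ?_
      calc ∑ l ∈ Ico 1 k, ‖eo ν (l :: (k - l) :: L) - Ga r (l :: (k - l) :: L)‖ ≤ ∑ l ∈ Ico 1 k, X := by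
            refine sum_le_sum fun l hl => ?_
            rw [mem_Ico] at hl
            refine hX _ (H35GS.Pos.cons.2 ⟨hl.1, H35GS.Pos.cons.2 ⟨by omega, hL⟩⟩) ?_
            rw [List.sum_cons, List.sum_cons]
            omega
        _ = ((k - 1 : ℕ) : ℝ) * X := by rw [sum_const, Nat.card_Ico, nsmul_eq_mul]
    have e : (-(N : ℂ) + 1) * (eo ν (k :: L) - Ga r (k :: L)) =
        -∑ l ∈ Ico 1 k, (eo ν (l :: (k - l) :: L) - Ga r (l :: (k - l) :: L)) - (ED ν k [] L - EG r (-(N : ℂ)) k [] L) := by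
      rw [sum_sub_distrib]
      rw [h3] at h1
      linear_combination h1 - h2
    have h6 : ‖(-(N : ℂ) + 1)‖ = (N : ℝ) - 1 := by
      have : (-(N : ℂ) + 1) = -((N - 1 : ℕ) : ℂ) := by
        rw [Nat.cast_sub (by omega)]
        push_cast
        ring
      rw [this, norm_neg, Complex.norm_natCast, Nat.cast_sub (by omega)]
      push_cast
      ring
    have h7 : ((N : ℝ) - 1) * X ≤ ((k - 1 : ℕ) : ℝ) * X + L.sum * X := by
      rw [hXd, ← h6, ← norm_mul, e, ← hXd]
      refine (norm_sub_le _ _).trans (add_le_add ?_ h4)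
      rw [norm_neg]
      exact h5
    have h8 : (((k - 1 : ℕ) : ℝ)) + L.sum = ((w - 1 : ℕ) : ℝ) := by
      rw [← Nat.cast_add]
      congr 1
      omega
    have h9 : ((w - 1 : ℕ) : ℝ) + 2 ≤ (N : ℝ) := by
      have : w - 1 + 2 ≤ N := by omega
      exact_mod_cast this
    have h10 : ((k - 1 : ℕ) : ℝ) * X + L.sum * X = ((w - 1 : ℕ) : ℝ) * X := by
      rw [← add_mul, h8]
    rw [h10] at h7
    refine le_antisymm ?_ hX0
    have h11 : ((w - 1 : ℕ) : ℝ) * X + 2 * X ≤ (N : ℝ) * X := by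
      rw [← add_mul]
      exact mul_le_mul_of_nonneg_right h9 hX0
    linarith

lemma TP_Lst (k : ℕ → ℕ) (r : ℕ) (U : RM N) : TP (Lst k r) U = ∏ j ∈ Finset.range r, ps (j + 1) U ^ k j := by
  induction r with
  | zero => simp [Lst, TP_nil]
  | succ r ih =>
    rw [Finset.prod_range_succ, ← ih]
    show TP (List.replicate (k r) (r + 1) ++ Lst k r) U = _
    rw [TP_append, mul_comm]
    congr 1
    unfold TP
    rw [List.map_replicate, List.prod_replicate]

/-- **the joint moments of weight less than `N` of minus the traces for the Haar measure** -/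
theorem haar_exact (hν : Haar ν) (r : ℕ) (k : ℕ → ℕ) (hk : ∑ j ∈ range r, (j + 1) * k j + 1 ≤ N) :
    ∫ U : RM N, ∏ j ∈ range r, ps (j + 1) U ^ k j ∂ν = ∏ j ∈ range r, mmt j (k j) := by
  obtain ⟨w, hw⟩ : ∃ w, w = ∑ j ∈ range r, (j + 1) * k j := ⟨_, rfl⟩
  have h1 := eo_exact hν (r + w) w (by omega) (by omega) (Lst k r) (fun m hm => (mem_Lst k r m hm).1) (by rw [sum_Lst, hw])
  have h2 : eo ν (Lst k r) = ((∫ U : RM N, ∏ j ∈ range r, ps (j + 1) U ^ k j ∂ν : ℝ) : ℂ) := by
    unfold eo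
    congr 2
    funext U
    exact TP_Lst k r U
  have h3 : Ga (r + w) (Lst k r) = ((∏ j ∈ range r, mmt j (k j) : ℝ) : ℂ) := by
    unfold Ga
    congr 1
    rw [← prod_subset (s₁ := range r) (s₂ := range (r + w)) (fun j hj => mem_range.2 (by
      have := mem_range.1 hj
      omega))]
    · exact prod_congr rfl fun j hj => by rw [count_Lst k r j (mem_range.1 hj)]
    · intro j _ hj
      rw [mem_range] at hj
      rw [List.count_eq_zero_of_not_mem, mmt_zero]
      intro h
      have := mem_Lst k r _ h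
      omega
  rw [h2, h3] at h1
  exact_mod_cast h1

/-- the same, for finite families -/
theorem haar_exact' (hν : Haar ν) {r : ℕ} (k : Fin r → ℕ) (hk : ∑ j : Fin r, ((j : ℕ) + 1) * k j + 1 ≤ N) :
    ∫ U : RM N, ∏ j : Fin r, ps ((j : ℕ) + 1) U ^ k j ∂ν = ∏ j : Fin r, mmt j (k j) := by
  obtain ⟨kx, hkx⟩ : ∃ kx : ℕ → ℕ, kx = fun j => if h : j < r then k ⟨j, h⟩ else 0 := ⟨_, rfl⟩
  have h0 : ∀ j : Fin r, kx j = k j := by
    intro j
    rw [hkx]
    simp
  have h2 : ∀ f : ℕ → ℕ → ℝ, ∏ j ∈ range r, f j (kx j) = ∏ j : Fin r, f j (k j) := by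
    intro f
    rw [← Fin.prod_univ_eq_prod_range (fun j => f j (kx j))]
    exact prod_congr rfl fun j _ => by rw [h0]
  have h1 := haar_exact hν r kx (by
    rw [← Fin.sum_univ_eq_sum_range (fun j => (j + 1) * kx j)]
    refine le_trans (le_of_eq ?_) hk
    congr 1
    refine sum_congr rfl fun j _ => ?_
    rw [h0])
  rw [h2 fun j e => mmt j e] at h1
  have h3 : ∀ U : RM N, ∏ j ∈ range r, ps (j + 1) U ^ kx j = ∏ j : Fin r, ps ((j : ℕ) + 1) U ^ k j := by
    intro U
    exact h2 fun j e => ps (j + 1) U ^ e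
  simp only [h3] at h1
  exact h1

end H36PN.OO
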