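import Pool.Agent.H35J.GS.Main
import Pool.Agent.Helper36x.PN.OExact

/-!
# The joint distribution functions of the coefficients, with the opposite sign of the traces
-/

set_option autoImplicit false
set_option linter.unusedSectionVars false

namespace H36PN.OO

open Matrix MeasureTheory ProbabilityTheory Filter Topology Finset
open scoped NNReal ENNReal
open H35GS (coef coef_zero coef_succ coef_congr exs exs_succ AA AA_cont AA_update gj gj_le gam Ort ort_meas ort_thick AllInt mmt weak pm eta)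

/-- the coefficients as functions of minus the power sums -/
noncomputable def AN {r : ℕ} (x : Fin r → ℝ) : Fin r → ℝ := AA fun j => -x j

lemma AN_cont {r : ℕ} : Continuous (AN : (Fin r → ℝ) → (Fin r → ℝ)) := AA_cont.comp (by fun_prop)

lemma AN_update {r : ℕ} (x x' : Fin r → ℝ) (i : Fin r) (h : ∀ j, j ≠ i → x j = x' j) : AN x i - x i / (i + 1) = AN x' i - x' i / (i + 1) := by
  have h1 := AA_update (fun j => -x j) (fun j => -x' j) i fun j hj => by rw [h j hj]
  unfold AN
  have h2 : -x i / ((i : ℝ) + 1) = -(x i / (i + 1)) := by ring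
  have h3 : -x' i / ((i : ℝ) + 1) = -(x' i / (i + 1)) := by ring
  simp only [h2, h3] at h1
  linarith

/-- the coefficients have bounded densities -/
lemma gamN_strip {r : ℕ} (i : Fin r) (c δ : ℝ) (hδ : 0 ≤ δ) : gam r {x | c < AN x i ∧ AN x i ≤ c + δ} ≤ ENNReal.ofReal (r * δ) := by
  obtain ⟨n, rfl⟩ : ∃ n, r = n + 1 := ⟨r - 1, by have := i.2; omega⟩
  have hmeas : MeasurableSet {x : Fin (n + 1) → ℝ | c < AN x i ∧ AN x i ≤ c + δ} := by
    have h1 : Measurable fun x : Fin (n + 1) → ℝ => AN x i := ((continuous_apply i).comp AN_cont).measurable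
    exact (measurableSet_lt measurable_const h1).inter (measurableSet_le h1 measurable_const)
  obtain ⟨e, he⟩ : ∃ e, e = MeasurableEquiv.piFinSuccAbove (fun _ : Fin (n + 1) => ℝ) i := ⟨_, rfl⟩
  have hmp := measurePreserving_piFinSuccAbove (fun j : Fin (n + 1) => gj j) i
  rw [← he] at hmp
  obtain ⟨T, hT⟩ : ∃ T : Set (ℝ × (Fin n → ℝ)), T = {q | c < AN (e.symm q) i ∧ AN (e.symm q) i ≤ c + δ} := ⟨_, rfl⟩
  have hTm : MeasurableSet T := by
    rw [hT]
    exact hmeas.preimage e.symm.measurable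
  have h1 : {x : Fin (n + 1) → ℝ | c < AN x i ∧ AN x i ≤ c + δ} = e ⁻¹' T := by
    ext x
    rw [hT, Set.mem_preimage, Set.mem_ofPred_eq, Set.mem_ofPred_eq, MeasurableEquiv.symm_apply_apply]
  have h2 : gam (n + 1) {x | c < AN x i ∧ AN x i ≤ c + δ} = ((gj i).prod (Measure.pi fun j : Fin n => gj (i.succAbove j))) T := by
    rw [h1]
    exact hmp.measure_preimage hTm.nullMeasurableSet
  rw [h2, Measure.prod_apply_symm hTm]
  refine (lintegral_mono (g := fun _ => ENNReal.ofReal (((n + 1 : ℕ) : ℝ) * δ)) fun z => ?_).trans (by simp)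
  refine (gj_le i _).trans ?_
  obtain ⟨b, hb⟩ : ∃ b : ℝ, b = AN (e.symm (0, z)) i := ⟨_, rfl⟩
  have hsy : ∀ (y : ℝ), (e.symm (y, z)) i = y ∧ ∀ j, j ≠ i → (e.symm (y, z)) j = (e.symm (0, z)) j := by
    intro y
    rw [he]
    simp only [MeasurableEquiv.piFinSuccAbove_symm_apply]
    refine ⟨by simp [Fin.insertNthEquiv], fun j hj => ?_⟩
    obtain ⟨k, rfl⟩ := Fin.exists_succAbove_eq hj
    simp [Fin.insertNthEquiv]
  have h3 : ∀ y : ℝ, AN (e.symm (y, z)) i = b + y / (i + 1) := by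
    intro y
    have h4 := AN_update (e.symm (y, z)) (e.symm (0, z)) i fun j hj => (hsy y).2 j hj
    rw [(hsy y).1, (hsy 0).1, ← hb, zero_div, sub_zero] at h4
    linarith
  have hi0 : (0 : ℝ) < ((i : ℕ) : ℝ) + 1 := by positivity
  have h4 : (fun y : ℝ => (y, z)) ⁻¹' T ⊆ Set.Icc ((c - b) * (i + 1)) ((c + δ - b) * (i + 1)) := by
    intro y hy
    rw [hT] at hy
    obtain ⟨h5, h6⟩ := hy
    change c < AN (e.symm (y, z)) i at h5
    change AN (e.symm (y, z)) i ≤ c + δ at h6
    rw [h3] at h5 h6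
    constructor
    · rw [← le_div_iff₀ hi0]
      linarith
    · rw [← div_le_iff₀ hi0]
      linarith
  refine (measure_mono h4).trans ?_
  rw [Real.volume_Icc]
  refine ENNReal.ofReal_le_ofReal ?_
  have h5 : ((i : ℕ) : ℝ) + 1 ≤ ((n + 1 : ℕ) : ℝ) := by
    have : (i : ℕ) + 1 ≤ n + 1 := i.2
    exact_mod_cast this
  have h6 : (c + δ - b) * (((i : ℕ) : ℝ) + 1) - (c - b) * (((i : ℕ) : ℝ) + 1) = (((i : ℕ) : ℝ) + 1) * δ := by ring
  rw [h6]
  exact mul_le_mul_of_nonneg_right h5 hδ

section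

variable {r : ℕ}

/-- the law of the coefficients -/
noncomputable def lamN (μ : Measure (Fin r → ℝ)) : Measure (Fin r → ℝ) := μ.map AN

lemma lamN_apply (μ : Measure (Fin r → ℝ)) (s : Set (Fin r → ℝ)) (hs : MeasurableSet s) : lamN μ s = μ {x | AN x ∈ s} := by
  unfold lamN
  rw [Measure.map_apply AN_cont.measurable hs]
  rfl

/-- the modulus of continuity of the joint distribution function -/
lemma lamN_gam_add (x : Fin r → ℝ) (δ : ℝ) (hδ : 0 ≤ δ) : lamN (gam r) (Ort fun i => x i + δ) ≤ lamN (gam r) (Ort x) + ENNReal.ofReal (r * r * δ) := by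
  rw [lamN_apply _ _ (ort_meas _), lamN_apply _ _ (ort_meas _)]
  have h1 : {y : Fin r → ℝ | AN y ∈ Ort fun i => x i + δ} ⊆ {y | AN y ∈ Ort x} ∪ ⋃ i ∈ (univ : Finset (Fin r)), {y | x i < AN y i ∧ AN y i ≤ x i + δ} := by
    intro y hy
    by_cases h : ∀ i, AN y i ≤ x i
    · exact Or.inl h
    · push Not at h
      obtain ⟨i, hi⟩ := h
      refine Or.inr ?_
      rw [Set.mem_iUnion₂]
      exact ⟨i, mem_univ i, hi, hy i⟩
  refine (measure_mono h1).trans ((measure_union_le _ _).trans (add_le_add le_rfl ?_))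
  refine (measure_biUnion_finset_le _ _).trans ?_
  refine (sum_le_sum fun i _ => gamN_strip i (x i) δ hδ).trans ?_
  have h2 : ENNReal.ofReal ((r : ℝ) * r * δ) = (r : ℝ≥0∞) * ENNReal.ofReal (r * δ) := by
    rw [mul_assoc, ENNReal.ofReal_mul (p := (r : ℝ)) (q := r * δ) (Nat.cast_nonneg r), ENNReal.ofReal_natCast]
  rw [sum_const, card_univ, Fintype.card_fin, nsmul_eq_mul, h2]

/-- **uniform convergence of the joint distribution functions** -/
theorem kolN (μ : ℕ → Measure (Fin r → ℝ)) (hμ : ∀ n, IsProbabilityMeasure (μ n)) (hint : ∀ n, AllInt (μ n))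
    (hmom : ∀ k : Fin r → ℕ, Tendsto (fun n => ∫ x, ∏ j, x j ^ k j ∂(μ n)) atTop (𝓝 (∏ j : Fin r, mmt j (k j)))) (ε : ℝ) (hε : 0 < ε) :
    ∃ n₀ : ℕ, ∀ n, n₀ ≤ n → ∀ x : Fin r → ℝ, |(μ n).real {y | AN y ∈ Ort x} - (gam r).real {y | AN y ∈ Ort x}| ≤ ε := by
  have h1 := weak μ hμ hint hmom
  have h2 := ProbabilityMeasure.tendsto_map_of_tendsto_of_continuous _ _ h1 (AN_cont (r := r))
  have h3 := (LevyProkhorov.continuous_ofMeasure_probabilityMeasure (Ω := Fin r → ℝ)).tendsto ((pm (gam r) inferInstance).map (AN_cont (r := r)).aemeasurable)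
  have h4 := h3.comp h2
  obtain ⟨δ, hδ⟩ : ∃ δ : ℝ, δ = ε / ((r : ℝ) * r + 1) := ⟨_, rfl⟩
  have hr0 : (0 : ℝ) < (r : ℝ) * r + 1 := by positivity
  have hδ0 : 0 < δ := by
    rw [hδ]
    positivity
  obtain ⟨n₀, hn₀⟩ := (EMetric.tendsto_atTop.1 h4) (ENNReal.ofReal δ) (ENNReal.ofReal_pos.2 hδ0)
  refine ⟨n₀, fun n hn x => ?_⟩
  have h5 := hn₀ n hn
  rw [Function.comp_apply, LevyProkhorov.edist_probabilityMeasure_def] at h5
  have h6 : levyProkhorovEDist (lamN (μ n)) (lamN (gam r)) < ENNReal.ofReal δ := h5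
  have hδr : (ENNReal.ofReal δ).toReal = δ := ENNReal.toReal_ofReal hδ0.le
  have hg : IsProbabilityMeasure (lamN (gam r)) := Measure.isProbabilityMeasure_map AN_cont.aemeasurable
  have hm : IsProbabilityMeasure (lamN (μ n)) := by
    have := hμ n
    exact Measure.isProbabilityMeasure_map AN_cont.aemeasurable
  -- from above
  have hup : lamN (μ n) (Ort x) ≤ lamN (gam r) (Ort x) + ENNReal.ofReal ε := by
    have h7 := left_measure_le_of_levyProkhorovEDist_lt h6 (ort_meas x)
    rw [hδr] at h7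
    refine h7.trans ?_
    refine (add_le_add ((measure_mono (ort_thick x δ)).trans (lamN_gam_add x δ hδ0.le)) le_rfl).trans ?_
    rw [add_assoc, ← ENNReal.ofReal_add (by positivity) hδ0.le]
    refine add_le_add le_rfl (ENNReal.ofReal_le_ofReal (le_of_eq ?_))
    rw [hδ]
    field_simp
  have hlo : lamN (gam r) (Ort x) ≤ lamN (μ n) (Ort x) + ENNReal.ofReal ε := by
    have h7 := right_measure_le_of_levyProkhorovEDist_lt h6 (ort_meas (fun i => x i - δ))
    rw [hδr] at h7
    have h8 := lamN_gam_add (fun i => x i - δ) δ hδ0.le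
    have e : (fun i => x i - δ + δ) = x := by
      funext i
      ring
    rw [e] at h8
    refine h8.trans ((add_le_add h7 le_rfl).trans ?_)
    have h9 := ort_thick (fun i => x i - δ) δ
    rw [e] at h9
    refine (add_le_add (add_le_add (measure_mono h9) le_rfl) le_rfl).trans ?_
    rw [add_assoc, ← ENNReal.ofReal_add hδ0.le (by positivity)]
    refine add_le_add le_rfl (ENNReal.ofReal_le_ofReal (le_of_eq ?_))
    rw [hδ]
    field_simp
    ring
  have e1 : (μ n).real {y | AN y ∈ Ort x} = (lamN (μ n) (Ort x)).toReal := by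
    rw [lamN_apply _ _ (ort_meas x)]
    rfl
  have e2 : (gam r).real {y | AN y ∈ Ort x} = (lamN (gam r) (Ort x)).toReal := by
    rw [lamN_apply _ _ (ort_meas x)]
    rfl
  have key : ∀ a b : ℝ≥0∞, a ≠ ∞ → b ≠ ∞ → a ≤ b + ENNReal.ofReal ε → a.toReal ≤ b.toReal + ε := by
    intro a b ha hb h
    have := ENNReal.toReal_mono (ENNReal.add_ne_top.2 ⟨hb, ENNReal.ofReal_ne_top⟩) h
    rwa [ENNReal.toReal_add hb ENNReal.ofReal_ne_top, ENNReal.toReal_ofReal hε.le] at this
  rw [e1, e2, abs_le]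
  have h7 := key _ _ (measure_ne_top _ _) (measure_ne_top _ _) hup
  have h8 := key _ _ (measure_ne_top _ _) (measure_ne_top _ _) hlo
  constructor <;> linarith

/-- **finitely many moments determine the joint distribution function of the coefficients up to `ε`** -/
theorem lemCN (r : ℕ) (ε : ℝ) (hε : 0 < ε) : ∃ N : ℕ, ∀ μ : Measure (Fin r → ℝ), IsProbabilityMeasure μ → AllInt μ →
    (∀ k : Fin r → ℕ, (∀ j, k j ≤ N) → |∫ x, ∏ j, x j ^ k j ∂μ - ∏ j : Fin r, mmt j (k j)| ≤ 1 / (N + 1)) →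
    ∀ x : Fin r → ℝ, |μ.real {y | AN y ∈ Ort x} - (gam r).real {y | AN y ∈ Ort x}| ≤ ε := by
  by_contra hcon
  push Not at hcon
  choose μ hμ hint hmom x hx using hcon
  have htend : ∀ k : Fin r → ℕ, Tendsto (fun n => ∫ x, ∏ j, x j ^ k j ∂(μ n)) atTop (𝓝 (∏ j : Fin r, mmt j (k j))) := by
    intro k
    rw [tendsto_iff_dist_tendsto_zero]
    have h1 : Tendsto (fun n : ℕ => 1 / ((n : ℝ) + 1)) atTop (𝓝 0) := tendsto_one_div_add_atTop_nhds_zero_nat
    refine squeeze_zero' (Eventually.of_forall fun n => dist_nonneg) ?_ h1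
    filter_upwards [eventually_ge_atTop (∑ j, k j)] with n hn
    rw [Real.dist_eq]
    exact hmom n k fun j => (single_le_sum (f := k) (fun _ _ => Nat.zero_le _) (mem_univ j)).trans hn
  obtain ⟨n₀, hn₀⟩ := kolN μ hμ hint htend ε hε
  exact absurd (hn₀ n₀ le_rfl (x n₀)) (not_le.2 (hx n₀))

end



lemma map_pow' {N : ℕ} (U : RM N) (m : ℕ) : (U.map Complex.ofRealHom) ^ m = (U ^ m).map Complex.ofRealHom := by
  have h : ∀ V : RM N, V.map Complex.ofRealHom = Complex.ofRealHom.mapMatrix V := fun V => rfl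
  rw [h, h, map_pow]

lemma map_trace' {N : ℕ} (U : RM N) (m : ℕ) : ((U.map Complex.ofRealHom) ^ m).trace = (((U ^ m).trace : ℝ) : ℂ) := by
  rw [map_pow']
  unfold Matrix.trace
  simp [Matrix.diag_apply, Matrix.map_apply]

lemma map_charpolyRev {N : ℕ} (U : RM N) : (U.map Complex.ofRealHom).charpolyRev = U.charpolyRev.map Complex.ofRealHom := by
  unfold charpolyRev
  rw [← Polynomial.coe_mapRingHom, RingHom.map_det]
  congr 1
  ext i j : 1
  simp only [Matrix.sub_apply, Matrix.smul_apply, Matrix.map_apply, RingHom.mapMatrix_apply, smul_eq_mul, map_sub,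
    Polynomial.coe_mapRingHom]
  congr 1
  · rcases eq_or_ne i j with rfl | h
    · rw [Matrix.one_apply_eq, Matrix.one_apply_eq, Polynomial.map_one]
    · rw [Matrix.one_apply_ne h, Matrix.one_apply_ne h, Polynomial.map_zero]
  · rw [Polynomial.map_mul, Polynomial.map_X, Polynomial.map_C]

/-- the coefficients of `det (1 - T U)` -/
theorem coeff_rev {N : ℕ} (U : RM N) (i : ℕ) : U.charpolyRev.coeff i = coef (fun m => (U ^ m).trace) i := by
  have h1 := Pool.Agent.N867.AS.hasPS_charpolyRev (U.map Complex.ofRealHom)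
  have h2 : ∀ i : ℕ, (U.map Complex.ofRealHom).charpolyRev.coeff i = ((coef (fun m => (U ^ m).trace) i : ℝ) : ℂ) := by
    intro i
    induction i using Nat.strong_induction_on with
    | _ i ih =>
      rcases i with _ | i
      · have h3 := h1.1
        rw [coef_zero]
        simpa using h3
      · have h3 := h1.coeff_eq (i + 1)
        simp only [Polynomial.coeff_coe] at h3
        have h4 : ∑ j ∈ range (i + 1), ((U.map Complex.ofRealHom) ^ (j + 1)).trace * (U.map Complex.ofRealHom).charpolyRev.coeff (i + 1 - 1 - j) =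
            ((∑ j : Fin (i + 1), (U ^ ((j : ℕ) + 1)).trace * coef (fun m => (U ^ m).trace) (i - j) : ℝ) : ℂ) := by
          rw [Fin.sum_univ_eq_sum_range (fun j => (U ^ (j + 1)).trace * coef (fun m => (U ^ m).trace) (i - j))]
          push_cast
          refine sum_congr rfl fun j hj => ?_
          rw [mem_range] at hj
          rw [map_trace', ih (i - j) (by omega)]
        rw [h4] at h3
        have h5 : ((i + 1 : ℕ) : ℂ) ≠ 0 := Nat.cast_ne_zero.2 (Nat.succ_ne_zero i)
        apply mul_left_cancel₀ h5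
        rw [h3, coef_succ]
        push_cast
        have h6 : ((i : ℂ) + 1) ≠ 0 := by exact_mod_cast h5
        field_simp
  have h3 := h2 i
  rw [map_charpolyRev, Polynomial.coeff_map] at h3
  exact Complex.ofReal_injective h3

lemma ort_pre {r : ℕ} (x : Fin r → ℝ) : MeasurableSet {y : Fin r → ℝ | AN y ∈ Ort x} := (ort_meas x).preimage AN_cont.measurable

/-- the law of minus the traces -/
lemma haar_law {N : ℕ} {ν : Measure (RM N)} (hν : Haar ν) (r : ℕ) : ∃ μ : Measure (Fin r → ℝ), IsProbabilityMeasure μ ∧ AllInt μ ∧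
    (∀ k : Fin r → ℕ, ∫ x, ∏ j, x j ^ k j ∂μ = ∫ U : RM N, ∏ j : Fin r, ps ((j : ℕ) + 1) U ^ k j ∂ν) ∧
    ∀ x : Fin r → ℝ, μ.real {y | AN y ∈ Ort x} = ν.real {U : RM N | ∀ i : Fin r, U.charpolyRev.coeff ((i : ℕ) + 1) ≤ x i} := by
  have hp := hν.prob
  obtain ⟨V, hV⟩ : ∃ V : RM N → (Fin r → ℝ), V = fun U (j : Fin r) => ps ((j : ℕ) + 1) U := ⟨_, rfl⟩
  have hVc : Continuous V := by
    rw [hV]
    exact continuous_pi fun j => cont_ps _
  have hmono : ∀ k : Fin r → ℕ, Continuous fun x : Fin r → ℝ => ∏ j, x j ^ k j := fun k => by fun_prop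
  refine ⟨ν.map V, Measure.isProbabilityMeasure_map hVc.aemeasurable, fun k => ?_, fun k => ?_, fun x => ?_⟩
  · rw [integrable_map_measure (hmono k).aestronglyMeasurable hVc.aemeasurable]
    exact hν.integrable _ ((hmono k).comp hVc)
  · rw [integral_map hVc.aemeasurable (hmono k).aestronglyMeasurable, hV]
  · rw [measureReal_def, Measure.map_apply hVc.measurable (ort_pre x), measureReal_def]
    congr 2
    ext U
    show (∀ i, AN (V U) i ≤ x i) ↔ ∀ i : Fin r, U.charpolyRev.coeff ((i : ℕ) + 1) ≤ x i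
    have h1 : ∀ i : Fin r, AN (V U) i = U.charpolyRev.coeff ((i : ℕ) + 1) := by
      intro i
      rw [coeff_rev U]
      unfold AN AA
      refine coef_congr r (fun m hm => ?_) _ (by omega)
      have h2 := exs_succ (fun j => -V U j) ⟨m, hm⟩
      rw [show (m : ℕ) = ((⟨m, hm⟩ : Fin r) : ℕ) from rfl, h2, hV]
      show -ps (m + 1) U = _
      unfold ps
      rw [neg_neg]
    simp only [h1]

end H36PN.OO
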