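import Pool.Agent.H35J.GS.IsoM
import Pool.Agent.Helper36x.PN.All
import Pool.Agent.Helper36x.PN.LimN

/-!
# The moments of the coefficients for random hypersurfaces
-/

set_option autoImplicit false
set_option linter.unusedSectionVars false

namespace H36PN

open MvPolynomial Finset MeasureTheory
open H35GS (kbox mmt mmt_zero coef coef_congr Wt mG supp_of prod_of sum_of)
open H35GS.Gn (cQ cQ_eval cQ_wt)
open Pool.Agent.Y722.HS (Mon mev)
open H36PN.OO (RM ps cont_ps haar_exact')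

/-- **the empirical moments** -/
theorem emp_poly (m : ℕ) (hm : 1 ≤ m) {w : ℕ} {P : MvPolynomial ℕ ℝ} (hP : Wt (fun j => j + 1) w P) (ε : ℝ) (hε : 0 < ε) (hε1 : ε ≤ 1) :
    ∃ κ₀ : ℝ, 0 < κ₀ ∧ ∃ C : ℝ, 1 ≤ C ∧ ∀ D : ℕ, 1 ≤ D → 2 * w ≤ D + 1 →
      ∀ (S : Set ℕ) (N : Mon (m + 1) D → ℤ) (L : Mon (m + 1) D → ℕ) (T : ℝ), 0 < T → (∀ i, T * (Fintype.card (Mon (m + 1) D) + 1) ≤ L i) →
      ∀ X₀ : ℕ, 1 ≤ X₀ → ∃ E : Finset (Mon (m + 1) D → ℤ), E ⊆ kbox N L ∧ (E.card : ℝ) ≤ C * (X₀ : ℝ) ^ (-(ε / 2)) * ∏ i, (L i : ℝ) ∧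
      ∀ t ∈ kbox N L, t ∉ E → ∀ Y Y' : ℕ, Y ≤ Y' → X₀ ≤ Y' → (Y' : ℝ) ≤ T ^ κ₀ →
        |∑ p ∈ GP m D S Y Y' t, (eval (fun j => sv m D j p fun i => (t i : ZMod p)) P - mG P)| ≤ C * Real.sqrt (BD m D) * (Y' : ℝ) ^ (1 / 2 + ε / 2) := by
  classical
  choose κf hκf Cf hCf hemp using fun k : Fin w → ℕ => emp_mom m hm k ε hε hε1
  obtain ⟨κd, hκd⟩ : ∃ κd : (ℕ →₀ ℕ) → ℝ, κd = fun d => κf fun j => d j := ⟨_, rfl⟩
  obtain ⟨κ, hκ0, hκle⟩ : ∃ κ : ℝ, 0 < κ ∧ ∀ d ∈ P.support, κ ≤ κd d := by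
    rcases P.support.eq_empty_or_nonempty with h | h
    · exact ⟨1, one_pos, fun d hd => by rw [h] at hd; exact absurd hd (notMem_empty _)⟩
    · obtain ⟨d₀, hd₀, hmin⟩ := exists_min_image P.support κd h
      refine ⟨κd d₀, ?_, hmin⟩
      rw [hκd]
      exact hκf _
  obtain ⟨C, hC⟩ : ∃ C : ℝ, C = 1 + ∑ d ∈ P.support, (1 + |P.coeff d|) * Cf fun j => d j := ⟨_, rfl⟩
  have hC0 : ∀ d : ℕ →₀ ℕ, 0 ≤ Cf fun j => d j := fun d => by linarith [hCf fun j => d j]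
  have hCsum : 0 ≤ ∑ d ∈ P.support, (1 + |P.coeff d|) * Cf fun j => d j := sum_nonneg fun d _ => mul_nonneg (by positivity) (hC0 d)
  refine ⟨κ, hκ0, C, by rw [hC]; linarith, fun D hD1 hD S N L T hT hL X₀ hX₀ => ?_⟩
  have hX₀R : (1 : ℝ) ≤ X₀ := by exact_mod_cast hX₀
  have hLpos : (0 : ℝ) ≤ ∏ i, (L i : ℝ) := prod_nonneg fun i _ => Nat.cast_nonneg _
  have hXp : (0 : ℝ) < (X₀ : ℝ) ^ (-(ε / 2)) := Real.rpow_pos_of_pos (by linarith) _
  have hw : ∀ d ∈ P.support, 2 * ∑ j : Fin w, ((j : ℕ) + 1) * d j ≤ D + 1 := by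
    intro d hd
    have := sum_of (hP d (mem_support_iff.1 hd))
    omega
  choose E hE1 hE2 hE3 using fun (k : Fin w → ℕ) (hk : 2 * ∑ j : Fin w, ((j : ℕ) + 1) * k j ≤ D + 1) => hemp k D hD1 hk S N L T hT hL X₀ hX₀
  refine ⟨P.support.attach.biUnion fun d => E _ (hw d.1 d.2), ?_, ?_, ?_⟩
  · intro t ht
    rw [mem_biUnion] at ht
    obtain ⟨d, _, hd⟩ := ht
    exact hE1 _ _ hd
  · refine (Nat.cast_le.2 card_biUnion_le).trans ?_
    push_cast
    refine (sum_le_sum fun d _ => hE2 _ (hw d.1 d.2)).trans ?_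
    rw [← sum_mul, ← sum_mul, sum_attach P.support (fun d => Cf fun j => d j)]
    refine mul_le_mul_of_nonneg_right (mul_le_mul_of_nonneg_right ?_ hXp.le) hLpos
    rw [hC]
    have h1 : ∑ d ∈ P.support, Cf (fun j => d j) ≤ ∑ d ∈ P.support, (1 + |P.coeff d|) * Cf fun j => d j :=
      sum_le_sum fun d _ => le_mul_of_one_le_left (hC0 d) (by have := abs_nonneg (P.coeff d); linarith)
    linarith
  intro t ht htE Y Y' hYY hY hYT
  have hY1 : (1 : ℝ) ≤ Y' := by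
    have : 1 ≤ Y' := hX₀.trans hY
    exact_mod_cast this
  have hYp : (0 : ℝ) ≤ Real.sqrt (BD m D) * (Y' : ℝ) ^ (1 / 2 + ε / 2) := mul_nonneg (Real.sqrt_nonneg _) (Real.rpow_nonneg (by linarith) _)
  have hT1 : 1 ≤ T := by
    by_contra hlt
    push Not at hlt
    have := Real.rpow_lt_one hT.le hlt hκ0
    linarith
  have h1 : ∀ p, eval (fun j => sv m D j p fun i => (t i : ZMod p)) P - mG P =
      ∑ d ∈ P.support, P.coeff d * (∏ j ∈ d.support, (sv m D j p fun i => (t i : ZMod p)) ^ d j - ∏ j ∈ d.support, mmt j (d j)) := by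
    intro p
    rw [eval_eq]
    unfold mG
    rw [← sum_sub_distrib]
    exact sum_congr rfl fun d _ => by ring
  simp only [h1]
  rw [sum_comm]
  refine (abs_sum_le_sum_abs _ _).trans ?_
  have h2 : ∀ d ∈ P.support, |∑ p ∈ GP m D S Y Y' t, P.coeff d * (∏ j ∈ d.support, (sv m D j p fun i => (t i : ZMod p)) ^ d j - ∏ j ∈ d.support, mmt j (d j))| ≤
      (1 + |P.coeff d|) * (Cf fun j => d j) * (Real.sqrt (BD m D) * (Y' : ℝ) ^ (1 / 2 + ε / 2)) := by
    intro d hd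
    have hdw := hP d (mem_support_iff.1 hd)
    rw [← mul_sum, abs_mul]
    have h3 := hE3 (fun j => d j) (hw d hd) t ht (fun h => htE (mem_biUnion.2 ⟨⟨d, hd⟩, mem_attach _ _, h⟩)) Y Y' hYY hY
      (hYT.trans (Real.rpow_le_rpow_of_exponent_le hT1 (by
        have := hκle d hd
        rw [hκd] at this
        exact this)))
    have h4 : ∀ p, ∏ j ∈ d.support, (sv m D j p fun i => (t i : ZMod p)) ^ d j - ∏ j ∈ d.support, mmt j (d j) =
        ∏ j : Fin w, sv m D j p (fun i => (t i : ZMod p)) ^ d j - ∏ j : Fin w, mmt j (d j) := by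
      intro p
      rw [prod_of hdw (fun j e => (sv m D j p fun i => (t i : ZMod p)) ^ e) (fun j => pow_zero _), prod_of hdw (fun j e => mmt j e) mmt_zero]
    simp only [h4]
    have h5 := abs_nonneg (P.coeff d)
    have h6 : 0 ≤ (Cf fun j => d j) * (Real.sqrt (BD m D) * (Y' : ℝ) ^ (1 / 2 + ε / 2)) := mul_nonneg (hC0 d) hYp
    rw [mul_assoc] at h3
    calc |P.coeff d| * |∑ p ∈ GP m D S Y Y' t, (∏ j : Fin w, sv m D j p (fun i => (t i : ZMod p)) ^ d j - ∏ j : Fin w, mmt j (d j))|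
        ≤ |P.coeff d| * ((Cf fun j => d j) * (Real.sqrt (BD m D) * (Y' : ℝ) ^ (1 / 2 + ε / 2))) := mul_le_mul_of_nonneg_left h3 h5
      _ ≤ (1 + |P.coeff d|) * ((Cf fun j => d j) * (Real.sqrt (BD m D) * (Y' : ℝ) ^ (1 / 2 + ε / 2))) := mul_le_mul_of_nonneg_right (by linarith) h6
      _ = _ := by ring
  refine (sum_le_sum h2).trans ?_
  rw [← sum_mul, mul_assoc C]
  refine mul_le_mul_of_nonneg_right ?_ hYp
  rw [hC]
  linarith


/-- the Haar measure of the orthogonal group -/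
theorem haar_polyO {N : ℕ} {ν : Measure (RM N)} (hν : OO.Haar ν) {w : ℕ} {P : MvPolynomial ℕ ℝ} (hP : Wt (fun j => j + 1) w P) (hw : w + 1 ≤ N) :
    ∫ U : RM N, eval (fun j => ps (j + 1) U) P ∂ν = mG P := by
  have h1 : ∀ d ∈ P.support, Integrable (fun U : RM N => P.coeff d * ∏ j ∈ d.support, ps (j + 1) U ^ d j) ν := by
    intro d _
    exact hν.integrable _ (continuous_const.mul (continuous_finsetProd _ fun j _ => (cont_ps _).pow _))
  simp only [eval_eq]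
  rw [integral_finsetSum _ h1]
  unfold mG
  refine sum_congr rfl fun d hd => ?_
  have hdw := hP d (mem_support_iff.1 hd)
  rw [integral_const_mul, prod_of hdw (fun j e => mmt j e) mmt_zero]
  simp only [fun U : RM N => prod_of hdw (fun j e => ps (j + 1) U ^ e) (fun j => pow_zero _)]
  rw [haar_exact' hν _ (by
    have := sum_of hdw
    omega)]

/-- the polynomial of a monomial in the coefficients, with the opposite sign of the power sums -/
noncomputable def monN {r : ℕ} (k : Fin r → ℕ) : MvPolynomial ℕ ℝ := ∏ i : Fin r, cQ (fun a => C (-1) * X a) (i + 1) ^ k i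

lemma monN_eval {r : ℕ} (k : Fin r → ℕ) (v : ℕ → ℝ) : eval v (monN k) = ∏ i : Fin r, coef (fun m => -v (m - 1)) (i + 1) ^ k i := by
  unfold monN
  rw [map_prod]
  refine prod_congr rfl fun i _ => ?_
  rw [map_pow, cQ_eval]
  simp

lemma monN_wt {r : ℕ} (k : Fin r → ℕ) : Wt (fun j => j + 1) (∑ i : Fin r, ((i : ℕ) + 1) * k i) (monN k) := by
  refine Wt.prod _ _ _ fun i _ => ?_
  have h1 := cQ_wt (ω := fun j => j + 1) (fun a => (C (-1) * X a : MvPolynomial ℕ ℝ)) 1 (fun a => by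
    have h2 := (Wt.C (ω := fun j : ℕ => j + 1) (-1 : ℝ)).mul (Wt.X (ω := fun j : ℕ => j + 1) a)
    exact h2.mono (by omega)) ((i : ℕ) + 1)
  exact (h1.mono (by omega)).pow _

end H36PN
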