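import Pool.Agent.Helper36x.PN.All
import Pool.Agent.Helper36x.PN.LimN

/-!
# The law of the coefficients for almost all smooth hypersurfaces of even dimension and large degree
-/

set_option autoImplicit false
set_option linter.unusedSectionVars false

namespace H36PN

open MeasureTheory ProbabilityTheory Finset
open Q282.CL
open H35GS (card_GF one_le_sqrt eta mmt lln IV kbox kbox_card mn mn_eq emp_meas coef coef_congr AA Ort gam exs exs_succ)
open Pool.Agent.Y722.HS (Mon mev mkMon mkMon_apply form eval_form IsSmooth)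
open H36PN.OO (RM Haar AN lemCN haar_law ort_pre haar_exact')

/-- **the law of the coefficients** -/
theorem mainO (m : ℕ) (hm : 1 ≤ m) (r : ℕ) (ε : ℝ) (hε : 0 < ε) (hε1 : ε ≤ 1) : open Classical in ∃ (d₀ : ℕ) (κ C : ℝ), 0 < κ ∧ ∀ d b : ℕ, d₀ ≤ d → d ≤ b →
    ∀ (S : Set ℕ) (N : Mon (m + 1) d → ℤ) (L : Mon (m + 1) d → ℕ) (T : ℝ), 0 < T → (∀ i, T * (Fintype.card (Mon (m + 1) d) + 1) ≤ L i) →
      ∀ X₀ : ℕ, 1 ≤ X₀ → ∃ E : Finset (Mon (m + 1) d → ℤ), E ⊆ kbox N L ∧ (E.card : ℝ) ≤ C * Real.sqrt d ^ (m + 1) * (X₀ : ℝ) ^ (-(ε / 2)) * ∏ i, (L i : ℝ) ∧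
      ∀ t ∈ kbox N L, t ∉ E → ∀ Y Y' : ℕ, Y ≤ Y' → X₀ ≤ Y' → (Y' : ℝ) ≤ T ^ κ →
        (Y' : ℝ) ^ (1 / 2 + ε) ≤ (GP m d S Y Y' t).card → ∀ ν : Measure (RM b), Haar ν → ∀ x : Fin r → ℝ,
        |(((GP m d S Y Y' t).filter fun p => ∀ i : Fin r, coef (fun k => -sv m d (k - 1) p fun i => (t i : ZMod p)) ((i : ℕ) + 1) ≤ x i).card : ℝ) / (GP m d S Y Y' t).card -
          ν.real {U : RM b | ∀ i : Fin r, U.charpolyRev.coeff ((i : ℕ) + 1) ≤ x i}| ≤ ε := by
  classical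
  obtain ⟨n, hn⟩ := lemCN r (ε / 2) (by positivity)
  obtain ⟨κ, C, hκ, hC, hemp⟩ := emp_all m hm r n ε hε hε1
  refine ⟨2 * (r * r * n) + 1, κ, C * Real.sqrt (m + 2) ^ (m + 1), hκ, fun d b hd hdb S N L T hT hL X₀ hX₀ => ?_⟩
  obtain ⟨E, hE1, hE2, hE3⟩ := hemp d (by omega) (by omega) S N L T hT hL X₀ hX₀
  refine ⟨E, hE1, ?_, fun t ht htE Y Y' hYY hY hYT hcard ν hν x => ?_⟩
  · have h1 : Real.sqrt (BD m d) = Real.sqrt (m + 2) ^ (m + 1) * Real.sqrt d ^ (m + 1) := by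
      unfold BD
      rw [← mul_pow, ← Real.sqrt_mul (by positivity)]
      push_cast
      rw [Real.sqrt_eq_iff_mul_self_eq (by positivity) (by positivity), ← mul_pow, Real.mul_self_sqrt (by positivity)]
    rw [h1] at hE2
    refine hE2.trans (le_of_eq ?_)
    ring
  have hmom := hE3 t ht htE Y Y' hYY hY hYT hcard
  obtain ⟨G, hG⟩ : ∃ G : Finset ℕ, G = GP m d S Y Y' t := ⟨_, rfl⟩
  rw [← hG] at hcard hmom ⊢
  have hY1 : (1 : ℝ) ≤ Y' := by
    have : 1 ≤ Y' := hX₀.trans hY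
    exact_mod_cast this
  have hYp : (1 : ℝ) ≤ (Y' : ℝ) ^ (1 / 2 + ε) := Real.one_le_rpow hY1 (by positivity)
  have hG1 : (1 : ℝ) ≤ G.card := hYp.trans hcard
  have hG0 : (0 : ℝ) < G.card := by linarith
  have hGne : G.Nonempty := by
    rw [← card_pos]
    exact_mod_cast hG0
  -- the empirical law
  obtain ⟨v, hv⟩ : ∃ v : ℕ → (Fin r → ℝ), v = fun p (j : Fin r) => sv m d j p fun i => (t i : ZMod p) := ⟨_, rfl⟩
  obtain ⟨μ, hμp, hμi, hμs⟩ := emp_meas G hGne v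
  have hemp' := hn μ hμp (fun k => (hμi _).1) (fun k hk => by
    rw [(hμi _).2, hv]
    exact hmom k hk) x
  -- the Haar measure
  obtain ⟨μ', hμ'p, hμ'i, hμ'm, hμ's⟩ := haar_law hν r
  have hhaar' := hn μ' hμ'p hμ'i (fun k hk => by
    rw [hμ'm, haar_exact' hν k, sub_self, abs_zero]
    · positivity
    · have h1 : ∑ j : Fin r, ((j : ℕ) + 1) * k j ≤ ∑ j : Fin r, r * n := sum_le_sum fun j _ => Nat.mul_le_mul (by omega) (hk j)
      rw [sum_const, card_univ, Fintype.card_fin, smul_eq_mul] at h1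
      have h2 : r * (r * n) = r * r * n := by ring
      rw [h2] at h1
      omega) x
  rw [hμ's] at hhaar'
  rw [hμs _ (ort_pre x)] at hemp'
  have hset : (G.filter fun p => v p ∈ {y | AN y ∈ Ort x}) = G.filter fun p => ∀ i : Fin r, coef (fun k => -sv m d (k - 1) p fun i => (t i : ZMod p)) ((i : ℕ) + 1) ≤ x i := by
    refine filter_congr fun p _ => ?_
    have h1 : ∀ i : Fin r, AN (v p) i = coef (fun k => -sv m d (k - 1) p fun i => (t i : ZMod p)) ((i : ℕ) + 1) := by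
      intro i
      unfold AN AA
      refine coef_congr r (fun k hk => ?_) _ (by omega)
      have h2 := exs_succ (fun j => -v p j) ⟨k, hk⟩
      rw [show (k : ℕ) = ((⟨k, hk⟩ : Fin r) : ℕ) from rfl, h2, hv]
      simp
    show (∀ i, AN (v p) i ≤ x i) ↔ _
    simp only [h1]
  rw [hset] at hemp'
  have h1 := abs_sub_le (((G.filter fun p => ∀ i : Fin r, coef (fun k => -sv m d (k - 1) p fun i => (t i : ZMod p)) ((i : ℕ) + 1) ≤ x i).card : ℝ) / G.card)
    ((gam r).real {y | AN y ∈ Ort x}) (ν.real {U : RM b | ∀ i : Fin r, U.charpolyRev.coeff ((i : ℕ) + 1) ≤ x i})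
  rw [abs_sub_comm ((gam r).real {y | AN y ∈ Ort x})] at h1
  linarith

end H36PN
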