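import Pool.Agent.Helper36x.PN.Ind
import Pool.Agent.H35J.GS.Mod3

/-!
# The moments of the numbers of the closed points of degree `j` on random hypersurfaces of dimension `m`, for independent residues
-/

set_option autoImplicit false
set_option linter.unusedSectionVars false

namespace H36PN

open Finset
open Q282.CL
open Q282MM (gm)
open H35GS (card_GF card_algHom av_hom mom_near Loc1 gm_zero gm_odd sqrt_sq_pow one_le_sqrt eta eta_nonneg eta_le mmt prod_diff av_equiv sm)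

/-- the centred indicator function of zero -/
noncomputable def ph {B : Type} [Fintype B] [Zero B] (w : B) : ℝ := open Classical in (if w = 0 then 1 else 0) - 1 / (Fintype.card B : ℝ)

section

variable {B : Type} [Fintype B] [Zero B]

lemma ph_abs (w : B) : |ph w| ≤ 1 := by
  have : Nonempty B := ⟨0⟩
  have hp1 : (1 : ℝ) ≤ Fintype.card B := by exact_mod_cast Fintype.card_pos
  have h1 : 1 / (Fintype.card B : ℝ) ≤ 1 := by
    rw [div_le_one (by linarith)]
    exact hp1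
  have h2 : 0 ≤ 1 / (Fintype.card B : ℝ) := by positivity
  unfold ph
  split_ifs <;> rw [abs_le] <;> constructor <;> linarith

lemma ph_one : av (ph : B → ℝ) = 0 := by
  classical
  have : Nonempty B := ⟨0⟩
  have hp0 : (Fintype.card B : ℝ) ≠ 0 := by exact_mod_cast Fintype.card_ne_zero
  unfold av ph
  rw [sum_sub_distrib, sum_ite_eq' univ 0 (fun _ => (1 : ℝ)), sum_const, card_univ]
  simp only [mem_univ, if_true, nsmul_eq_mul]
  field_simp
  simp

lemma ph_two : av (fun w : B => ph w ^ 2) = 1 / Fintype.card B * (1 - 1 / Fintype.card B) := by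
  classical
  have : Nonempty B := ⟨0⟩
  have hp0 : (Fintype.card B : ℝ) ≠ 0 := by exact_mod_cast Fintype.card_ne_zero
  have h1 : ∀ w : B, ph w ^ 2 = (if w = 0 then (1 - 2 / (Fintype.card B : ℝ)) else 0) + 1 / (Fintype.card B : ℝ) ^ 2 := by
    intro w
    unfold ph
    split_ifs
    · field_simp
      ring
    · field_simp
      ring
  unfold av
  rw [sum_congr rfl fun w _ => h1 w, sum_add_distrib, sum_ite_eq' univ 0 (fun _ => (1 - 2 / (Fintype.card B : ℝ))), sum_const, card_univ]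
  simp only [mem_univ, if_true, nsmul_eq_mul]
  field_simp
  ring

lemma ph_high (j : ℕ) (hj : 2 ≤ j) : |av (fun w : B => ph w ^ j)| ≤ 1 / Fintype.card B := by
  have : Nonempty B := ⟨0⟩
  have hp0 : (0 : ℝ) < Fintype.card B := by exact_mod_cast Fintype.card_pos
  have h1 : |av (fun w : B => ph w ^ j)| ≤ av (fun w : B => ph w ^ 2) := by
    unfold av
    rw [abs_div, Nat.abs_cast]
    refine div_le_div_of_nonneg_right ((abs_sum_le_sum_abs _ _).trans (sum_le_sum fun w _ => ?_)) (Nat.cast_nonneg _)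
    rw [abs_pow, ← sq_abs]
    exact pow_le_pow_of_le_one (abs_nonneg _) (ph_abs w) hj
  refine h1.trans ?_
  rw [ph_two]
  have h2 : 0 ≤ 1 / (Fintype.card B : ℝ) := by positivity
  nlinarith

lemma loc_ph : Loc1 (ph : B → ℝ) (Fintype.card B : ℝ) (1 / Fintype.card B * (1 - 1 / Fintype.card B)) := ⟨ph_one, ph_two, ph_high⟩

end

lemma geo_le (x : ℝ) (hx : 2 ≤ x) (n : ℕ) : ∑ i ∈ range n, x ^ i ≤ x ^ n := by
  induction n with
  | zero => simp
  | succ n ih =>
    rw [sum_range_succ, pow_succ]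
    have : 0 ≤ x ^ n := by positivity
    nlinarith

section

variable {p : ℕ} [hp : Fact p.Prime]

lemma two_le : (2 : ℝ) ≤ p := by exact_mod_cast hp.out.two_le

lemma card_CQ_le {n : ℕ} (e : ℕ) (he : e ≠ 0) : (e : ℝ) * Fintype.card (CQ p n e) ≤ ∑ i ∈ range (n + 1), ((p : ℝ) ^ e) ^ i := by
  rw [card_points (p := p) e he]
  exact single_le_sum (f := fun e : ℕ => (e : ℝ) * Fintype.card (CQ p n e)) (fun e _ => by positivity) (Nat.mem_divisors_self e he)

lemma pow_two_le (e : ℕ) (he : e ≠ 0) : (2 : ℝ) ≤ (p : ℝ) ^ e := two_le.trans (le_self_pow₀ (by linarith [two_le (p := p)]) he)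

lemma card_CQ_le2 {n : ℕ} (e : ℕ) (he : e ≠ 0) : (e : ℝ) * Fintype.card (CQ p n e) ≤ 2 * ((p : ℝ) ^ e) ^ n := by
  refine (card_CQ_le e he).trans ?_
  rw [sum_range_succ]
  have := geo_le ((p : ℝ) ^ e) (pow_two_le e he) n
  linarith

/-- the number of the closed points of degree `e` -/
lemma card_CQ_near {m : ℕ} (hm : 1 ≤ m) (e : ℕ) (he : e ≠ 0) :
    |(e : ℝ) * Fintype.card (CQ p (m + 1) e) - Real.sqrt p ^ (2 * ((m + 1) * e))| ≤ (2 * e + 2) * Real.sqrt p ^ (2 * (m * e)) := by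
  have hs1 : 1 ≤ Real.sqrt p := one_le_sqrt
  have hQ : ∀ k e : ℕ, ((p : ℝ) ^ e) ^ k = Real.sqrt p ^ (2 * (k * e)) := by
    intro k e
    rw [sqrt_sq_pow, ← pow_mul, mul_comm e k]
  have h1 := card_points (p := p) (n := m + 1) e he
  have h2 : ∑ e' ∈ e.divisors, (e' : ℝ) * Fintype.card (CQ p (m + 1) e') =
      (e : ℝ) * Fintype.card (CQ p (m + 1) e) + ∑ e' ∈ e.properDivisors, (e' : ℝ) * Fintype.card (CQ p (m + 1) e') := by
    rw [← Nat.insert_self_properDivisors he, sum_insert (by simp)]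
  rw [h2, sum_range_succ, sum_range_succ] at h1
  have h3 : ∑ e' ∈ e.properDivisors, (e' : ℝ) * Fintype.card (CQ p (m + 1) e') ≤ ∑ e' ∈ e.properDivisors, 2 * Real.sqrt p ^ (2 * (m * e)) := by
    refine sum_le_sum fun e' he' => ?_
    have he0 : e' ≠ 0 := (Nat.pos_of_mem_properDivisors he').ne'
    refine (card_CQ_le2 e' he0).trans ?_
    rw [hQ]
    refine mul_le_mul_of_nonneg_left (pow_le_pow_right₀ hs1 ?_) (by norm_num)
    rw [Nat.mem_properDivisors] at he'
    obtain ⟨⟨c, hc⟩, he2⟩ := he'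
    have hc2 : 2 ≤ c := by
      rcases c with _ | _ | c
      · omega
      · omega
      · omega
    refine Nat.mul_le_mul_left 2 ?_
    calc (m + 1) * e' ≤ (m * 2) * e' := Nat.mul_le_mul_right _ (by omega)
      _ = m * (e' * 2) := by ring
      _ ≤ m * (e' * c) := Nat.mul_le_mul_left _ (Nat.mul_le_mul_left _ hc2)
      _ = m * e := by rw [hc]
  rw [sum_const, nsmul_eq_mul] at h3
  have h4 : (e.properDivisors.card : ℝ) ≤ e := by
    have : e.properDivisors.card ≤ e := by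
      calc e.properDivisors.card ≤ (range e).card := by
            refine card_le_card fun e' he' => ?_
            rw [Nat.mem_properDivisors] at he'
            exact mem_range.2 he'.2
        _ = e := card_range e
    exact_mod_cast this
  have h5 : (0 : ℝ) ≤ ∑ e' ∈ e.properDivisors, (e' : ℝ) * Fintype.card (CQ p (m + 1) e') := sum_nonneg fun _ _ => by positivity
  have h6 := geo_le ((p : ℝ) ^ e) (pow_two_le e he) m
  have h7 : (0 : ℝ) ≤ ∑ i ∈ range m, ((p : ℝ) ^ e) ^ i := sum_nonneg fun _ _ => by positivity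
  rw [hQ] at h6
  rw [hQ, hQ] at h1
  obtain ⟨A, hA⟩ : ∃ A, A = Real.sqrt p ^ (2 * (m * e)) := ⟨_, rfl⟩
  have hA0 : 0 ≤ A := by rw [hA]; positivity
  rw [← hA] at h1 h3 h6 ⊢
  have h8 : (e.properDivisors.card : ℝ) * (2 * A) ≤ e * (2 * A) := mul_le_mul_of_nonneg_right h4 (by positivity)
  have h9 : (0 : ℝ) ≤ e := Nat.cast_nonneg e
  rw [abs_le]
  constructor
  · nlinarith
  · nlinarith

variable {m : ℕ}

/-- the normalised centred number of the closed points of degree `j + 1`, for independent residues -/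
noncomputable def nsum (j : ℕ) (ω : CQ p (m + 1) (j + 1) → GaloisField p (j + 1)) : ℝ :=
  (∑ P : CQ p (m + 1) (j + 1), ((j : ℝ) + 1) * ph (ω P)) / Real.sqrt p ^ (m * (j + 1))

/-- its moments -/
theorem nsum_mom (m : ℕ) (hm : 1 ≤ m) (j k : ℕ) : ∃ K : ℝ, 0 ≤ K ∧ ∀ (p : ℕ) [Fact p.Prime],
    |av (fun ω : CQ p (m + 1) (j + 1) → GaloisField p (j + 1) => nsum (m := m) j ω ^ k) - Real.sqrt (j + 1) ^ k * gm k| ≤ K / Real.sqrt p := by
  obtain ⟨C, hC, h⟩ := mom_near k
  obtain ⟨J, hJ⟩ : ∃ J : ℝ, J = (j : ℝ) + 1 := ⟨_, rfl⟩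
  have hJ1 : 1 ≤ J := by
    rw [hJ]
    have : (0 : ℝ) ≤ j := Nat.cast_nonneg j
    linarith
  have hJ0 : 0 < J := by linarith
  obtain ⟨G, hG⟩ : ∃ G : ℝ, G = (gm k : ℝ) := ⟨_, rfl⟩
  have hG0 : 0 ≤ G := by
    rw [hG]
    exact Nat.cast_nonneg _
  obtain ⟨R, hR⟩ : ∃ R : ℝ, R = J * (2 * J + 3) := ⟨_, rfl⟩
  have hR1 : 1 ≤ R := by
    rw [hR]
    nlinarith
  refine ⟨C * 2 ^ k * J ^ k + G * (k * R ^ k * R), by positivity, fun p _ => ?_⟩
  have hs1 : 1 ≤ Real.sqrt p := one_le_sqrt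
  obtain ⟨s, hs⟩ : ∃ s, s = Real.sqrt p := ⟨_, rfl⟩
  rw [← hs] at hs1 ⊢
  have hs0 : 0 < s := by linarith
  rcases Nat.eq_zero_or_pos k with rfl | hk
  · simp only [pow_zero]
    rw [av_const, gm_zero]
    norm_num
    positivity
  classical
  have hcardF : (Fintype.card (GaloisField p (j + 1)) : ℝ) = s ^ (2 * (j + 1)) := by
    rw [card_GF (j + 1) (Nat.succ_ne_zero j), hs, sqrt_sq_pow]
    push_cast
    rfl
  obtain ⟨n, hn⟩ : ∃ n : ℕ, n = Fintype.card (CQ p (m + 1) (j + 1)) := ⟨_, rfl⟩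
  have hn1 : J * n ≤ 2 * s ^ (2 * ((m + 1) * (j + 1))) := by
    have := card_CQ_le2 (p := p) (n := m + 1) (j + 1) (Nat.succ_ne_zero j)
    rw [hn, hJ, hs, sqrt_sq_pow]
    push_cast at this
    refine this.trans (le_of_eq ?_)
    rw [← pow_mul, mul_comm (j + 1)]
  have hn2 : |J * n - s ^ (2 * ((m + 1) * (j + 1)))| ≤ (2 * J + 2) * s ^ (2 * (m * (j + 1))) := by
    have := card_CQ_near (p := p) hm (j + 1) (Nat.succ_ne_zero j)
    rw [hn, hJ, hs]
    push_cast at this
    exact this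
  have hn0 : (0 : ℝ) ≤ n := Nat.cast_nonneg n
  obtain ⟨Q, hQ⟩ : ∃ Q : ℝ, Q = s ^ (2 * (j + 1)) := ⟨_, rfl⟩
  have hQs : s ≤ Q := by
    rw [hQ]
    exact le_self_pow₀ hs1 (by omega)
  have hQ1 : 1 ≤ Q := hs1.trans hQs
  have hQ0 : 0 < Q := by linarith
  obtain ⟨S, hS⟩ : ∃ S : ℝ, S = s ^ (m * (j + 1)) := ⟨_, rfl⟩
  have hSs : s ≤ S := by
    rw [hS]
    exact le_self_pow₀ hs1 (Nat.mul_ne_zero (by omega) (by omega))
  have hS1 : 1 ≤ S := hs1.trans hSs
  have hS0 : 0 < S := by linarith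
  have hS2 : s ^ (2 * (m * (j + 1))) = S ^ 2 := by rw [hS, ← pow_mul, mul_comm 2]
  have hSQ : s ^ (2 * ((m + 1) * (j + 1))) = S ^ 2 * Q := by
    rw [← hS2, hQ, ← pow_add]
    congr 1
    ring
  rw [hSQ] at hn1 hn2
  rw [hS2] at hn2
  obtain ⟨σ, hσ⟩ : ∃ σ : ℝ, σ = 1 / Q * (1 - 1 / Q) := ⟨_, rfl⟩
  have hQi : 1 / Q ≤ 1 := by
    rw [div_le_one hQ0]
    exact hQ1
  have hQi0 : 0 ≤ 1 / Q := by positivity
  have hσ0 : 0 ≤ σ := by
    rw [hσ]
    exact mul_nonneg hQi0 (by linarith)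
  have hσ1 : σ ≤ 1 / Q := by
    rw [hσ]
    exact mul_le_of_le_one_right hQi0 (by linarith)
  have hnQ : (n : ℝ) ≤ Q * (2 * S) ^ 2 := by
    have : (n : ℝ) ≤ J * n := le_mul_of_one_le_left hn0 hJ1
    nlinarith [mul_pos (pow_pos hS0 2) hQ0]
  have hmain := h (CQ p (m + 1) (j + 1)) (CQ p (m + 1) (j + 1) → GaloisField p (j + 1)) (GaloisField p (j + 1))
    (fun P => Pi.evalAddMonoidHom _ P) (fun _ => ph) k Q (2 * S) σ hQ1 (by linarith) hσ0 hσ1 univ
    (fun S _ _ z => ⟨z, fun t _ => rfl⟩)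
    (fun t _ => by
      have := loc_ph (B := GaloisField p (j + 1))
      rw [hcardF, ← hQ, ← hσ] at this
      exact this)
    (by
      rw [card_univ, ← hn]
      calc (n : ℝ) * σ ≤ (Q * (2 * S) ^ 2) * (1 / Q) := mul_le_mul hnQ hσ1 hσ0 (by positivity)
        _ = (2 * S) ^ 2 := by field_simp)
    (by
      rw [card_univ, ← hn]
      exact hnQ) k le_rfl le_rfl
  rw [card_univ, ← hn] at hmain
  -- scaling
  obtain ⟨Y, hY⟩ : ∃ Y : ℝ, Y = av (fun c : CQ p (m + 1) (j + 1) → GaloisField p (j + 1) => sm (fun P => Pi.evalAddMonoidHom _ P) univ (fun _ => ph) c ^ k) := ⟨_, rfl⟩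
  have h1 : av (fun ω : CQ p (m + 1) (j + 1) → GaloisField p (j + 1) => nsum (m := m) j ω ^ k) = (J / S) ^ k * Y := by
    rw [hY, ← av_mul]
    congr 1
    funext ω
    rw [← mul_pow]
    congr 1
    unfold nsum sm
    rw [← mul_sum, ← hJ, ← hs, ← hS]
    rw [mul_div_right_comm]
    rfl
  rw [h1]
  obtain ⟨a, ha⟩ : ∃ a : ℝ, a = J / S := ⟨_, rfl⟩
  have ha0 : 0 < a := by
    rw [ha]
    positivity
  rw [← ha]
  have h2 : |a ^ k * Y - a ^ k * ((gm k : ℝ) * (n * σ) ^ (k / 2))| ≤ C * 2 ^ k * J ^ k / s := by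
    rw [← mul_sub, abs_mul, abs_of_pos (pow_pos ha0 k), hY]
    refine (mul_le_mul_of_nonneg_left hmain (pow_pos ha0 k).le).trans ?_
    rw [ha, div_pow]
    have e1 : S ^ k = S ^ (k - 1) * S := by
      rw [← pow_succ, Nat.sub_add_cancel hk]
    have e2 : J ^ k / S ^ k * (C * (2 * S) ^ (k - 1)) = C * 2 ^ (k - 1) * J ^ k / S := by
      rw [e1, mul_pow]
      field_simp
    rw [e2]
    refine div_le_div₀ (by positivity) ?_ hs0 hSs
    have : (2 : ℝ) ^ (k - 1) ≤ 2 ^ k := pow_le_pow_right₀ (by norm_num) (by omega)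
    gcongr
  have h3 : |a ^ k * ((gm k : ℝ) * (n * σ) ^ (k / 2)) - Real.sqrt (j + 1) ^ k * gm k| ≤ G * (k * R ^ k * R) / s := by
    rcases Nat.even_or_odd k with he | ho
    · obtain ⟨h, hh⟩ := he
      have hk2 : k / 2 = h := by omega
      have hk3 : k = 2 * h := by omega
      rw [hk2]
      obtain ⟨x, hx⟩ : ∃ x : ℝ, x = a ^ 2 * (n * σ) := ⟨_, rfl⟩
      have e1 : a ^ k * ((gm k : ℝ) * (n * σ) ^ h) - Real.sqrt (j + 1) ^ k * gm k = G * (x ^ h - J ^ h) := by
        have e2 : x ^ h = a ^ k * (n * σ) ^ h := by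
          rw [hx, mul_pow, ← pow_mul, ← hk3]
        have e3 : Real.sqrt J ^ k = J ^ h := by
          rw [hk3, pow_mul, Real.sq_sqrt hJ0.le]
        rw [e2, ← hJ, e3, hG]
        ring
      rw [e1, abs_mul, abs_of_nonneg hG0, mul_div_assoc]
      refine mul_le_mul_of_nonneg_left ?_ hG0
      obtain ⟨y, hy⟩ : ∃ y : ℝ, y = J * n / (S ^ 2 * Q) := ⟨_, rfl⟩
      have hSQ0 : 0 < S ^ 2 * Q := by positivity
      have hxe : x = J * (y * (1 - 1 / Q)) := by
        rw [hx, ha, hσ, hy]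
        field_simp
      have hy1 : |y - 1| ≤ (2 * J + 2) / Q := by
        have e2 : y - 1 = (J * n - S ^ 2 * Q) / (S ^ 2 * Q) := by
          rw [hy]
          field_simp
        rw [e2, abs_div, abs_of_pos hSQ0, div_le_div_iff₀ hSQ0 hQ0]
        calc |J * n - S ^ 2 * Q| * Q ≤ ((2 * J + 2) * S ^ 2) * Q := mul_le_mul_of_nonneg_right hn2 hQ0.le
          _ = (2 * J + 2) * (S ^ 2 * Q) := by ring
      have hy0 : 0 ≤ y := by
        rw [hy]
        positivity
      have hJQ : (2 * J + 2) / Q ≤ (2 * J + 2) / s := div_le_div_of_nonneg_left (by linarith) hs0 hQs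
      have hJs : (2 * J + 2) / s ≤ 2 * J + 2 := div_le_self (by linarith) hs1
      have hy2 : y ≤ 2 * J + 3 := by
        have := (abs_le.1 hy1).2
        linarith
      have hQsi : 1 / Q ≤ 1 / s := div_le_div_of_nonneg_left zero_le_one hs0 hQs
      have hx0 : 0 ≤ x := by
        rw [hxe]
        exact mul_nonneg hJ0.le (mul_nonneg hy0 (by linarith))
      have hxR : x ≤ R := by
        rw [hxe, hR]
        refine mul_le_mul_of_nonneg_left ?_ hJ0.le
        have : y * (1 - 1 / Q) ≤ y := mul_le_of_le_one_right hy0 (by linarith)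
        linarith
      have hJR : J ≤ R := by
        rw [hR]
        nlinarith
      have hdiff : |x - J| ≤ R / s := by
        have e2 : x - J = J * ((y - 1) * (1 - 1 / Q) - 1 / Q) := by
          rw [hxe]
          ring
        rw [e2, abs_mul, abs_of_pos hJ0, hR, mul_div_assoc]
        refine mul_le_mul_of_nonneg_left ?_ hJ0.le
        have e3 : |(y - 1) * (1 - 1 / Q) - 1 / Q| ≤ |y - 1| + 1 / Q := by
          refine (abs_sub _ _).trans ?_
          rw [abs_mul, abs_of_nonneg hQi0, abs_of_nonneg (by linarith : 0 ≤ 1 - 1 / Q)]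
          have : |y - 1| * (1 - 1 / Q) ≤ |y - 1| := mul_le_of_le_one_right (abs_nonneg _) (by linarith)
          linarith
        have e4 : (2 * J + 3) / s = (2 * J + 2) / s + 1 / s := by
          rw [← add_div]
          ring
        linarith
      have h4 := abs_pow_sub_pow_le x J h
      have h5 : max |x| |J| ≤ R := by
        rw [abs_of_nonneg hx0, abs_of_nonneg hJ0.le]
        exact max_le hxR hJR
      refine h4.trans ?_
      have h6 : (max |x| |J|) ^ (h - 1) ≤ R ^ k := by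
        refine (pow_le_pow_left₀ (le_max_of_le_left (abs_nonneg _)) h5 _).trans ?_
        exact pow_le_pow_right₀ hR1 (by omega)
      have h7 : (h : ℝ) ≤ k := by exact_mod_cast (by omega : h ≤ k)
      have h8 : 0 ≤ (max |x| |J|) ^ (h - 1) := pow_nonneg (le_max_of_le_left (abs_nonneg _)) _
      calc |x - J| * h * (max |x| |J|) ^ (h - 1) ≤ (R / s) * k * R ^ k := by gcongr
        _ = _ := by ring
    · have h0 : gm k = 0 := gm_odd (by simpa using ho)
      rw [h0]
      simp only [Nat.cast_zero, zero_mul, mul_zero, sub_zero, abs_zero]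
      positivity
  have h4 := abs_sub_le (a ^ k * Y) (a ^ k * ((gm k : ℝ) * (n * σ) ^ (k / 2))) (Real.sqrt (j + 1) ^ k * gm k)
  rw [add_div]
  linarith

end

end H36PN
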