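import Pool.Agent.Helper36x.PN.Mod1

/-!
# The normalised numbers of points and their main parts, for independent residues
-/

set_option autoImplicit false
set_option linter.unusedSectionVars false

namespace H36PN

open Finset
open Q282.CL
open Q282MM (gm)
open H35GS (card_GF card_algHom av_hom mom_near Loc1 gm_zero gm_odd sqrt_sq_pow one_le_sqrt eta eta_nonneg eta_le mmt prod_diff av_equiv sm)
open Pool.Agent.Y722.HS (Mon mev mkMon mkMon_apply form eval_form)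

/-- the moments of the main part -/
theorem lvl_mom (m : ℕ) (hm : 1 ≤ m) (j k : ℕ) : ∃ K : ℝ, 0 ≤ K ∧ ∀ (p : ℕ) [Fact p.Prime],
    |av (fun ω : CQ p (m + 1) (j + 1) → GaloisField p (j + 1) => (-nsum (m := m) j ω - eta j) ^ k) - mmt j k| ≤ K / Real.sqrt p := by
  choose K hK h using fun l => nsum_mom m hm j l
  refine ⟨∑ l ∈ range (k + 1), (k.choose l : ℝ) * K l, sum_nonneg fun l _ => mul_nonneg (Nat.cast_nonneg _) (hK l), fun p _ => ?_⟩
  have e1 : (fun ω : CQ p (m + 1) (j + 1) → GaloisField p (j + 1) => (-nsum (m := m) j ω - eta j) ^ k) =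
      fun ω => ∑ l ∈ range (k + 1), ((k.choose l : ℝ) * ((-eta j) ^ (k - l) * (-1) ^ l)) * nsum (m := m) j ω ^ l := by
    funext ω
    rw [sub_eq_add_neg, add_pow]
    refine sum_congr rfl fun l _ => ?_
    rw [neg_pow (nsum (m := m) j ω)]
    ring
  rw [e1, av_sum]
  unfold mmt
  rw [← sum_sub_distrib, sum_div]
  refine (abs_sum_le_sum_abs _ _).trans (sum_le_sum fun l _ => ?_)
  rw [av_mul]
  have h1 := h l p
  obtain ⟨a, ha⟩ : ∃ a : ℝ, a = av (fun ω : CQ p (m + 1) (j + 1) → GaloisField p (j + 1) => nsum (m := m) j ω ^ l) := ⟨_, rfl⟩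
  rw [← ha] at h1 ⊢
  obtain ⟨b, hb⟩ : ∃ b : ℝ, b = Real.sqrt (j + 1) ^ l * gm l := ⟨_, rfl⟩
  rw [← hb] at h1 ⊢
  have hbb : (-1 : ℝ) ^ l * b = b := by
    rcases Nat.even_or_odd l with he | ho
    · rw [he.neg_one_pow, one_mul]
    · rw [hb, gm_odd (Nat.not_even_iff_odd.2 ho)]
      simp
  have e2 : (k.choose l : ℝ) * ((-eta j) ^ (k - l) * (-1) ^ l) * a - (k.choose l : ℝ) * ((-eta j) ^ (k - l) * b) =
      (k.choose l : ℝ) * ((-eta j) ^ (k - l) * (-1) ^ l * (a - b)) := by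
    have : (-eta j) ^ (k - l) * b = (-eta j) ^ (k - l) * ((-1 : ℝ) ^ l * b) := by rw [hbb]
    rw [this]
    ring
  rw [e2, abs_mul, Nat.abs_cast, mul_div_assoc]
  refine mul_le_mul_of_nonneg_left ?_ (Nat.cast_nonneg _)
  rw [abs_mul, abs_mul, abs_pow, abs_pow, abs_neg, abs_neg, abs_one, one_pow, mul_one, abs_of_nonneg (eta_nonneg j)]
  have h2 : eta j ^ (k - l) ≤ 1 := pow_le_one₀ (eta_nonneg j) (eta_le j)
  calc eta j ^ (k - l) * |a - b| ≤ 1 * |a - b| := mul_le_mul_of_nonneg_right h2 (abs_nonneg _)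
    _ = |a - b| := one_mul _
    _ ≤ _ := h1

section

variable {p : ℕ} [hp : Fact p.Prime] {n : ℕ}

lemma av_levels {r : ℕ} (g : ∀ j : Fin r, (CQ p n (j + 1) → GaloisField p (j + 1)) → ℝ) :
    av (fun ω : ∀ P : Pt p n r, BB P => ∏ j, g j (fun P => ω ⟨j, P⟩)) = ∏ j, av (g j) := by
  have h1 := av_equiv (Equiv.piCurry (fun (j : Fin r) (_ : CQ p n (j + 1)) => GaloisField p (j + 1))) (fun z => ∏ j, g j (z j))
  have h2 := av_pi (𝕜 := ℝ) (Ω := fun j : Fin r => CQ p n (j + 1) → GaloisField p (j + 1)) g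
  rw [← h2, ← h1]
  rfl

lemma av_level {r : ℕ} (j : Fin r) (g : (CQ p n (j + 1) → GaloisField p (j + 1)) → ℝ) :
    av (fun ω : ∀ P : Pt p n r, BB P => g (fun P => ω ⟨j, P⟩)) = av g := by
  classical
  have h := av_levels (p := p) (n := n) (fun i : Fin r => if h : i = j then (fun z => g (fun P => h ▸ z (h ▸ P))) else fun _ => (1 : ℝ))
  have e1 : (fun ω : ∀ P : Pt p n r, BB P => ∏ i, (if h : i = j then (fun z => g (fun P => h ▸ z (h ▸ P))) else fun _ => (1 : ℝ)) (fun P : CQ p n (i + 1) => ω ⟨i, P⟩)) =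
      fun ω : ∀ P : Pt p n r, BB P => g (fun P => ω ⟨j, P⟩) := by
    funext ω
    rw [prod_eq_single j]
    · rw [dif_pos rfl]
    · intro i _ hi
      rw [dif_neg hi]
    · intro hj
      exact absurd (mem_univ _) hj
  rw [e1] at h
  rw [h, prod_eq_single j]
  · rw [dif_pos rfl]
  · intro i _ hi
    rw [dif_neg hi, av_const]
  · intro hj
    exact absurd (mem_univ _) hj

open Classical in
/-- the indicator function of zero -/
noncomputable def iz {B : Type} [Zero B] (z : B) : ℝ := if z = 0 then 1 else 0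

lemma iz_map {F L : Type} [Field F] [Field L] [Algebra (ZMod p) F] [Algebra (ZMod p) L] (φ : F →ₐ[ZMod p] L) (x : F) : iz (φ x) = iz x := by
  unfold iz
  by_cases h : x = 0
  · rw [if_pos h, if_pos (by rw [h, map_zero])]
  · rw [if_neg h, if_neg fun h' => h ((map_eq_zero φ).1 h')]

/-- the number of the zeros over `GaloisField p (j + 1)` in terms of the closed points -/
noncomputable def ZZ {r : ℕ} (j : ℕ) (v : ∀ P : Pt p n r, BB P) : ℝ :=
  ∑ P ∈ univ.filter (fun P : Pt p n r => (P.1 : ℕ) + 1 ∣ j + 1), (((P.1 : ℕ) : ℝ) + 1) * iz (v P)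

/-- the part of the degree `e + 1` -/
noncomputable def TT {r : ℕ} (v : ∀ P : Pt p n r, BB P) (e : Fin r) : ℝ :=
  ∑ P : CQ p n (e + 1), (((e : ℕ) : ℝ) + 1) * iz (v ⟨e, P⟩)

lemma ZZ_eq {r : ℕ} (j : ℕ) (v : ∀ P : Pt p n r, BB P) : ZZ j v = ∑ e : Fin r, if (e : ℕ) + 1 ∣ j + 1 then TT v e else 0 := by
  unfold ZZ TT
  rw [sum_filter, Fintype.sum_sigma]
  refine sum_congr rfl fun e _ => ?_
  dsimp only
  split_ifs with h
  · rfl
  · simp

/-- the number of the zeros of the form with the coefficients `c` over `GaloisField p (j + 1)` -/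
lemma ZZ_vl {r D : ℕ} (j : ℕ) (hj : j < r) (c : Mon n D → ZMod p) :
    ZZ (r := r) j (fun P => vl c P) = ∑ v : NV (GaloisField p (j + 1)) n, iz (∑ ν, algebraMap (ZMod p) (GaloisField p (j + 1)) (c ν) * mev v.1 ν) := by
  rw [sum_points (p := p) (n := n) (j + 1) (Nat.succ_ne_zero j) (fun v => iz (∑ ν, algebraMap (ZMod p) (GaloisField p (j + 1)) (c ν) * mev v ν)), ZZ_eq]
  have hR : ∀ e ∈ (j + 1).divisors, ∑ P : CQ p n e, ∑ φ : GaloisField p e →ₐ[ZMod p] GaloisField p (j + 1),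
      iz (∑ ν, algebraMap (ZMod p) (GaloisField p (j + 1)) (c ν) * mev (fun i => φ (rt P i)) ν) =
      ∑ P : CQ p n e, (e : ℝ) * iz (∑ ν, algebraMap (ZMod p) (GaloisField p e) (c ν) * mev (rt P) ν) := by
    intro e he
    have he0 : e ≠ 0 := (Nat.pos_of_mem_divisors he).ne'
    have hd : e ∣ j + 1 := (Nat.mem_divisors.1 he).1
    refine sum_congr rfl fun P _ => ?_
    have h1 : ∀ φ : GaloisField p e →ₐ[ZMod p] GaloisField p (j + 1),
        iz (∑ ν, algebraMap (ZMod p) (GaloisField p (j + 1)) (c ν) * mev (fun i => φ (rt P i)) ν) =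
        iz (∑ ν, algebraMap (ZMod p) (GaloisField p e) (c ν) * mev (rt P) ν) := by
      intro φ
      have h2 : ∑ ν, algebraMap (ZMod p) (GaloisField p (j + 1)) (c ν) * mev (fun i => φ (rt P i)) ν =
          φ (∑ ν, algebraMap (ZMod p) (GaloisField p e) (c ν) * mev (rt P) ν) := by
        rw [map_sum]
        refine sum_congr rfl fun ν _ => ?_
        rw [map_mul, AlgHom.commutes]
        congr 1
        exact (map_mev (φ : GaloisField p e →+* GaloisField p (j + 1)) (rt P) ν).symm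
      rw [h2, iz_map]
    rw [sum_congr rfl fun φ _ => h1 φ, sum_const, card_univ, nsmul_eq_mul, card_algHom he0 (Nat.succ_ne_zero j) hd]
  rw [sum_congr rfl hR]
  refine (Fin.sum_univ_eq_sum_range (fun e => if e + 1 ∣ j + 1 then ∑ P : CQ p n (e + 1), ((e : ℝ) + 1) * iz (∑ ν, algebraMap (ZMod p) (GaloisField p (e + 1)) (c ν) * mev (rt P) ν) else 0) r).trans ?_
  rw [← sum_filter]
  symm
  refine sum_bij' (fun e _ => e - 1) (fun e _ => e + 1) ?_ ?_ ?_ ?_ ?_
  · intro e he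
    have h1 := Nat.pos_of_mem_divisors he
    have h2 := (Nat.mem_divisors.1 he).1
    have h3 := Nat.le_of_dvd (Nat.succ_pos j) h2
    rw [mem_filter, mem_range, Nat.sub_add_cancel h1]
    exact ⟨by omega, h2⟩
  · intro e he
    rw [mem_filter] at he
    rw [Nat.mem_divisors]
    exact ⟨he.2, Nat.succ_ne_zero j⟩
  · intro e he
    exact Nat.sub_add_cancel (Nat.pos_of_mem_divisors he)
  · intro e he
    exact Nat.add_sub_cancel e 1
  · intro e he
    obtain ⟨e, rfl⟩ : ∃ e', e = e' + 1 := ⟨e - 1, (Nat.sub_add_cancel (Nat.pos_of_mem_divisors he)).symm⟩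
    simp only [Nat.add_sub_cancel]
    push_cast
    rfl

variable {m : ℕ}

/-- the normalised power sums -/
noncomputable def SS {r : ℕ} (j : ℕ) (v : ∀ P : Pt p (m + 1) r, BB P) : ℝ :=
  -(ZZ j v - ∑ i ∈ range (m + 1), ((p : ℝ) ^ (j + 1)) ^ i) / Real.sqrt p ^ (m * (j + 1))

/-- the main parts -/
noncomputable def GG {r : ℕ} (j : Fin r) (ω : ∀ P : Pt p (m + 1) r, BB P) : ℝ := -nsum (m := m) j (fun P => ω ⟨j, P⟩) - eta j

/-- the mean value of the part of the degree `e + 1` -/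
noncomputable def cc (p : ℕ) [Fact p.Prime] (m e : ℕ) : ℝ := ((e : ℝ) + 1) * Fintype.card (CQ p (m + 1) (e + 1)) / (p : ℝ) ^ (e + 1)

lemma TT_eq {r : ℕ} (v : ∀ P : Pt p (m + 1) r, BB P) (e : Fin r) :
    TT v e = Real.sqrt p ^ (m * ((e : ℕ) + 1)) * nsum (m := m) e (fun P => v ⟨e, P⟩) + cc p m e := by
  have hs : 0 < Real.sqrt p := lt_of_lt_of_le one_pos one_le_sqrt
  unfold nsum cc TT
  rw [mul_div_cancel₀ _ (by positivity)]
  have h1 : ∀ P : CQ p (m + 1) (e + 1), (((e : ℕ) : ℝ) + 1) * ph (v ⟨e, P⟩) = (((e : ℕ) : ℝ) + 1) * iz (v ⟨e, P⟩) - (((e : ℕ) : ℝ) + 1) / (p : ℝ) ^ ((e : ℕ) + 1) := by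
    intro P
    unfold ph iz
    rw [card_GF ((e : ℕ) + 1) (Nat.succ_ne_zero _)]
    push_cast
    ring
  rw [sum_congr rfl fun P _ => h1 P, sum_sub_distrib, sum_const, card_univ, nsmul_eq_mul]
  ring

/-- the deviation of the mean -/
noncomputable def DE (p : ℕ) [Fact p.Prime] (m r : ℕ) (j : ℕ) : ℝ :=
  (∑ e : Fin r, (if (e : ℕ) + 1 ∣ j + 1 then cc p m e else 0) - ∑ i ∈ range (m + 1), ((p : ℝ) ^ (j + 1)) ^ i) / Real.sqrt p ^ (m * (j + 1))

/-- the value of the lower parts -/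
lemma cc_near (hm : 1 ≤ m) (r : ℕ) (j : ℕ) (e : Fin r) (he : (e : ℕ) + 1 ∣ j + 1) (hej : (e : ℕ) ≠ j) :
    |(cc p m e - ((e : ℝ) + 1) * Fintype.card (CQ p (m + 1) (e + 1)) / (p : ℝ) ^ (j + 1)) / Real.sqrt p ^ (m * (j + 1)) -
      if 2 * ((e : ℕ) + 1) = j + 1 then 1 else 0| ≤ (4 * r + 5) / Real.sqrt p := by
  have hs1 : 1 ≤ Real.sqrt p := one_le_sqrt
  obtain ⟨s, hs⟩ : ∃ s, s = Real.sqrt p := ⟨_, rfl⟩
  rw [← hs] at hs1 ⊢
  have hs0 : 0 < s := by linarith
  have hP : ∀ k : ℕ, (p : ℝ) ^ k = s ^ (2 * k) := fun k => by rw [hs, sqrt_sq_pow]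
  obtain ⟨E, hE⟩ : ∃ E : ℕ, E = (e : ℕ) + 1 := ⟨_, rfl⟩
  have hEr : (E : ℝ) ≤ r := by
    have : E ≤ r := by rw [hE]; exact e.2
    exact_mod_cast this
  obtain ⟨N, hN⟩ : ∃ N : ℝ, N = ((e : ℝ) + 1) * Fintype.card (CQ p (m + 1) (e + 1)) := ⟨_, rfl⟩
  have hN0 : 0 ≤ N := by rw [hN]; positivity
  have hN1 : |N - s ^ (2 * ((m + 1) * E))| ≤ (2 * E + 2) * s ^ (2 * (m * E)) := by
    have := card_CQ_near (p := p) hm ((e : ℕ) + 1) (Nat.succ_ne_zero _)
    rw [hN, hE, hs]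
    push_cast at this ⊢
    exact this
  have hN2 : N ≤ 2 * s ^ (2 * ((m + 1) * E)) := by
    have := card_CQ_le2 (p := p) (n := m + 1) ((e : ℕ) + 1) (Nat.succ_ne_zero _)
    rw [hN, hE]
    push_cast at this
    refine this.trans (le_of_eq ?_)
    rw [← pow_mul, hP, mul_comm ((e : ℕ) + 1)]
  unfold cc
  rw [← hN, ← hE]
  rw [← hE] at he
  have hE0 : 0 < E := by omega
  have heE : (e : ℕ) < E := by omega
  have hEj : E ≠ j + 1 := by omega
  obtain ⟨c, hc⟩ := he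
  have hc2 : 2 ≤ c := by
    rcases c with _ | _ | c
    · omega
    · omega
    · omega
  rw [hP, hP]
  -- the first quotient
  obtain ⟨x, hx⟩ : ∃ x : ℝ, x = N / s ^ (2 * E) / s ^ (m * (j + 1)) := ⟨_, rfl⟩
  have hx0 : 0 ≤ x := by rw [hx]; positivity
  have e1 : (N / s ^ (2 * E) - N / s ^ (2 * (j + 1))) / s ^ (m * (j + 1)) = x * (1 - 1 / s ^ (2 * (j + 1) - 2 * E)) := by
    have h1 : s ^ (2 * (j + 1)) = s ^ (2 * E) * s ^ (2 * (j + 1) - 2 * E) := by
      rw [← pow_add]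
      congr 1
      have : E ≤ j + 1 := by
        rw [hc]
        exact Nat.le_mul_of_pos_right _ (by omega)
      omega
    rw [hx, h1]
    field_simp
  rw [e1]
  have hsub : s ≤ s ^ (2 * (j + 1) - 2 * E) := by
    refine le_self_pow₀ hs1 ?_
    have : E < j + 1 := by
      rw [hc]
      have : 0 < E := by omega
      nlinarith
    omega
  have hi1 : 1 / s ^ (2 * (j + 1) - 2 * E) ≤ 1 / s := one_div_le_one_div_of_le hs0 hsub
  have hi0 : 0 ≤ 1 / s ^ (2 * (j + 1) - 2 * E) := by positivity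
  have hs1' : 1 / s ≤ 1 := by
    rw [div_le_one hs0]
    exact hs1
  by_cases h : 2 * E = j + 1
  · rw [if_pos h]
    have hx1 : |x - 1| ≤ (2 * E + 2) / s := by
      have e2 : s ^ (2 * ((m + 1) * E)) = s ^ (2 * E) * s ^ (m * (j + 1)) := by
        rw [← pow_add, ← h]
        congr 1
        ring
      have e3 : x - 1 = (N - s ^ (2 * ((m + 1) * E))) / s ^ (2 * ((m + 1) * E)) := by
        rw [hx, div_div, ← e2]
        field_simp
      rw [e3, abs_div, abs_of_pos (by positivity : 0 < s ^ (2 * ((m + 1) * E))), div_le_div_iff₀ (by positivity) hs0]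
      calc |N - s ^ (2 * ((m + 1) * E))| * s ≤ ((2 * E + 2) * s ^ (2 * (m * E))) * s ^ (2 * E) := by
            refine mul_le_mul hN1 (le_self_pow₀ hs1 (by omega)) hs0.le (by positivity)
        _ = (2 * E + 2) * s ^ (2 * ((m + 1) * E)) := by
            rw [mul_assoc, ← pow_add]
            congr 2
            ring
    have hx2 : x ≤ 2 * E + 3 := by
      have h1 := (abs_le.1 hx1).2
      have h2 : (2 * (E : ℝ) + 2) / s ≤ 2 * E + 2 := div_le_self (by positivity) hs1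
      linarith
    have e2 : x * (1 - 1 / s ^ (2 * (j + 1) - 2 * E)) - 1 = (x - 1) - x * (1 / s ^ (2 * (j + 1) - 2 * E)) := by ring
    rw [e2]
    refine (abs_sub _ _).trans ?_
    rw [abs_mul, abs_of_nonneg hx0, abs_of_nonneg hi0]
    have h3 : x * (1 / s ^ (2 * (j + 1) - 2 * E)) ≤ (2 * E + 3) * (1 / s) := mul_le_mul hx2 hi1 hi0 (by positivity)
    have h4 : (2 * (E : ℝ) + 2) / s + (2 * E + 3) * (1 / s) = (4 * E + 5) / s := by
      field_simp
      ring
    have h5 : (4 * (E : ℝ) + 5) / s ≤ (4 * r + 5) / s := div_le_div_of_nonneg_right (by linarith) hs0.le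
    linarith
  · rw [if_neg h, sub_zero]
    have hc3 : 3 ≤ c := by
      by_contra h'
      have : c = 2 := by omega
      apply h
      rw [hc, this]
      ring
    have hx1 : x ≤ 2 / s := by
      rw [hx, div_div, div_le_div_iff₀ (by positivity) hs0]
      have h1 : s ^ (2 * ((m + 1) * E)) * s ≤ s ^ (2 * E) * s ^ (m * (j + 1)) := by
        rw [← pow_add, ← pow_succ]
        refine pow_le_pow_right₀ hs1 ?_
        have h2 : m * (E * 3) ≤ m * (j + 1) := by
          rw [hc]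
          exact Nat.mul_le_mul_left _ (Nat.mul_le_mul_left _ hc3)
        have h3 : 1 ≤ m * E := Nat.mul_pos (by omega) (by omega)
        nlinarith
      calc N * s ≤ (2 * s ^ (2 * ((m + 1) * E))) * s := mul_le_mul_of_nonneg_right hN2 hs0.le
        _ = 2 * (s ^ (2 * ((m + 1) * E)) * s) := by ring
        _ ≤ 2 * (s ^ (2 * E) * s ^ (m * (j + 1))) := mul_le_mul_of_nonneg_left h1 (by norm_num)
    rw [abs_mul, abs_of_nonneg hx0, abs_of_nonneg (by linarith : 0 ≤ 1 - 1 / s ^ (2 * (j + 1) - 2 * E))]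
    have h3 : x * (1 - 1 / s ^ (2 * (j + 1) - 2 * E)) ≤ x := mul_le_of_le_one_right hx0 (by linarith)
    have h4 : 2 / s ≤ (4 * (r : ℝ) + 5) / s := by
      refine div_le_div_of_nonneg_right ?_ hs0.le
      have : (0 : ℝ) ≤ r := Nat.cast_nonneg _
      linarith
    linarith

lemma eta_sum {r : ℕ} (j : Fin r) : ∑ e ∈ univ.erase j, (if 2 * ((e : ℕ) + 1) = (j : ℕ) + 1 then (1 : ℝ) else 0) = eta j := by
  rw [← H35GS.eta_sum j, ← add_sum_erase univ _ (mem_univ j), if_neg (by omega), zero_add]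

/-- the mean -/
lemma DE_near (hm : 1 ≤ m) (r : ℕ) (j : Fin r) : |DE p m r j - eta j| ≤ ((r : ℝ) * (4 * r + 5) + 1) / Real.sqrt p := by
  classical
  have hs1 : 1 ≤ Real.sqrt p := one_le_sqrt
  obtain ⟨s, hs⟩ : ∃ s, s = Real.sqrt p := ⟨_, rfl⟩
  have hs0 : 0 < s := by rw [hs]; linarith
  have hsj : 0 < s ^ (m * ((j : ℕ) + 1)) := by positivity
  obtain ⟨Q, hQ⟩ : ∃ Q : ℝ, Q = (p : ℝ) ^ ((j : ℕ) + 1) := ⟨_, rfl⟩
  have hQ0 : 0 < Q := by
    rw [hQ]
    exact pow_pos (by linarith [two_le (p := p)]) _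
  obtain ⟨cd, hcd⟩ : ∃ cd : ℕ → ℝ, cd = fun e : ℕ => (((e : ℕ) : ℝ) + 1) * Fintype.card (CQ p (m + 1) (e + 1)) := ⟨_, rfl⟩
  -- the number of the points of projective space
  have h1 : ∑ i ∈ range (m + 2), Q ^ i = ∑ e : Fin r, if (e : ℕ) + 1 ∣ (j : ℕ) + 1 then cd e else 0 := by
    have h2 := card_points (p := p) (n := m + 1) ((j : ℕ) + 1) (Nat.succ_ne_zero _)
    rw [hQ, h2]
    symm
    refine (Fin.sum_univ_eq_sum_range (fun e => if e + 1 ∣ (j : ℕ) + 1 then cd e else 0) r).trans ?_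
    rw [← sum_filter]
    symm
    refine sum_bij' (fun e _ => e - 1) (fun e _ => e + 1) ?_ ?_ ?_ ?_ ?_
    · intro e he
      have h1 := Nat.pos_of_mem_divisors he
      have h2 := (Nat.mem_divisors.1 he).1
      have h3 := Nat.le_of_dvd (Nat.succ_pos j) h2
      rw [mem_filter, mem_range, Nat.sub_add_cancel h1]
      exact ⟨by omega, h2⟩
    · intro e he
      rw [mem_filter] at he
      rw [Nat.mem_divisors]
      exact ⟨he.2, Nat.succ_ne_zero _⟩
    · intro e he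
      exact Nat.sub_add_cancel (Nat.pos_of_mem_divisors he)
    · intro e he
      exact Nat.add_sub_cancel e 1
    · intro e he
      obtain ⟨e, rfl⟩ : ∃ e', e = e' + 1 := ⟨e - 1, (Nat.sub_add_cancel (Nat.pos_of_mem_divisors he)).symm⟩
      simp only [Nat.add_sub_cancel]
      rw [hcd]
      push_cast
      rfl
  have h2 : ∑ i ∈ range (m + 2), Q ^ i = 1 + Q * ∑ i ∈ range (m + 1), Q ^ i := by
    rw [sum_range_succ', pow_zero, add_comm, mul_sum]
    congr 1
    exact sum_congr rfl fun i _ => by rw [pow_succ]; ring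
  have h3 : ∑ e : Fin r, (if (e : ℕ) + 1 ∣ (j : ℕ) + 1 then cc p m e else 0) - ∑ i ∈ range (m + 1), Q ^ i =
      1 / Q + ∑ e ∈ univ.erase j, (if (e : ℕ) + 1 ∣ (j : ℕ) + 1 then cc p m e - cd e / Q else 0) := by
    have h4 : ∑ i ∈ range (m + 1), Q ^ i = (∑ e : Fin r, if (e : ℕ) + 1 ∣ (j : ℕ) + 1 then cd e / Q else 0) - 1 / Q := by
      have h5 : (∑ e : Fin r, if (e : ℕ) + 1 ∣ (j : ℕ) + 1 then cd e / Q else 0) = (∑ e : Fin r, if (e : ℕ) + 1 ∣ (j : ℕ) + 1 then cd e else 0) / Q := by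
        rw [sum_div]
        exact sum_congr rfl fun e _ => by split_ifs <;> simp
      rw [h5, ← h1, h2]
      field_simp
      ring
    have h6 : ∑ e : Fin r, (if (e : ℕ) + 1 ∣ (j : ℕ) + 1 then cc p m e else 0) - (∑ e : Fin r, if (e : ℕ) + 1 ∣ (j : ℕ) + 1 then cd e / Q else 0) =
        ∑ e : Fin r, (if (e : ℕ) + 1 ∣ (j : ℕ) + 1 then cc p m e - cd e / Q else 0) := by
      rw [← sum_sub_distrib]
      exact sum_congr rfl fun e _ => by split_ifs <;> simp
    have h7 : ∑ e : Fin r, (if (e : ℕ) + 1 ∣ (j : ℕ) + 1 then cc p m e - cd e / Q else 0) = ∑ e ∈ univ.erase j, (if (e : ℕ) + 1 ∣ (j : ℕ) + 1 then cc p m e - cd e / Q else 0) := by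
      rw [← add_sum_erase univ _ (mem_univ j), if_pos dvd_rfl]
      have : cc p m j - cd j / Q = 0 := by
        rw [hcd, hQ]
        unfold cc
        ring
      rw [this, zero_add]
    rw [h4, ← h7, ← h6]
    ring
  have h4 : DE p m r j - eta j = 1 / Q / s ^ (m * ((j : ℕ) + 1)) + ∑ e ∈ univ.erase j,
      ((if (e : ℕ) + 1 ∣ (j : ℕ) + 1 then (cc p m e - cd e / Q) / s ^ (m * ((j : ℕ) + 1)) else 0) - if 2 * ((e : ℕ) + 1) = (j : ℕ) + 1 then 1 else 0) := by
    rw [sum_sub_distrib, eta_sum j]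
    unfold DE
    rw [← hQ, h3, add_div, ← hs, sum_div, add_sub_assoc]
    congr 2
    exact sum_congr rfl fun e _ => by split_ifs <;> simp
  rw [h4]
  have h5 : |1 / Q / s ^ (m * ((j : ℕ) + 1))| ≤ 1 / s := by
    rw [abs_of_nonneg (by positivity), div_div]
    refine one_div_le_one_div_of_le hs0 ?_
    have h6 : s ≤ s ^ (m * ((j : ℕ) + 1)) := by
      refine le_self_pow₀ (by rw [hs]; exact hs1) (Nat.mul_ne_zero (by omega) (by omega))
    have h7 : 1 ≤ Q := by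
      rw [hQ]
      exact one_le_pow₀ (by linarith [two_le (p := p)])
    nlinarith
  have h6 : |∑ e ∈ univ.erase j, ((if (e : ℕ) + 1 ∣ (j : ℕ) + 1 then (cc p m e - cd e / Q) / s ^ (m * ((j : ℕ) + 1)) else 0) - if 2 * ((e : ℕ) + 1) = (j : ℕ) + 1 then (1 : ℝ) else 0)| ≤
      ∑ e : Fin r, (4 * (r : ℝ) + 5) / s := by
    refine (abs_sum_le_sum_abs _ _).trans ?_
    refine le_trans ?_ (sum_le_sum_of_subset_of_nonneg (erase_subset j univ) fun e _ _ => by positivity)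
    refine sum_le_sum fun e he => ?_
    have hej : (e : ℕ) ≠ j := fun h => (ne_of_mem_erase he) (Fin.ext h)
    split_ifs with ha hb hb
    · have := cc_near (p := p) hm r (j : ℕ) e ha hej
      rw [if_pos hb, ← hs, ← hQ] at this
      rw [hcd]
      exact this
    · have := cc_near (p := p) hm r (j : ℕ) e ha hej
      rw [if_neg hb, ← hs, ← hQ] at this
      rw [hcd]
      exact this
    · exact absurd (Dvd.intro_left 2 hb) ha
    · rw [sub_zero, abs_zero]
      positivity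
  rw [sum_const, card_univ, Fintype.card_fin, nsmul_eq_mul] at h6
  rw [← hs]
  refine (abs_add_le _ _).trans ((add_le_add h5 h6).trans (le_of_eq ?_))
  ring

/-- the error -/
lemma SS_near (hm : 1 ≤ m) {r : ℕ} (j : Fin r) (ω : ∀ P : Pt p (m + 1) r, BB P) :
    |SS j ω - GG j ω| ≤ (((r : ℝ) * (4 * r + 5) + 1) + ∑ e : Fin r, |nsum (m := m) e (fun P => ω ⟨e, P⟩)|) / Real.sqrt p := by
  classical
  have hs1 : 1 ≤ Real.sqrt p := one_le_sqrt
  obtain ⟨s, hs⟩ : ∃ s, s = Real.sqrt p := ⟨_, rfl⟩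
  have hs0 : 0 < s := by rw [hs]; linarith
  have hsj : 0 < s ^ (m * ((j : ℕ) + 1)) := by positivity
  obtain ⟨ns, hns⟩ : ∃ ns : Fin r → ℝ, ns = fun e : Fin r => nsum (m := m) (e : ℕ) (fun P => ω ⟨e, P⟩) := ⟨_, rfl⟩
  have h1 : SS j ω - GG j ω = -(DE p m r j - eta j) - ∑ e ∈ univ.erase j, (if (e : ℕ) + 1 ∣ (j : ℕ) + 1 then s ^ (m * ((e : ℕ) + 1)) / s ^ (m * ((j : ℕ) + 1)) * ns e else 0) := by
    have h2 : ZZ (j : ℕ) ω = ∑ e : Fin r, (if (e : ℕ) + 1 ∣ (j : ℕ) + 1 then s ^ (m * ((e : ℕ) + 1)) * ns e else 0) + ∑ e : Fin r, (if (e : ℕ) + 1 ∣ (j : ℕ) + 1 then cc p m e else 0) := by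
      rw [ZZ_eq, ← sum_add_distrib]
      refine sum_congr rfl fun e _ => ?_
      split_ifs
      · rw [TT_eq, hs, hns]
      · simp
    have h3 : ∑ e : Fin r, (if (e : ℕ) + 1 ∣ (j : ℕ) + 1 then s ^ (m * ((e : ℕ) + 1)) * ns e else 0) =
        s ^ (m * ((j : ℕ) + 1)) * ns j + s ^ (m * ((j : ℕ) + 1)) * ∑ e ∈ univ.erase j, (if (e : ℕ) + 1 ∣ (j : ℕ) + 1 then s ^ (m * ((e : ℕ) + 1)) / s ^ (m * ((j : ℕ) + 1)) * ns e else 0) := by
      rw [← add_sum_erase univ _ (mem_univ j), if_pos dvd_rfl, mul_sum]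
      congr 1
      refine sum_congr rfl fun e _ => ?_
      split_ifs
      · field_simp
      · simp
    unfold SS GG DE
    rw [h2, h3, ← hs]
    have h4 : nsum (m := m) j (fun P => ω ⟨j, P⟩) = ns j := by rw [hns]
    rw [h4]
    obtain ⟨A, hA⟩ : ∃ A, A = ∑ e ∈ univ.erase j, (if (e : ℕ) + 1 ∣ (j : ℕ) + 1 then s ^ (m * ((e : ℕ) + 1)) / s ^ (m * ((j : ℕ) + 1)) * ns e else 0) := ⟨_, rfl⟩
    rw [← hA]
    field_simp
    ring
  rw [h1]
  have h2 : |∑ e ∈ univ.erase j, (if (e : ℕ) + 1 ∣ (j : ℕ) + 1 then s ^ (m * ((e : ℕ) + 1)) / s ^ (m * ((j : ℕ) + 1)) * ns e else 0)| ≤ ∑ e : Fin r, |ns e| / s := by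
    refine (abs_sum_le_sum_abs _ _).trans ?_
    refine le_trans ?_ (sum_le_sum_of_subset_of_nonneg (erase_subset j univ) fun e _ _ => by positivity)
    refine sum_le_sum fun e he => ?_
    have hej : (e : ℕ) ≠ j := fun h => (ne_of_mem_erase he) (Fin.ext h)
    split_ifs with ha
    · rw [abs_mul, abs_of_pos (by positivity : 0 < s ^ (m * ((e : ℕ) + 1)) / s ^ (m * ((j : ℕ) + 1)))]
      have h3 : s ^ (m * ((e : ℕ) + 1)) / s ^ (m * ((j : ℕ) + 1)) ≤ 1 / s := by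
        rw [div_le_div_iff₀ hsj hs0, one_mul, ← pow_succ]
        refine pow_le_pow_right₀ (by rw [hs]; exact hs1) ?_
        have h4 : (e : ℕ) + 1 ≤ j := by
          have := Nat.le_of_dvd (Nat.succ_pos _) ha
          omega
        calc m * ((e : ℕ) + 1) + 1 ≤ m * (j : ℕ) + m := add_le_add (Nat.mul_le_mul_left _ h4) hm
          _ = m * ((j : ℕ) + 1) := by ring
      calc s ^ (m * ((e : ℕ) + 1)) / s ^ (m * ((j : ℕ) + 1)) * |ns e| ≤ (1 / s) * |ns e| := mul_le_mul_of_nonneg_right h3 (abs_nonneg _)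
        _ = |ns e| / s := by ring
    · rw [abs_zero]
      positivity
  have h3 := DE_near (p := p) hm r j
  rw [← sum_div] at h2
  rw [← hs] at h3 ⊢
  refine (abs_sub _ _).trans ?_
  rw [abs_neg, add_div]
  rw [hns] at h2
  exact add_le_add h3 (by rw [hns]; exact h2)

end

end H36PN
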