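import Pool.Agent.Helper36x.PN.Mod2

/-!
# The joint moments of the normalised power sums over the forms modulo `p`, uniformly in the degree
-/

set_option autoImplicit false
set_option linter.unusedSectionVars false

namespace H36PN

open Finset
open Q282.CL
open Q282MM (gm)
open H35GS (card_GF card_algHom av_hom mom_near Loc1 gm_zero gm_odd sqrt_sq_pow one_le_sqrt eta eta_nonneg eta_le mmt prod_diff av_equiv sm)
open Pool.Agent.Y722.HS (Mon mev mkMon mkMon_apply form eval_form)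

lemma sum_pow_le {r : ℕ} (a : Fin r → ℝ) (ha : ∀ i, 0 ≤ a i) (M : ℕ) (hM : M ≠ 0) : (∑ i, a i) ^ M ≤ (r : ℝ) ^ M * ∑ i, a i ^ M := by
  rcases Nat.eq_zero_or_pos r with rfl | hr
  · simp [hM]
  have : Nonempty (Fin r) := ⟨⟨0, hr⟩⟩
  obtain ⟨i₀, h⟩ := Finite.exists_max a
  have h1 : ∑ i, a i ≤ r * a i₀ := by
    calc ∑ i, a i ≤ ∑ i : Fin r, a i₀ := sum_le_sum fun i _ => h i
      _ = r * a i₀ := by rw [sum_const, card_univ, Fintype.card_fin, nsmul_eq_mul]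
  calc (∑ i, a i) ^ M ≤ (r * a i₀) ^ M := pow_le_pow_left₀ (sum_nonneg fun i _ => ha i) h1 M
    _ = (r : ℝ) ^ M * a i₀ ^ M := mul_pow _ _ _
    _ ≤ (r : ℝ) ^ M * ∑ i, a i ^ M := by
      refine mul_le_mul_of_nonneg_left ?_ (by positivity)
      exact single_le_sum (f := fun i => a i ^ M) (fun i _ => pow_nonneg (ha i) _) (mem_univ i₀)

/-- the products of the normalised power sums and of their main parts -/
theorem prod_near (m : ℕ) (hm : 1 ≤ m) {r : ℕ} (k : Fin r → ℕ) : ∃ K : ℝ, 0 ≤ K ∧ ∀ (p : ℕ) [Fact p.Prime],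
    av (fun ω : ∀ P : Pt p (m + 1) r, BB P => |∏ j : Fin r, SS j ω ^ k j - ∏ j : Fin r, GG j ω ^ k j|) ≤ K / Real.sqrt p := by
  classical
  obtain ⟨n, hn⟩ : ∃ n : ℕ, n = Fintype.card (Σ j : Fin r, Fin (k j)) := ⟨_, rfl⟩
  obtain ⟨L, hL⟩ : ∃ L : ℕ, L = 2 * (n + 1) := ⟨_, rfl⟩
  choose B hB hmom using fun j : Fin r => nsum_mom m hm (j : ℕ) L
  obtain ⟨A, hA⟩ : ∃ A : ℝ, A = (r : ℝ) * (4 * r + 5) + 1 := ⟨_, rfl⟩
  have hA1 : 1 ≤ A := by
    rw [hA]
    have : (0 : ℝ) ≤ r * (4 * r + 5) := by positivity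
    linarith
  obtain ⟨V, hV⟩ : ∃ V : ℝ, V = 2 ^ (L - 1) * (1 + (r : ℝ) ^ L * ∑ e : Fin r, (Real.sqrt ((e : ℕ) + 1) ^ L * gm L + B e)) := ⟨_, rfl⟩
  have hV0 : 0 ≤ V := by
    rw [hV]
    refine mul_nonneg (by positivity) (add_nonneg zero_le_one (mul_nonneg (by positivity) (sum_nonneg fun e _ => ?_)))
    exact add_nonneg (mul_nonneg (by positivity) (Nat.cast_nonneg _)) (hB e)
  refine ⟨(n * A * (2 + A) ^ n) * V, by positivity, fun p _ => ?_⟩
  have hs1 : 1 ≤ Real.sqrt p := one_le_sqrt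
  obtain ⟨s, hs⟩ : ∃ s, s = Real.sqrt p := ⟨_, rfl⟩
  rw [← hs] at hs1 ⊢
  have hs0 : 0 < s := by linarith
  obtain ⟨X, hX⟩ : ∃ X : (∀ P : Pt p (m + 1) r, BB P) → ℝ, X = fun ω => 1 + ∑ e : Fin r, |nsum (m := m) e (fun P => ω ⟨e, P⟩)| := ⟨_, rfl⟩
  have hX1 : ∀ ω, 1 ≤ X ω := by
    intro ω
    rw [hX]
    have : 0 ≤ ∑ e : Fin r, |nsum (m := m) e (fun P => ω ⟨e, P⟩)| := sum_nonneg fun _ _ => abs_nonneg _
    dsimp only
    linarith
  have hpt : ∀ ω : ∀ P : Pt p (m + 1) r, BB P, |∏ j : Fin r, SS j ω ^ k j - ∏ j : Fin r, GG j ω ^ k j| ≤ (n * A * (2 + A) ^ n) / s * X ω ^ L := by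
    intro ω
    have e1 : ∀ x : Fin r → ℝ, ∏ j, x j ^ k j = ∏ i : (Σ j : Fin r, Fin (k j)), x i.1 := by
      intro x
      rw [Fintype.prod_sigma]
      refine prod_congr rfl fun j _ => ?_
      dsimp only
      rw [prod_const, card_univ, Fintype.card_fin]
    rw [e1 fun j => SS j ω, e1 fun j => GG j ω]
    have h1 := prod_diff (univ : Finset (Σ j : Fin r, Fin (k j))) (fun i => GG i.1 ω) (fun i => SS i.1 ω - GG i.1 ω)
    have e2 : ∏ i : (Σ j : Fin r, Fin (k j)), (GG i.1 ω + (SS i.1 ω - GG i.1 ω)) = ∏ i : (Σ j : Fin r, Fin (k j)), SS i.1 ω :=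
      prod_congr rfl fun i _ => by ring
    rw [e2] at h1
    refine h1.trans ?_
    have hx1 := hX1 ω
    have hy : ∀ j : Fin r, |SS j ω - GG j ω| ≤ A * X ω / s := by
      intro j
      have h2 := SS_near (p := p) hm j ω
      rw [← hA, ← hs] at h2
      refine h2.trans (div_le_div_of_nonneg_right ?_ hs0.le)
      rw [hX]
      have : 0 ≤ ∑ e : Fin r, |nsum (m := m) e (fun P => ω ⟨e, P⟩)| := sum_nonneg fun _ _ => abs_nonneg _
      dsimp only
      nlinarith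
    have hy2 : ∀ j : Fin r, |SS j ω - GG j ω| ≤ A * X ω := fun j => (hy j).trans (div_le_self (by positivity) hs1)
    have hg : ∀ j : Fin r, |GG j ω| ≤ X ω := by
      intro j
      unfold GG
      rw [hX]
      have h2 : |nsum (m := m) j (fun P => ω ⟨j, P⟩)| ≤ ∑ e : Fin r, |nsum (m := m) e (fun P => ω ⟨e, P⟩)| :=
        single_le_sum (f := fun e : Fin r => |nsum (m := m) e (fun P => ω ⟨e, P⟩)|) (fun _ _ => abs_nonneg _) (mem_univ j)
      refine (abs_sub _ _).trans ?_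
      rw [abs_neg, abs_of_nonneg (eta_nonneg _)]
      have := eta_le (j : ℕ)
      dsimp only
      linarith
    have h2 : ∑ i : (Σ j : Fin r, Fin (k j)), |SS i.1 ω - GG i.1 ω| ≤ n * (A * X ω / s) := by
      calc ∑ i : (Σ j : Fin r, Fin (k j)), |SS i.1 ω - GG i.1 ω| ≤ ∑ i : (Σ j : Fin r, Fin (k j)), A * X ω / s := sum_le_sum fun i _ => hy i.1
        _ = n * (A * X ω / s) := by rw [sum_const, card_univ, ← hn, nsmul_eq_mul]
    have h3 : ∏ i : (Σ j : Fin r, Fin (k j)), (1 + |GG i.1 ω| + |SS i.1 ω - GG i.1 ω|) ≤ ((2 + A) * X ω) ^ n := by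
      calc ∏ i : (Σ j : Fin r, Fin (k j)), (1 + |GG i.1 ω| + |SS i.1 ω - GG i.1 ω|) ≤ ∏ i : (Σ j : Fin r, Fin (k j)), ((2 + A) * X ω) := by
            refine prod_le_prod (fun i _ => by positivity) fun i _ => ?_
            have := hg i.1
            have := hy2 i.1
            nlinarith
        _ = ((2 + A) * X ω) ^ n := by rw [prod_const, card_univ, ← hn]
    have hX0 : 0 ≤ X ω := by linarith
    calc (∑ i : (Σ j : Fin r, Fin (k j)), |SS i.1 ω - GG i.1 ω|) * ∏ i : (Σ j : Fin r, Fin (k j)), (1 + |GG i.1 ω| + |SS i.1 ω - GG i.1 ω|)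
        ≤ (n * (A * X ω / s)) * ((2 + A) * X ω) ^ n := mul_le_mul h2 h3 (prod_nonneg fun i _ => by positivity) (by positivity)
      _ = (n * A * (2 + A) ^ n) / s * X ω ^ (n + 1) := by
          rw [mul_pow, pow_succ]
          ring
      _ ≤ (n * A * (2 + A) ^ n) / s * X ω ^ L := by
          refine mul_le_mul_of_nonneg_left (pow_le_pow_right₀ hx1 (by omega)) (by positivity)
  have hXV : av (fun ω => X ω ^ L) ≤ V := by
    have h1 : ∀ ω, X ω ^ L ≤ 2 ^ (L - 1) * (1 + (r : ℝ) ^ L * ∑ e : Fin r, nsum (m := m) e (fun P => ω ⟨e, P⟩) ^ L) := by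
      intro ω
      have h2 : 0 ≤ ∑ e : Fin r, |nsum (m := m) e (fun P => ω ⟨e, P⟩)| := sum_nonneg fun _ _ => abs_nonneg _
      have h3 := add_pow_le zero_le_one h2 L
      have h4 : X ω ^ L = (1 + ∑ e : Fin r, |nsum (m := m) e (fun P => ω ⟨e, P⟩)|) ^ L := by rw [hX]
      rw [h4]
      refine h3.trans (mul_le_mul_of_nonneg_left ?_ (by positivity))
      rw [one_pow]
      refine add_le_add le_rfl ?_
      refine (sum_pow_le (fun e : Fin r => |nsum (m := m) e (fun P => ω ⟨e, P⟩)|) (fun _ => abs_nonneg _) L (by omega)).trans ?_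
      refine mul_le_mul_of_nonneg_left (le_of_eq (sum_congr rfl fun e _ => ?_)) (by positivity)
      rw [hL, pow_mul, sq_abs, ← pow_mul]
    refine (av_mono h1).trans ?_
    rw [av_mul, av_add, av_const, av_mul, av_sum, hV]
    refine mul_le_mul_of_nonneg_left (add_le_add le_rfl (mul_le_mul_of_nonneg_left (sum_le_sum fun e _ => ?_) (by positivity))) (by positivity)
    have h2 := av_level (p := p) e (fun z => nsum (m := m) e z ^ L)
    rw [h2]
    have h3 := (abs_le.1 (hmom e p)).2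
    have h4 : B e / Real.sqrt p ≤ B e := div_le_self (hB e) (by rw [← hs]; exact hs1)
    linarith
  refine (av_mono hpt).trans ?_
  rw [av_mul]
  have h1 : 0 ≤ (n * A * (2 + A) ^ n) / s := by positivity
  refine (mul_le_mul_of_nonneg_left hXV h1).trans (le_of_eq ?_)
  ring

/-- the joint moments of the normalised power sums over the forms of degree `D`, uniformly in `D` -/
theorem loc (m : ℕ) (hm : 1 ≤ m) {r : ℕ} (k : Fin r → ℕ) : ∃ K : ℝ, 0 ≤ K ∧ ∀ (p : ℕ) [Fact p.Prime],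
    ∀ D : ℕ, ∑ j : Fin r, ((j : ℕ) + 1) * k j ≤ D + 1 →
    |av (fun c : Mon (m + 1) D → ZMod p => ∏ j : Fin r, SS (r := r) j (fun P => vl c P) ^ k j) - ∏ j : Fin r, mmt j (k j)| ≤ K / Real.sqrt p := by
  classical
  obtain ⟨K₁, hK₁, h₁⟩ := prod_near m hm k
  choose L hL hmom using fun j : Fin r => lvl_mom m hm j (k j)
  refine ⟨K₁ + (∑ j, L j) * ∏ j : Fin r, (1 + |mmt j (k j)| + L j), add_nonneg hK₁ (mul_nonneg (sum_nonneg fun j _ => hL j) (prod_nonneg fun j _ => by have := hL j; positivity)),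
    fun p _ D hD => ?_⟩
  have hs1 : 1 ≤ Real.sqrt p := one_le_sqrt
  have hs0 : 0 < Real.sqrt p := by linarith
  -- transfer
  obtain ⟨κ, hκ⟩ : ∃ κ : (Σ j : Fin r, Fin (k j)) → ℝ, κ = fun i => (∑ l ∈ range (m + 1), ((p : ℝ) ^ ((i.1 : ℕ) + 1)) ^ l) / Real.sqrt p ^ (m * ((i.1 : ℕ) + 1)) := ⟨_, rfl⟩
  have e1 : ∀ v : ∀ P : Pt p (m + 1) r, BB P, ∏ j : Fin r, SS j v ^ k j = ∏ i : (Σ j : Fin r, Fin (k j)),
      (∑ P ∈ univ.filter (fun P : Pt p (m + 1) r => (P.1 : ℕ) + 1 ∣ (i.1 : ℕ) + 1), (fun (i : Σ j : Fin r, Fin (k j)) (P : Pt p (m + 1) r) (z : BB P) =>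
        -((((P.1 : ℕ) : ℝ) + 1) * iz z) / Real.sqrt p ^ (m * ((i.1 : ℕ) + 1))) i P (v P) + κ i) := by
    intro v
    have h0 : ∀ i : (Σ j : Fin r, Fin (k j)), (∑ P ∈ univ.filter (fun P : Pt p (m + 1) r => (P.1 : ℕ) + 1 ∣ (i.1 : ℕ) + 1), (fun (i : Σ j : Fin r, Fin (k j)) (P : Pt p (m + 1) r) (z : BB P) =>
        -((((P.1 : ℕ) : ℝ) + 1) * iz z) / Real.sqrt p ^ (m * ((i.1 : ℕ) + 1))) i P (v P) + κ i) = SS i.1 v := by
      intro i
      dsimp only
      unfold SS ZZ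
      rw [← sum_div, sum_neg_distrib, hκ, ← add_div]
      congr 1
      ring
    rw [prod_congr rfl fun i _ => h0 i, Fintype.prod_sigma]
    refine prod_congr rfl fun j _ => ?_
    dsimp only
    rw [prod_const, card_univ, Fintype.card_fin]
  have htr := transfer_const (p := p) (n := m + 1) r D (fun i : (Σ j : Fin r, Fin (k j)) => univ.filter (fun P : Pt p (m + 1) r => (P.1 : ℕ) + 1 ∣ (i.1 : ℕ) + 1))
    (fun i => (i.1 : ℕ) + 1) (fun i P hP => Nat.le_of_dvd (Nat.succ_pos _) (mem_filter.1 hP).2)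
    (by
      rw [Fintype.sum_sigma]
      refine le_trans (le_of_eq ?_) hD
      refine sum_congr rfl fun j _ => ?_
      dsimp only
      rw [sum_const, card_univ, Fintype.card_fin, smul_eq_mul, mul_comm])
    (fun (i : Σ j : Fin r, Fin (k j)) (P : Pt p (m + 1) r) (z : BB P) =>
        -((((P.1 : ℕ) : ℝ) + 1) * iz z) / Real.sqrt p ^ (m * ((i.1 : ℕ) + 1))) κ
  have e2 : (fun c : Mon (m + 1) D → ZMod p => ∏ j : Fin r, SS (r := r) j (fun P => vl c P) ^ k j) = fun c => ∏ i : (Σ j : Fin r, Fin (k j)),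
      (∑ P ∈ univ.filter (fun P : Pt p (m + 1) r => (P.1 : ℕ) + 1 ∣ (i.1 : ℕ) + 1), (fun (i : Σ j : Fin r, Fin (k j)) (P : Pt p (m + 1) r) (z : BB P) =>
        -((((P.1 : ℕ) : ℝ) + 1) * iz z) / Real.sqrt p ^ (m * ((i.1 : ℕ) + 1))) i P (vl c P) + κ i) := by
    funext c
    exact e1 fun P => vl c P
  have e3 : (fun ω : ∀ P : Pt p (m + 1) r, BB P => ∏ i : (Σ j : Fin r, Fin (k j)),
      (∑ P ∈ univ.filter (fun P : Pt p (m + 1) r => (P.1 : ℕ) + 1 ∣ (i.1 : ℕ) + 1), (fun (i : Σ j : Fin r, Fin (k j)) (P : Pt p (m + 1) r) (z : BB P) =>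
        -((((P.1 : ℕ) : ℝ) + 1) * iz z) / Real.sqrt p ^ (m * ((i.1 : ℕ) + 1))) i P (ω P) + κ i)) =
      fun ω => ∏ j : Fin r, SS j ω ^ k j := by
    funext ω
    exact (e1 ω).symm
  rw [e2, htr, e3]
  -- the main parts
  have h2 : |av (fun ω : ∀ P : Pt p (m + 1) r, BB P => ∏ j : Fin r, SS j ω ^ k j) - av (fun ω : ∀ P : Pt p (m + 1) r, BB P => ∏ j : Fin r, GG j ω ^ k j)| ≤ K₁ / Real.sqrt p := by
    rw [← av_sub]
    exact (abs_av_le _).trans (h₁ p)
  have h3 : av (fun ω : ∀ P : Pt p (m + 1) r, BB P => ∏ j : Fin r, GG j ω ^ k j) =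
      ∏ j : Fin r, av (fun z : CQ p (m + 1) (j + 1) → GaloisField p (j + 1) => (-nsum (m := m) j z - eta j) ^ k j) :=
    av_levels (p := p) (n := m + 1) (fun (j : Fin r) z => (-nsum (m := m) j z - eta j) ^ k j)
  obtain ⟨q, hq⟩ : ∃ q : Fin r → ℝ, q = fun j : Fin r => av (fun z : CQ p (m + 1) (j + 1) → GaloisField p (j + 1) => (-nsum (m := m) j z - eta j) ^ k j) := ⟨_, rfl⟩
  have h4 : |∏ j : Fin r, q j - ∏ j : Fin r, mmt j (k j)| ≤ ((∑ j, L j) * ∏ j : Fin r, (1 + |mmt j (k j)| + L j)) / Real.sqrt p := by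
    have h5 := prod_diff (univ : Finset (Fin r)) (fun j => mmt j (k j)) (fun j => q j - mmt j (k j))
    have e4 : ∏ j : Fin r, (mmt j (k j) + (q j - mmt j (k j))) = ∏ j, q j := prod_congr rfl fun j _ => by ring
    rw [e4] at h5
    refine h5.trans ?_
    have h6 : ∀ j : Fin r, |q j - mmt j (k j)| ≤ L j / Real.sqrt p := by
      intro j
      rw [hq]
      exact hmom j p
    rw [mul_comm (∑ j, L j), mul_div_assoc, mul_comm, sum_div]
    refine mul_le_mul ?_ (sum_le_sum fun j _ => h6 j) (sum_nonneg fun j _ => abs_nonneg _) (prod_nonneg fun j _ => by have := hL j; positivity)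
    refine prod_le_prod (fun j _ => by positivity) fun j _ => ?_
    have h7 := h6 j
    have h8 : L j / Real.sqrt p ≤ L j := div_le_self (hL j) hs1
    linarith
  have h5 : av (fun ω : ∀ P : Pt p (m + 1) r, BB P => ∏ j : Fin r, GG j ω ^ k j) = ∏ j : Fin r, q j := by
    rw [h3, hq]
  rw [h5] at h2
  rw [add_div]
  calc _ = |(av (fun ω : ∀ P : Pt p (m + 1) r, BB P => ∏ j : Fin r, SS j ω ^ k j) - ∏ j : Fin r, q j) + (∏ j : Fin r, q j - ∏ j : Fin r, mmt j (k j))| := by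
        congr 1
        ring
    _ ≤ _ := (abs_add_le _ _).trans (add_le_add h2 h4)

end H36PN
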