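import Mathlib
import Pool.Agent.Y722.HS.Bad

/-!
# Normalised coordinates of the points of projective space; forms of degree `D` separate `D + 1` points
-/

set_option autoImplicit false

namespace H36PN

open Finset
open Pool.Agent.Y722.HS (Mon mev mkMon mkMon_apply form eval_form)
open scoped LinearAlgebra.Projectivization

variable {n : ℕ}

/-- the first coordinate which is not zero is one -/
def Nrm {F : Type} [Field F] (v : Fin (n + 1) → F) : Prop := ∃ i, v i = 1 ∧ ∀ j < i, v j = 0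

section

variable {F : Type} [Field F]

lemma Nrm.ne {v : Fin (n + 1) → F} (h : Nrm v) : v ≠ 0 := by
  obtain ⟨i, hi, _⟩ := h
  intro h0
  rw [h0] at hi
  exact one_ne_zero hi.symm

lemma nrm_map {F' : Type} [Field F'] (φ : F →+* F') (v : Fin (n + 1) → F) : Nrm (fun i => φ (v i)) ↔ Nrm v := by
  constructor
  · rintro ⟨i, hi, hj⟩
    refine ⟨i, φ.injective (by rw [map_one]; exact hi), fun j hji => φ.injective (by rw [map_zero]; exact hj j hji)⟩
  · rintro ⟨i, hi, hj⟩
    refine ⟨i, ?_, fun j hji => ?_⟩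
    · show φ (v i) = 1
      rw [hi, map_one]
    · show φ (v j) = 0
      rw [hj j hji, map_zero]

/-- different normalised vectors are not proportional -/
lemma nrm_ne {v w : Fin (n + 1) → F} (hv : Nrm v) (hw : Nrm w) (h : v ≠ w) : ∃ i j, v i * w j ≠ v j * w i := by
  by_contra hcon
  push Not at hcon
  apply h
  obtain ⟨a, ha, ha'⟩ := hv
  obtain ⟨b, hb, hb'⟩ := hw
  have hab : a = b := by
    rcases lt_trichotomy a b with h1 | h1 | h1
    · have h2 := hcon a b
      rw [ha, hb, hb' a h1] at h2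
      simp at h2
    · exact h1
    · have h2 := hcon b a
      rw [ha, hb, ha' b h1] at h2
      simp at h2
  subst hab
  funext i
  have h2 := hcon i a
  rw [ha, hb, mul_one, one_mul] at h2
  exact h2

/-- the exponent vector of a monomial -/
noncomputable def toFs {D : ℕ} (ν : Mon n D) : Fin (n + 1) →₀ ℕ := Finsupp.equivFunOnFinite.symm (fun i => (ν.1 i : ℕ))

lemma toFs_inj {D : ℕ} : Function.Injective (toFs (n := n) (D := D)) := by
  intro μ ν h
  have h1 := Finsupp.equivFunOnFinite.symm.injective h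
  apply Subtype.ext
  funext i
  exact Fin.ext (congrFun h1 i)

/-- the value of a form, by its coefficients -/
lemma eval_hom {D : ℕ} (P : MvPolynomial (Fin (n + 1)) F) (hP : P.IsHomogeneous D) (x : Fin (n + 1) → F) :
    MvPolynomial.eval x P = ∑ ν : Mon n D, P.coeff (toFs ν) * mev x ν := by
  classical
  rw [MvPolynomial.eval_eq']
  have h1 : ∀ ν : Mon n D, P.coeff (toFs ν) * mev x ν =
      (fun m : Fin (n + 1) →₀ ℕ => P.coeff m * ∏ i, x i ^ m i) (toFs ν) := by
    intro ν
    simp [mev, toFs]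
  rw [Finset.sum_congr rfl fun ν _ => h1 ν, ← Finset.sum_image (s := Finset.univ)
    (f := fun m : Fin (n + 1) →₀ ℕ => P.coeff m * ∏ i, x i ^ m i)
    (g := toFs (n := n) (D := D)) (fun a _ b _ h => toFs_inj h)]
  apply Finset.sum_subset
  · intro m hm
    rw [Finset.mem_image]
    have h2 : ∑ i, m i = D := by
      have h3 := hP (MvPolynomial.mem_support_iff.mp hm)
      rw [Finsupp.weight_apply, Finsupp.sum_fintype _ _ (fun i => by simp)] at h3
      simpa using h3
    refine ⟨mkMon (fun i => m i) h2, Finset.mem_univ _, ?_⟩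
    ext i
    simp [toFs]
  · intro m _ hm
    rw [MvPolynomial.notMem_support_iff.mp hm]
    simp

/-- forms of degree `D` separate `D + 1` points -/
lemma exists_form {D : ℕ} (a : Fin (n + 1) → F) (ha : Nrm a) (T : Finset (Fin (n + 1) → F)) (hTn : ∀ t ∈ T, Nrm t) (hT : T.card ≤ D)
    (haT : a ∉ T) : ∃ c : Mon n D → F, ∑ ν, c ν * mev a ν ≠ 0 ∧ ∀ t ∈ T, ∑ ν, c ν * mev t ν = 0 := by
  classical
  have hne : ∀ t : T, ∃ i j, a i * t.1 j ≠ a j * t.1 i := fun t => nrm_ne ha (hTn t t.2) fun h => haT (h ▸ t.2)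
  choose i j hij using hne
  obtain ⟨k, hk⟩ : ∃ k, a k ≠ 0 := Function.ne_iff.mp ha.ne
  obtain ⟨P, hP⟩ : ∃ P : MvPolynomial (Fin (n + 1)) F, P = (∏ t : T, (MvPolynomial.C (t.1 (j t)) * MvPolynomial.X (i t) -
    MvPolynomial.C (t.1 (i t)) * MvPolynomial.X (j t))) * MvPolynomial.X k ^ (D - T.card) := ⟨_, rfl⟩
  have hhom : P.IsHomogeneous D := by
    have h1 : (∏ t : T, (MvPolynomial.C (t.1 (j t)) * MvPolynomial.X (i t) -
        MvPolynomial.C (t.1 (i t)) * MvPolynomial.X (j t)) : MvPolynomial (Fin (n + 1)) F).IsHomogeneous (∑ _t : T, 1) := by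
      refine MvPolynomial.IsHomogeneous.prod _ _ _ fun t _ => ?_
      refine MvPolynomial.IsHomogeneous.sub ?_ ?_
      · exact MvPolynomial.isHomogeneous_C_mul_X _ _
      · exact MvPolynomial.isHomogeneous_C_mul_X _ _
    have h2 := h1.mul (MvPolynomial.isHomogeneous_X_pow (R := F) k (D - T.card))
    rw [hP]
    have h3 : (∑ _t : T, 1) + (D - T.card) = D := by
      rw [sum_const, card_univ, Fintype.card_coe, smul_eq_mul, mul_one]
      omega
    rwa [h3] at h2
  refine ⟨fun ν => P.coeff (toFs ν), ?_, fun t ht => ?_⟩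
  · rw [← eval_hom P hhom, hP, map_mul, map_prod, map_pow, MvPolynomial.eval_X]
    refine mul_ne_zero (prod_ne_zero_iff.2 fun t _ => ?_) (pow_ne_zero _ hk)
    rw [map_sub, map_mul, map_mul, MvPolynomial.eval_C, MvPolynomial.eval_C, MvPolynomial.eval_X, MvPolynomial.eval_X, sub_ne_zero]
    intro h
    apply hij t
    rw [mul_comm, h, mul_comm]
  · rw [← eval_hom P hhom, hP, map_mul, map_prod]
    rw [prod_eq_zero (mem_univ (⟨t, ht⟩ : T)), zero_mul]
    rw [map_sub, map_mul, map_mul, MvPolynomial.eval_C, MvPolynomial.eval_C, MvPolynomial.eval_X, MvPolynomial.eval_X]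
    ring

/-! ### projective space -/

/-- every point has one normalised vector -/
lemma exists_nrm (v : Fin (n + 1) → F) (hv : v ≠ 0) : ∃ a : F, a ≠ 0 ∧ Nrm (a • v) := by
  classical
  obtain ⟨k, hk⟩ : ∃ k, v k ≠ 0 := Function.ne_iff.mp hv
  have hne : (univ.filter fun k => v k ≠ 0).Nonempty := ⟨k, mem_filter.2 ⟨mem_univ _, hk⟩⟩
  obtain ⟨i, hi⟩ : ∃ i, i = (univ.filter fun k => v k ≠ 0).min' hne := ⟨_, rfl⟩
  have hi0 : v i ≠ 0 := by
    have := (univ.filter fun k => v k ≠ 0).min'_mem hne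
    rw [← hi] at this
    exact (mem_filter.1 this).2
  refine ⟨(v i)⁻¹, inv_ne_zero hi0, i, by rw [Pi.smul_apply, smul_eq_mul, inv_mul_cancel₀ hi0], fun j hj => ?_⟩
  rw [Pi.smul_apply, smul_eq_mul]
  have : v j = 0 := by
    by_contra h0
    have := (univ.filter fun k => v k ≠ 0).min'_le j (mem_filter.2 ⟨mem_univ _, h0⟩)
    rw [← hi] at this
    exact absurd hj (not_lt.2 this)
  rw [this, mul_zero]

/-- the points of projective space and the normalised vectors -/
noncomputable def toP (v : {v : Fin (n + 1) → F // Nrm v}) : ℙ F (Fin (n + 1) → F) := Projectivization.mk F v.1 v.2.ne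

lemma toP_bij : Function.Bijective (toP (n := n) (F := F)) := by
  constructor
  · intro v w h
    unfold toP at h
    rw [Projectivization.mk_eq_mk_iff'] at h
    obtain ⟨a, ha⟩ := h
    by_contra hne
    obtain ⟨i, j, hij⟩ := nrm_ne v.2 w.2 fun h => hne (Subtype.ext h)
    apply hij
    rw [← ha]
    simp only [Pi.smul_apply, smul_eq_mul]
    ring
  · intro P
    obtain ⟨a, ha, h⟩ := exists_nrm P.rep P.rep_nonzero
    refine ⟨⟨a • P.rep, h⟩, ?_⟩
    unfold toP
    conv_rhs => rw [← P.mk_rep]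
    rw [Projectivization.mk_eq_mk_iff']
    exact ⟨a, rfl⟩

lemma toP_rep (v : {v : Fin (n + 1) → F // Nrm v}) : ∃ a : F, a ≠ 0 ∧ (toP v).rep = a • v.1 := by
  obtain ⟨a, ha⟩ := Projectivization.exists_smul_eq_mk_rep F v.1 v.2.ne
  exact ⟨a, a.ne_zero, ha.symm⟩

lemma mev_smul {D : ℕ} (a : F) (v : Fin (n + 1) → F) (ν : Mon n D) : mev (a • v) ν = a ^ D * mev v ν := by
  unfold mev
  simp only [Pi.smul_apply, smul_eq_mul, mul_pow]
  rw [prod_mul_distrib, prod_pow_eq_pow_sum, ν.2]

/-- the number of the zeros in projective space -/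
lemma card_zero {D : ℕ} (c : Mon n D → F) :
    Nat.card {P : ℙ F (Fin (n + 1) → F) // ∑ ν, c ν * mev P.rep ν = 0} =
      Nat.card {v : {v : Fin (n + 1) → F // Nrm v} // ∑ ν, c ν * mev v.1 ν = 0} := by
  symm
  refine Nat.card_congr (Equiv.subtypeEquiv (Equiv.ofBijective _ toP_bij) fun v => ?_)
  obtain ⟨a, ha, h⟩ := toP_rep v
  rw [Equiv.ofBijective_apply, h]
  simp only [mev_smul]
  have h1 : ∑ ν, c ν * (a ^ D * mev v.1 ν) = a ^ D * ∑ ν, c ν * mev v.1 ν := by
    rw [mul_sum]
    exact sum_congr rfl fun ν _ => by ring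
  rw [h1, mul_eq_zero]
  constructor
  · intro h2
    exact Or.inr h2
  · rintro (h2 | h2)
    · exact absurd h2 (pow_ne_zero _ ha)
    · exact h2

lemma card_nrm [Finite F] : Nat.card {v : Fin (n + 1) → F // Nrm v} = ∑ i ∈ range (n + 1), Nat.card F ^ i := by
  rw [Nat.card_congr (Equiv.ofBijective _ (toP_bij (n := n) (F := F)))]
  rw [Projectivization.card_of_finrank F (Fin (n + 1) → F) (n := n + 1) (by simp)]

end

end H36PN
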