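import Pool.Agent.Helper36x.PN.Nrm
import Pool.Agent.H35J.GS.Pts

/-!
# The closed points of projective space over the field with `p` elements
-/

set_option autoImplicit false
set_option linter.unusedSectionVars false

namespace H36PN

open Finset
open Q282.CL
open H35GS (card_GF card_algHom)

/-- the points of projective space, by their normalised vectors -/
def NV (F : Type) [Field F] (n : ℕ) : Type := {v : Fin (n + 1) → F // Nrm v}

instance instFiniteNV (F : Type) [Field F] [Finite F] (n : ℕ) : Finite (NV F n) := by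
  unfold NV
  infer_instance

noncomputable instance instFintypeNV (F : Type) [Field F] [Finite F] (n : ℕ) : Fintype (NV F n) := Fintype.ofFinite _

lemma card_NV (F : Type) [Field F] [Finite F] (n : ℕ) : Fintype.card (NV F n) = ∑ i ∈ range (n + 1), Nat.card F ^ i := by
  rw [← Nat.card_eq_fintype_card]
  exact card_nrm

variable {p : ℕ} [hp : Fact p.Prime] {n : ℕ}

/-- primitive vectors -/
def Prm {e : ℕ} (v : Fin (n + 1) → GaloisField p e) : Prop := Nrm v ∧ IntermediateField.adjoin (ZMod p) (Set.range v) = ⊤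

variable (p n) in
/-- conjugate vectors -/
def stp (e : ℕ) : Setoid {v : Fin (n + 1) → GaloisField p e // Prm v} where
  r v w := ∃ σ : GaloisField p e ≃ₐ[ZMod p] GaloisField p e, ∀ i, v.1 i = σ (w.1 i)
  iseqv := ⟨fun v => ⟨AlgEquiv.refl, fun i => rfl⟩, fun ⟨σ, h⟩ => ⟨σ.symm, fun i => by rw [h i, AlgEquiv.symm_apply_apply]⟩,
    fun ⟨σ, h⟩ ⟨τ, h'⟩ => ⟨τ.trans σ, fun i => by rw [h i, h' i]; rfl⟩⟩

variable (p n) in
/-- the closed points of degree `e` -/
def CQ (e : ℕ) : Type := Quotient (stp p n e)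

instance instFiniteCQ (e : ℕ) : Finite (CQ p n e) := by
  unfold CQ
  infer_instance

noncomputable instance instFintypeCQ (e : ℕ) : Fintype (CQ p n e) := Fintype.ofFinite _

noncomputable instance instDecCQ (e : ℕ) : DecidableEq (CQ p n e) := Classical.decEq _

/-- a vector of the class -/
noncomputable def rt {e : ℕ} (P : CQ p n e) : Fin (n + 1) → GaloisField p e := (Quotient.out P).1

lemma rt_prm {e : ℕ} (P : CQ p n e) : Prm (rt P) := (Quotient.out P).2

lemma rt_eq {e : ℕ} {P Q : CQ p n e} (σ : GaloisField p e ≃ₐ[ZMod p] GaloisField p e) (h : ∀ i, rt P i = σ (rt Q i)) : P = Q := by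
  have h1 : (stp p n e).r (Quotient.out P) (Quotient.out Q) := ⟨σ, h⟩
  have h2 := Quotient.sound (s := stp p n e) h1
  have h3 : (Quotient.mk (stp p n e) (Quotient.out P)) = P := Quotient.out_eq P
  have h4 : (Quotient.mk (stp p n e) (Quotient.out Q)) = Q := Quotient.out_eq Q
  rw [h3, h4] at h2
  exact h2

lemma exists_rt {e : ℕ} (v : Fin (n + 1) → GaloisField p e) (hv : Prm v) :
    ∃ (P : CQ p n e) (σ : GaloisField p e ≃ₐ[ZMod p] GaloisField p e), ∀ i, v i = σ (rt P i) := by
  have h := Quotient.mk_out (s := stp p n e) ⟨v, hv⟩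
  obtain ⟨σ, hσ⟩ := h
  refine ⟨Quotient.mk (stp p n e) ⟨v, hv⟩, σ.symm, fun i => ?_⟩
  have h1 := hσ i
  show v i = σ.symm ((Quotient.out (Quotient.mk (stp p n e) ⟨v, hv⟩)).1 i)
  rw [h1, AlgEquiv.symm_apply_apply]

section

variable {L : Type} [Field L] [Algebra (ZMod p) L]

lemma algHom_ext_rt {e : ℕ} (P : CQ p n e) (φ φ' : GaloisField p e →ₐ[ZMod p] L)
    (h : ∀ i, φ (rt P i) = φ' (rt P i)) : φ = φ' := by
  ext x
  have hx : x ∈ IntermediateField.adjoin (ZMod p) (Set.range (rt P)) := by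
    rw [(rt_prm P).2]
    exact IntermediateField.mem_top
  induction hx using IntermediateField.adjoin_induction with
  | mem x hx =>
    obtain ⟨i, rfl⟩ := hx
    exact h i
  | algebraMap x => rw [AlgHom.commutes, AlgHom.commutes]
  | add x y _ _ hx hy => rw [map_add, map_add, hx, hy]
  | inv x _ hx => rw [map_inv₀, map_inv₀, hx]
  | mul x y _ _ hx hy => rw [map_mul, map_mul, hx, hy]

lemma range_adjoin {e : ℕ} (P : CQ p n e) (φ : GaloisField p e →ₐ[ZMod p] L) :
    IntermediateField.adjoin (ZMod p) (Set.range fun i => φ (rt P i)) = φ.fieldRange := by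
  have h1 := IntermediateField.adjoin_map (ZMod p) (Set.range (rt P)) φ
  rw [(rt_prm P).2, ← AlgHom.fieldRange_eq_map, ← Set.range_comp] at h1
  exact h1.symm

/-- two homomorphisms with the same range -/
lemma exists_aut {e : ℕ} (φ φ' : GaloisField p e →ₐ[ZMod p] L) (h : φ.fieldRange = φ'.fieldRange) :
    ∃ σ : GaloisField p e ≃ₐ[ZMod p] GaloisField p e, ∀ x, φ' x = φ (σ x) := by
  obtain ⟨σ, hσ⟩ : ∃ σ : GaloisField p e ≃ₐ[ZMod p] GaloisField p e,
      σ = (AlgHom.equivFieldRange φ').trans ((IntermediateField.equivOfEq h.symm).trans (AlgHom.equivFieldRange φ).symm) := ⟨_, rfl⟩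
  refine ⟨σ, fun x => ?_⟩
  have h1 : (AlgHom.equivFieldRange φ) (σ x) = IntermediateField.equivOfEq h.symm (AlgHom.equivFieldRange φ' x) := by
    rw [hσ]
    simp only [AlgEquiv.trans_apply, AlgEquiv.apply_symm_apply]
  have h2 := congrArg (Subtype.val) h1
  exact h2.symm

lemma finrank_range {e : ℕ} (he : e ≠ 0) (φ : GaloisField p e →ₐ[ZMod p] L) : Module.finrank (ZMod p) φ.fieldRange = e := by
  rw [← (AlgHom.equivFieldRange φ).toLinearEquiv.finrank_eq, GaloisField.finrank p he]

lemma pts_inj (s s' : Σ e : {e : ℕ // e ≠ 0}, CQ p n e × (GaloisField p e →ₐ[ZMod p] L))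
    (h : (fun i => s.2.2 (rt s.2.1 i)) = fun i => s'.2.2 (rt s'.2.1 i)) : s = s' := by
  obtain ⟨e, P, φ⟩ := s
  obtain ⟨e', P', φ'⟩ := s'
  dsimp only at h
  have h1 := range_adjoin P φ
  rw [h, range_adjoin P' φ'] at h1
  have h2 : e = e' := by
    apply Subtype.ext
    rw [← finrank_range e.2 φ, ← finrank_range e'.2 φ', h1]
  subst h2
  obtain ⟨σ, hσ⟩ := exists_aut φ φ' h1.symm
  have h3 : ∀ i, rt P i = σ (rt P' i) := by
    intro i
    have h4 := congrFun h i
    rw [hσ] at h4
    exact φ.injective h4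
  have h5 : P = P' := rt_eq σ h3
  subst h5
  have h6 : φ = φ' := algHom_ext_rt P φ φ' fun i => congrFun h i
  subst h6
  rfl

end

/-- the points over the field with `p ^ j` elements and the closed points -/
theorem sum_points (j : ℕ) (hj : j ≠ 0) (g : (Fin (n + 1) → GaloisField p j) → ℝ) :
    ∑ v : NV (GaloisField p j) n, g v.1 = ∑ e ∈ j.divisors, ∑ P : CQ p n e, ∑ φ : GaloisField p e →ₐ[ZMod p] GaloisField p j, g fun i => φ (rt P i) := by
  classical
  have hne : ∀ e : j.divisors, (e : ℕ) ≠ 0 := fun e => (Nat.pos_of_mem_divisors e.2).ne'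
  obtain ⟨Φ, hΦ⟩ : ∃ Φ : (Σ e : j.divisors, CQ p n e × (GaloisField p e →ₐ[ZMod p] GaloisField p j)) → NV (GaloisField p j) n,
      ∀ s i, (Φ s).1 i = s.2.2 (rt s.2.1 i) :=
    ⟨fun s => ⟨fun i => s.2.2 (rt s.2.1 i), (nrm_map (s.2.2 : GaloisField p s.1 →+* GaloisField p j) _).2 (rt_prm s.2.1).1⟩, fun _ _ => rfl⟩
  have hinj : Function.Injective Φ := by
    rintro ⟨e, P, φ⟩ ⟨e', P', φ'⟩ h
    have h1 := pts_inj (L := GaloisField p j) ⟨⟨e, hne e⟩, P, φ⟩ ⟨⟨e', hne e'⟩, P', φ'⟩ (by
      funext i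
      dsimp only
      have h4 := hΦ ⟨e, P, φ⟩ i
      rw [h, hΦ ⟨e', P', φ'⟩ i] at h4
      exact h4.symm)
    rw [Sigma.mk.injEq] at h1
    obtain ⟨h2, h3⟩ := h1
    have h2 : e = e' := by
      have := congrArg Subtype.val h2
      exact Subtype.ext this
    subst h2
    have h4 := eq_of_heq h3
    rw [h4]
  have hsurj : Function.Surjective Φ := by
    intro w
    obtain ⟨A, hA⟩ : ∃ A, A = IntermediateField.adjoin (ZMod p) (Set.range w.1) := ⟨_, rfl⟩
    obtain ⟨e, he⟩ : ∃ e, e = Module.finrank (ZMod p) A := ⟨_, rfl⟩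
    have hdvd : e ∣ j := by
      rw [he]
      have := Dvd.intro _ (Module.finrank_mul_finrank (ZMod p) A (GaloisField p j))
      rwa [GaloisField.finrank p hj] at this
    have hmem : e ∈ j.divisors := Nat.mem_divisors.2 ⟨hdvd, hj⟩
    have he0 : e ≠ 0 := (Nat.pos_of_mem_divisors hmem).ne'
    obtain ⟨ψ⟩ := FiniteField.nonempty_algHom_of_finrank_dvd (F := ZMod p) (K := GaloisField p e) (L := A)
      (by rw [GaloisField.finrank p he0, ← he])
    obtain ⟨φ, hφ⟩ : ∃ φ : GaloisField p e →ₐ[ZMod p] GaloisField p j, φ = A.val.comp ψ := ⟨_, rfl⟩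
    have hrange : φ.fieldRange = A := by
      refine IntermediateField.eq_of_le_of_finrank_eq ?_ ?_
      · rintro x ⟨y, rfl⟩
        rw [hφ]
        exact (ψ y).2
      · rw [finrank_range he0, ← he]
    have hw : ∀ i, ∃ y, φ y = w.1 i := by
      intro i
      have h1 : w.1 i ∈ φ.fieldRange := by
        rw [hrange, hA]
        exact IntermediateField.subset_adjoin _ _ ⟨i, rfl⟩
      exact h1
    choose v hv using hw
    have hvp : Prm v := by
      refine ⟨(nrm_map (φ : GaloisField p e →+* GaloisField p j) v).1 ?_, ?_⟩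
      · have h1 : (fun i => (φ : GaloisField p e →+* GaloisField p j) (v i)) = w.1 := funext hv
        rw [h1]
        exact w.2
      · have h1 := IntermediateField.adjoin_map (ZMod p) (Set.range v) φ
        have h2 : (φ '' Set.range v) = Set.range w.1 := by
          rw [← Set.range_comp]
          congr 1
          funext i
          exact hv i
        rw [h2, ← hA, ← hrange, AlgHom.fieldRange_eq_map] at h1
        exact IntermediateField.map_injective φ h1
    obtain ⟨P, σ, hσ⟩ := exists_rt v hvp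
    refine ⟨⟨⟨e, hmem⟩, P, φ.comp (σ : GaloisField p e →ₐ[ZMod p] GaloisField p e)⟩, ?_⟩
    apply Subtype.ext
    funext i
    rw [hΦ]
    show φ (σ (rt P i)) = _
    rw [← hσ, hv]
  rw [← Fintype.sum_equiv (Equiv.ofBijective Φ ⟨hinj, hsurj⟩) (fun s => g (Φ s).1) (fun v => g v.1) fun s => rfl, Fintype.sum_sigma,
    ← Finset.sum_coe_sort j.divisors fun e => ∑ P : CQ p n e, ∑ φ : GaloisField p e →ₐ[ZMod p] GaloisField p j, g fun i => φ (rt P i)]
  refine sum_congr rfl fun e _ => ?_
  rw [Fintype.sum_prod_type]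
  refine sum_congr rfl fun P _ => sum_congr rfl fun φ _ => ?_
  congr 1
  funext i
  rw [hΦ]

/-- the number of the closed points -/
theorem card_points (j : ℕ) (hj : j ≠ 0) :
    ∑ i ∈ range (n + 1), ((p : ℝ) ^ j) ^ i = ∑ e ∈ j.divisors, (e : ℝ) * Fintype.card (CQ p n e) := by
  have h := sum_points (p := p) (n := n) j hj fun _ => 1
  rw [sum_const, card_univ, card_NV, GaloisField.card p j hj, nsmul_eq_mul, mul_one] at h
  push_cast at h
  rw [h]
  refine sum_congr rfl fun e he => ?_
  have he0 : e ≠ 0 := (Nat.pos_of_mem_divisors he).ne'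
  have hd : e ∣ j := (Nat.mem_divisors.1 he).1
  simp only [sum_const, card_univ, nsmul_eq_mul, mul_one]
  rw [card_algHom he0 hj hd]
  ring

end H36PN
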