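import Pool.Agent.Helper36x.PN.Mod3

/-!
# The proportion of the singular forms modulo `p`
-/

set_option autoImplicit false
set_option linter.unusedSectionVars false

namespace H36PN

open Finset
open Q282.CL
open Pool.Agent.Y722.HS (Mon mev mkMon mkMon_apply form eval_form IsSmooth T Delta N0 IsBad card_bad isSmooth_of_not_isBad)

lemma card_Mon (n N : ℕ) : Fintype.card (Mon n N) ≤ (N + 1) ^ n := by
  classical
  have h1 : Function.Injective (fun (μ : Mon n N) (i : Fin n) => μ.1 i.castSucc) := by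
    intro μ ν h
    apply Subtype.ext
    have h2 : ∀ i : Fin n, μ.1 i.castSucc = ν.1 i.castSucc := fun i => congrFun h i
    have h3 := μ.2
    have h4 := ν.2
    rw [Fin.sum_univ_castSucc] at h3 h4
    have h5 : ∑ i : Fin n, (μ.1 i.castSucc : ℕ) = ∑ i : Fin n, (ν.1 i.castSucc : ℕ) := sum_congr rfl fun i _ => by rw [h2 i]
    funext i
    refine Fin.lastCases ?_ (fun j => h2 j) i
    apply Fin.ext
    omega
  have h2 := Fintype.card_le_of_injective _ h1
  rw [Fintype.card_fun, Fintype.card_fin, Fintype.card_fin] at h2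
  exact h2

lemma totalDegree_det {σ ι : Type} [Fintype ι] [DecidableEq ι] (M : Matrix ι ι (MvPolynomial σ ℤ)) (hM : ∀ i j, (M i j).totalDegree ≤ 1) :
    M.det.totalDegree ≤ Fintype.card ι := by
  rw [Matrix.det_apply]
  refine MvPolynomial.totalDegree_finsetSum_le fun π _ => ?_
  have h1 : (∏ i, M (π i) i).totalDegree ≤ Fintype.card ι := by
    refine (MvPolynomial.totalDegree_finsetProd _ _).trans ?_
    calc ∑ i, (M (π i) i).totalDegree ≤ ∑ i : ι, 1 := sum_le_sum fun i _ => hM _ _
      _ = Fintype.card ι := by simp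
  rcases Int.units_eq_one_or (Equiv.Perm.sign π) with h | h
  · rw [h, one_smul]
    exact h1
  · rw [h]
    have : ((-1 : ℤˣ) • ∏ i, M (π i) i) = -∏ i, M (π i) i := by
      rw [Units.smul_def]
      simp
    rw [this, MvPolynomial.totalDegree_neg]
    exact h1

/-- the bound -/
def BD (m D : ℕ) : ℕ := ((m + 2) * D) ^ (m + 1)

lemma deg_Delta (m D : ℕ) (hD : 1 ≤ D) : (Delta (m + 1) D).totalDegree ≤ BD m D := by
  classical
  have h1 : (Delta (m + 1) D).totalDegree ≤ Fintype.card (Mon (m + 1) (N0 (m + 1) D)) := by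
    unfold Delta
    refine totalDegree_det _ fun μ ν => ?_
    unfold T
    refine MvPolynomial.totalDegree_finsetSum_le fun k _ => ?_
    refine (MvPolynomial.totalDegree_mul _ _).trans ?_
    beta_reduce
    have h2 : (MvPolynomial.X k : MvPolynomial (Mon (m + 1) D) ℤ).totalDegree ≤ 1 := by
      rw [MvPolynomial.totalDegree_X]
    have h3 : ((((k.1 (Pool.Agent.Y722.HS.piv μ) : ℕ) : MvPolynomial (Mon (m + 1) D) ℤ)) * if Pool.Agent.Y722.HS.Cond k μ ν then 1 else 0).totalDegree ≤ 0 := by
      refine (MvPolynomial.totalDegree_mul _ _).trans ?_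
      have h4 : (((k.1 (Pool.Agent.Y722.HS.piv μ) : ℕ) : MvPolynomial (Mon (m + 1) D) ℤ)).totalDegree = 0 := by
        have : (((k.1 (Pool.Agent.Y722.HS.piv μ) : ℕ) : MvPolynomial (Mon (m + 1) D) ℤ)) = MvPolynomial.C ((k.1 (Pool.Agent.Y722.HS.piv μ) : ℕ) : ℤ) := by simp
        rw [this, MvPolynomial.totalDegree_C]
      rw [h4]
      split_ifs
      · simp
      · simp
    omega
  refine h1.trans ((card_Mon _ _).trans ?_)
  unfold BD N0
  refine Nat.pow_le_pow_left ?_ _
  rcases Nat.lt_or_ge D 2 with h | h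
  · have : D = 1 := by omega
    subst this
    simp
  · obtain ⟨e, rfl⟩ : ∃ e, D = e + 2 := ⟨D - 2, by omega⟩
    simp only [Nat.add_sub_cancel]
    nlinarith

lemma BD_pos (m D : ℕ) : D ≤ BD m D := by
  unfold BD
  calc D ≤ (m + 2) * D := Nat.le_mul_of_pos_left _ (by omega)
    _ ≤ ((m + 2) * D) ^ (m + 1) := Nat.le_self_pow (by omega) _

/-- the hypersurface is smooth modulo `p` -/
def Sm {n D : ℕ} (p : ℕ) (c : Mon n D → ZMod p) : Prop :=
  ∀ _ : Fact p.Prime, IsSmooth (MvPolynomial.map (algebraMap (ZMod p) (AlgebraicClosure (ZMod p))) (form c))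

open Classical in
/-- **the proportion of the singular forms** -/
theorem av_sing (m D p : ℕ) [hp : Fact p.Prime] (hD : 1 ≤ D) :
    av (fun c : Mon (m + 1) D → ZMod p => (if Sm p c then (0 : ℝ) else 1)) ≤ BD m D / p := by
  have hp0 : (0 : ℝ) < p := by exact_mod_cast hp.out.pos
  by_cases hpD : p ∣ D
  · have h1 : av (fun c : Mon (m + 1) D → ZMod p => (if Sm p c then (0 : ℝ) else 1)) ≤ 1 := by
      refine (av_mono (g := fun _ => (1 : ℝ)) fun c => ?_).trans (le_of_eq (av_const 1))
      split_ifs <;> norm_num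
    refine h1.trans ?_
    rw [le_div_iff₀ hp0, one_mul]
    have h2 := Nat.le_of_dvd hD hpD
    have h3 := BD_pos m D
    exact_mod_cast h2.trans h3
  · have h1 := card_bad (m + 1) D p hpD
    have h2 : ((Delta (m + 1) D).totalDegree : ℝ) ≤ BD m D := by exact_mod_cast deg_Delta m D hD
    have h3 : ∑ c : Mon (m + 1) D → ZMod p, (if Sm p c then (0 : ℝ) else 1) ≤ Nat.card {c : Mon (m + 1) D → ZMod p // IsBad p c} := by
      rw [Nat.card_eq_fintype_card, Fintype.card_subtype]
      have h4 : ∑ c : Mon (m + 1) D → ZMod p, (if Sm p c then (0 : ℝ) else 1) = ((univ.filter fun c : Mon (m + 1) D → ZMod p => ¬ Sm p c).card : ℝ) := by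
        rw [← sum_boole]
        exact sum_congr rfl fun c _ => by by_cases h : Sm p c <;> simp [h]
      rw [h4]
      refine Nat.cast_le.2 (card_le_card fun c hc => ?_)
      rw [mem_filter] at hc ⊢
      refine ⟨mem_univ _, ?_⟩
      by_contra hb
      exact hc.2 fun _ => isSmooth_of_not_isBad p hD c hb
    unfold av
    rw [Fintype.card_fun, ZMod.card]
    push_cast
    have hpp : (0 : ℝ) < (p : ℝ) ^ Fintype.card (Mon (m + 1) D) := by positivity
    rw [div_le_div_iff₀ hpp hp0]
    calc (∑ c : Mon (m + 1) D → ZMod p, (if Sm p c then (0 : ℝ) else 1)) * p ≤ (Nat.card {c : Mon (m + 1) D → ZMod p // IsBad p c} : ℝ) * p :=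
          mul_le_mul_of_nonneg_right h3 hp0.le
      _ ≤ (Delta (m + 1) D).totalDegree * (p : ℝ) ^ Fintype.card (Mon (m + 1) D) := h1
      _ ≤ BD m D * (p : ℝ) ^ Fintype.card (Mon (m + 1) D) := mul_le_mul_of_nonneg_right h2 hpp.le

end H36PN
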